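import Pool.Agent.Lib.MP_50d0fc_nt.LB.Spec

/-!
# Module AH: the twisted sums
-/

set_option autoImplicit false

open Complex DirichletCharacter MeasureTheory ComplexConjugate

namespace Pool.Agent.Lib.MP_50d0fc_nt.LB

namespace AHM

/-- the summand -/
lemma summable_term (h5 : StKS) {q : ℕ} [NeZero q] (hq : 0 < q) (χ : DirichletCharacter ℂ q) :
    Summable (fun p : ℕ × ℕ => χ (p.1 : ZMod q) * conj (χ (p.2 : ZMod q)) * ((K q p.1 p.2 : ℝ) : ℂ)) := by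
  refine Summable.of_norm_bounded (h5 q hq) ?_
  intro p
  rw [norm_mul, norm_mul, RCLike.norm_conj, norm_real, Real.norm_eq_abs]
  have h1 : ‖χ (p.1 : ZMod q)‖ ≤ 1 := χ.norm_le_one _
  have h2 : ‖χ (p.2 : ZMod q)‖ ≤ 1 := χ.norm_le_one _
  have h3 : ‖χ (p.1 : ZMod q)‖ * ‖χ (p.2 : ZMod q)‖ ≤ 1 := mul_le_one₀ h1 (norm_nonneg _) h2
  calc ‖χ (p.1 : ZMod q)‖ * ‖χ (p.2 : ZMod q)‖ * |K q p.1 p.2| ≤ 1 * |K q p.1 p.2| :=
        mul_le_mul_of_nonneg_right h3 (abs_nonneg _)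
    _ = |K q p.1 p.2| := one_mul _

/-- the product formula for one character -/
lemma product (h1 : StML) (h2 : StFE) (h3 : StPF) (h4 : StEX) {q : ℕ} [NeZero q] (hq : q.Prime)
    (χ : DirichletCharacter ℂ q) (hχ : χ.Odd) : X1 χ * conj (X χ) =
      ∑' p : ℕ × ℕ, χ (p.1 : ZMod q) * conj (χ (p.2 : ZMod q)) * ((K q p.1 p.2 : ℝ) : ℂ) := by
  obtain ⟨hi, hi', -, -⟩ := h1 q hq χ hχ
  obtain ⟨ε, hε, hFE⟩ := h2 q hq χ hχ
  have h := (h3 (Phi χ) ε hi hi' hε hFE).1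
  unfold X1 X
  rw [h, h4 q hq χ hχ, ← tsum_mul_left]
  refine tsum_congr fun p => ?_
  push_cast
  ring

end AHM

theorem ah (h1 : StML) (h2 : StFE) (h3 : StPF) (h4 : StEX) (h5 : StKS) (h6 : StOR) : StAH := by
  intro q _ hq hq2 h
  have e1 : ∀ χ ∈ oddChars q, χ (h : ZMod q) * (X1 χ * conj (X χ)) =
      ∑' p : ℕ × ℕ, χ ((h * p.1 : ℕ) : ZMod q) * conj (χ (p.2 : ZMod q)) * ((K q p.1 p.2 : ℝ) : ℂ) := by
    intro χ hχ
    rw [AHM.product h1 h2 h3 h4 hq χ ((mem_oddChars χ).1 hχ), ← tsum_mul_left]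
    refine tsum_congr fun p => ?_
    rw [Nat.cast_mul, map_mul]
    ring
  rw [Finset.sum_congr rfl e1]
  have hs : ∀ χ ∈ oddChars q, Summable (fun p : ℕ × ℕ =>
      χ ((h * p.1 : ℕ) : ZMod q) * conj (χ (p.2 : ZMod q)) * ((K q p.1 p.2 : ℝ) : ℂ)) := by
    intro χ _
    refine ((AHM.summable_term h5 hq.pos χ).mul_left (χ (h : ZMod q))).congr fun p => ?_
    rw [Nat.cast_mul, map_mul]
    ring
  rw [← Summable.tsum_finsetSum hs]
  unfold R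
  rw [← tsum_mul_left, ofReal_tsum]
  refine tsum_congr fun p => ?_
  rw [← Finset.sum_mul, h6 q hq hq2 (h * p.1) p.2]
  push_cast
  ring

end Pool.Agent.Lib.MP_50d0fc_nt.LB
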