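import Pool.Agent.Lib.MP_50d0fc_nt.LB.Spec

/-! # MP_50d0fc LB: the mean square of `S T_a` (helper74) -/

set_option autoImplicit false

open Complex DirichletCharacter MeasureTheory ComplexConjugate

namespace Pool.Agent.Lib.MP_50d0fc_nt.LB

namespace DNM

/-- the coefficients of `S` -/
noncomputable def s (q m : ℕ) : ℝ := (m : ℝ) ^ (-(1 / 2) : ℝ) * W (2 * Real.log m - Real.log q)

/-- the coefficients of `S T_a` -/
noncomputable def c (q y : ℕ) (a : ℕ → ℝ) (n : ℕ) : ℝ :=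
  ∑ h ∈ Finset.Icc 1 y, if h ∣ n then a h * (h : ℝ) ^ (-(1 / 2) : ℝ) * s q (n / h) else 0

lemma s_nonneg (hW : ∀ y, 0 ≤ W y) (q m : ℕ) : 0 ≤ s q m :=
  mul_nonneg (Real.rpow_nonneg (Nat.cast_nonneg m) _) (hW _)

lemma s_zero (q : ℕ) : s q 0 = 0 := by
  unfold s
  rw [Nat.cast_zero, Real.zero_rpow (by norm_num), zero_mul]

lemma c_zero (q y : ℕ) (a : ℕ → ℝ) : c q y a 0 = 0 := by
  unfold c
  refine Finset.sum_eq_zero fun h _ => ?_
  rw [Nat.zero_div, s_zero, mul_zero, ite_self]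

lemma c_nonneg (hW : ∀ y, 0 ≤ W y) (q y : ℕ) {a : ℕ → ℝ} (ha : ∀ h, 0 ≤ a h) (n : ℕ) :
    0 ≤ c q y a n := by
  unfold c
  refine Finset.sum_nonneg fun h _ => ?_
  split_ifs
  · exact mul_nonneg (mul_nonneg (ha h) (Real.rpow_nonneg (Nat.cast_nonneg h) _))
      (s_nonneg hW q _)
  · exact le_rfl

lemma term_summable {q : ℕ} (hs : Summable (s q)) (b : ℝ) {h : ℕ} (hh : 0 < h) :
    Summable (fun n : ℕ => if h ∣ n then b * s q (n / h) else 0) := by
  have hinj : Function.Injective (fun m : ℕ => h * m) := fun x y hxy =>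
    Nat.eq_of_mul_eq_mul_left hh hxy
  rw [← hinj.summable_iff]
  · refine (hs.mul_left b).congr fun m => ?_
    simp only [Function.comp]
    rw [if_pos (Dvd.intro m rfl), Nat.mul_div_cancel_left m hh]
  · intro n hn
    rw [if_neg]
    rintro ⟨m, rfl⟩
    exact hn ⟨m, rfl⟩

lemma c_summable {q : ℕ} (hs : Summable (s q)) (y : ℕ) (a : ℕ → ℝ) : Summable (c q y a) := by
  unfold c
  refine summable_sum fun h hh => ?_
  exact term_summable hs _ (Finset.mem_Icc.1 hh).1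

lemma prod_eq (hW : ∀ y, 0 ≤ W y) {q : ℕ} (hs : Summable (s q)) (χ : DirichletCharacter ℂ q)
    (y : ℕ) (a : ℕ → ℝ) :
    S χ * T y a χ = ∑' n : ℕ, χ (n : ZMod q) * ((c q y a n : ℝ) : ℂ) := by
  have h0 : Summable (fun m : ℕ => χ (m : ZMod q) * ((s q m : ℝ) : ℂ)) := by
    refine Summable.of_norm_bounded hs fun m => ?_
    rw [norm_mul, Complex.norm_real, Real.norm_of_nonneg (s_nonneg hW q m)]
    exact mul_le_of_le_one_left (s_nonneg hW q m) (χ.norm_le_one _)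
  have h1 : HasSum (fun m : ℕ => χ (m : ZMod q) * ((s q m : ℝ) : ℂ)) (S χ) := h0.hasSum
  have h2 : ∀ h ∈ Finset.Icc 1 y, HasSum (fun n : ℕ => χ (n : ZMod q) *
      (((if h ∣ n then a h * (h : ℝ) ^ (-(1 / 2) : ℝ) * s q (n / h) else 0 : ℝ)) : ℂ))
      (S χ * (((a h * (h : ℝ) ^ (-(1 / 2) : ℝ) : ℝ) : ℂ) * χ (h : ZMod q))) := by
    intro h hh
    have hh0 : 0 < h := (Finset.mem_Icc.1 hh).1
    have hinj : Function.Injective (fun m : ℕ => h * m) := fun x y hxy =>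
      Nat.eq_of_mul_eq_mul_left hh0 hxy
    rw [← hinj.hasSum_iff]
    · refine (h1.mul_right (((a h * (h : ℝ) ^ (-(1 / 2) : ℝ) : ℝ) : ℂ) *
        χ (h : ZMod q))).congr_fun fun m => ?_
      simp only [Function.comp]
      rw [if_pos (Dvd.intro m rfl), Nat.mul_div_cancel_left m hh0, Nat.cast_mul, map_mul]
      push_cast
      ring
    · intro n hn
      rw [if_neg]
      · simp
      · rintro ⟨m, rfl⟩
        exact hn ⟨m, rfl⟩
  have h3 := hasSum_sum h2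
  unfold T
  rw [Finset.mul_sum, ← h3.tsum_eq]
  congr 1
  ext n
  unfold c
  rw [← Finset.mul_sum]
  push_cast
  rfl

/-- the bound of the coefficients -/
lemma c_le (hWa : Antitone W) (hW : ∀ y, 0 ≤ W y) {q y : ℕ} {a : ℕ → ℝ} (ha : ∀ h, 0 ≤ a h)
    {B : ℝ} {n : ℕ} (hn : 1 ≤ n) (hB : ∑ h ∈ n.divisors, a h ≤ B) :
    c q y a n ≤ (n : ℝ) ^ (-(1 / 2) : ℝ) * B *
      W (2 * Real.log n - 2 * Real.log y - Real.log q) := by
  set w : ℝ := W (2 * Real.log n - 2 * Real.log y - Real.log q) with hw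
  have hw0 : 0 ≤ w := hW _
  have hn0 : (0 : ℝ) < n := by exact_mod_cast hn
  have hr0 : 0 ≤ (n : ℝ) ^ (-(1 / 2) : ℝ) := Real.rpow_nonneg hn0.le _
  have h1 : ∀ h ∈ Finset.Icc 1 y, (if h ∣ n then a h * (h : ℝ) ^ (-(1 / 2) : ℝ) * s q (n / h)
      else 0) ≤ if h ∣ n then (n : ℝ) ^ (-(1 / 2) : ℝ) * w * a h else 0 := by
    intro h hh
    split_ifs with hd
    · obtain ⟨m, rfl⟩ := hd
      have hh1 : 1 ≤ h := (Finset.mem_Icc.1 hh).1
      have hhy : h ≤ y := (Finset.mem_Icc.1 hh).2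
      have hm1 : 0 < m := Nat.pos_of_ne_zero fun h0 => by
        rw [h0, mul_zero] at hn
        omega
      have hh0 : (0 : ℝ) < h := by exact_mod_cast hh1
      have hm0 : (0 : ℝ) < m := by exact_mod_cast hm1
      rw [Nat.mul_div_cancel_left m hh1]
      have e1 : ((h * m : ℕ) : ℝ) ^ (-(1 / 2) : ℝ) =
          (h : ℝ) ^ (-(1 / 2) : ℝ) * (m : ℝ) ^ (-(1 / 2) : ℝ) := by
        rw [Nat.cast_mul, Real.mul_rpow hh0.le hm0.le]
      have e2 : W (2 * Real.log m - Real.log q) ≤ w := by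
        rw [hw]
        apply hWa
        rw [Nat.cast_mul, Real.log_mul hh0.ne' hm0.ne']
        have : Real.log h ≤ Real.log y := Real.log_le_log hh0 (by exact_mod_cast hhy)
        linarith
      unfold s
      rw [e1]
      have p1 : 0 ≤ a h * (h : ℝ) ^ (-(1 / 2) : ℝ) * (m : ℝ) ^ (-(1 / 2) : ℝ) :=
        mul_nonneg (mul_nonneg (ha h) (Real.rpow_nonneg hh0.le _)) (Real.rpow_nonneg hm0.le _)
      calc a h * (h : ℝ) ^ (-(1 / 2) : ℝ) * ((m : ℝ) ^ (-(1 / 2) : ℝ) *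
            W (2 * Real.log m - Real.log q))
          = (a h * (h : ℝ) ^ (-(1 / 2) : ℝ) * (m : ℝ) ^ (-(1 / 2) : ℝ)) *
            W (2 * Real.log m - Real.log q) := by ring
        _ ≤ (a h * (h : ℝ) ^ (-(1 / 2) : ℝ) * (m : ℝ) ^ (-(1 / 2) : ℝ)) * w :=
            mul_le_mul_of_nonneg_left e2 p1
        _ = _ := by ring
    · exact le_rfl
  calc c q y a n ≤ ∑ h ∈ Finset.Icc 1 y,
        (if h ∣ n then (n : ℝ) ^ (-(1 / 2) : ℝ) * w * a h else 0) := Finset.sum_le_sum h1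
    _ = ∑ h ∈ (Finset.Icc 1 y).filter (fun h => h ∣ n), (n : ℝ) ^ (-(1 / 2) : ℝ) * w * a h := by
        rw [Finset.sum_filter]
    _ ≤ ∑ h ∈ n.divisors, (n : ℝ) ^ (-(1 / 2) : ℝ) * w * a h := by
        refine Finset.sum_le_sum_of_subset_of_nonneg (fun h hh => ?_) (fun h _ _ => ?_)
        · rw [Finset.mem_filter] at hh
          exact Nat.mem_divisors.2 ⟨hh.2, by omega⟩
        · exact mul_nonneg (mul_nonneg hr0 hw0) (ha h)
    _ = (n : ℝ) ^ (-(1 / 2) : ℝ) * w * ∑ h ∈ n.divisors, a h := by rw [Finset.mul_sum]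
    _ ≤ (n : ℝ) ^ (-(1 / 2) : ℝ) * w * B :=
        mul_le_mul_of_nonneg_left hB (mul_nonneg hr0 hw0)
    _ = _ := by ring

/-- the coefficients with `n ≥ q` -/
lemma c_le_large (hWa : Antitone W) (hW : ∀ y, 0 ≤ W y) {C : ℝ} (hC : 0 < C)
    (hb : ∀ y, W y ≤ C * Real.exp (-(4 * y))) {q y : ℕ} (hy : 2 ≤ y) (hyq : y ^ 20 ≤ q)
    {a : ℕ → ℝ} (ha : ∀ h, 0 ≤ a h)
    {n : ℕ} (hn : q ≤ n) (hB : ∑ h ∈ n.divisors, a h ≤ 1 + Real.log n / Real.log y) :
    c q y a n ≤ 3 * C * ((n : ℝ) ^ 2)⁻¹ := by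
  have hq1 : 1 ≤ q := le_trans (Nat.one_le_pow _ _ (by omega)) hyq
  have hn1 : 1 ≤ n := hq1.trans hn
  have h1 := c_le hWa hW (q := q) (y := y) ha hn1 hB
  have hn0 : (0 : ℝ) < n := by exact_mod_cast hn1
  have hnR : (1 : ℝ) ≤ n := by exact_mod_cast hn1
  have hq0 : (0 : ℝ) < q := by exact_mod_cast hq1
  have hy0 : (0 : ℝ) < y := by exact_mod_cast (by omega : 0 < y)
  have e1 : (n : ℝ) ^ (-(1 / 2) : ℝ) ≤ 1 := Real.rpow_le_one_of_one_le_of_nonpos hnR (by norm_num)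
  have p1 : 0 ≤ (n : ℝ) ^ (-(1 / 2) : ℝ) := Real.rpow_nonneg hn0.le _
  have ly : 1 / 2 ≤ Real.log y := by
    have h2 : Real.log 2 ≤ Real.log y := Real.log_le_log (by norm_num) (by exact_mod_cast hy)
    have := Real.log_two_gt_d9
    linarith
  have ln0 : 0 ≤ Real.log n := Real.log_nonneg hnR
  have ln : Real.log n ≤ n := (Real.log_le_sub_one_of_pos hn0).trans (by linarith)
  have e2 : 1 + Real.log n / Real.log y ≤ 3 * n := by
    have h3 : Real.log n / Real.log y ≤ Real.log n * 2 := by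
      rw [div_le_iff₀ (by linarith)]
      nlinarith
    linarith
  have e3 : W (2 * Real.log n - 2 * Real.log y - Real.log q) ≤
      C * ((y : ℝ) ^ 8 * (q : ℝ) ^ 4 * ((n : ℝ) ^ 8)⁻¹) := by
    refine (hb _).trans (le_of_eq ?_)
    congr 1
    have h4 : ∀ (x : ℝ) (k : ℕ), 0 < x → Real.exp ((k : ℝ) * Real.log x) = x ^ k := by
      intro x k hx
      rw [← Real.log_pow, Real.exp_log (by positivity)]
    rw [show -(4 * (2 * Real.log n - 2 * Real.log y - Real.log q)) =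
      ((8 : ℕ) : ℝ) * Real.log y + ((4 : ℕ) : ℝ) * Real.log q - ((8 : ℕ) : ℝ) * Real.log n by
        push_cast; ring, Real.exp_sub, Real.exp_add, h4 _ _ hy0, h4 _ _ hq0, h4 _ _ hn0,
        div_eq_mul_inv]
  have e4 : (y : ℝ) ^ 8 ≤ n := by
    have h5 : y ^ 8 ≤ n := (Nat.pow_le_pow_right (by omega) (by norm_num)).trans (hyq.trans hn)
    exact_mod_cast h5
  have e5 : (q : ℝ) ^ 4 ≤ (n : ℝ) ^ 4 := by
    have : (q : ℝ) ≤ n := by exact_mod_cast hn
    gcongr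
  have p2 : 0 ≤ 1 + Real.log n / Real.log y := by positivity
  calc c q y a n ≤ (n : ℝ) ^ (-(1 / 2) : ℝ) * (1 + Real.log n / Real.log y) *
        W (2 * Real.log n - 2 * Real.log y - Real.log q) := h1
    _ ≤ 1 * (3 * n) * (C * (n * (n : ℝ) ^ 4 * ((n : ℝ) ^ 8)⁻¹)) := by
        refine mul_le_mul (mul_le_mul e1 e2 p2 (by norm_num)) (e3.trans ?_) (hW _) (by positivity)
        gcongr
    _ = 3 * C * ((n : ℝ) ^ 2)⁻¹ := by
        field_simp

/-- the coefficients with `n < q` -/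
lemma c_sq_le_small (hWa : Antitone W) (hW : ∀ y, 0 ≤ W y) {C : ℝ} (hC : 0 < C)
    (hb : ∀ y, W y ≤ C) {q y : ℕ} (hy : 2 ≤ y)
    (hlog : Real.log q ≤ 40 * Real.log y)
    {a : ℕ → ℝ} (ha : ∀ h, 0 ≤ a h)
    {n : ℕ} (hn : n < q)
    (hB : 1 ≤ n → ∑ h ∈ n.divisors, a h ≤ 1 + Real.log n / Real.log y) :
    (c q y a n) ^ 2 ≤ 2 * (41 * C) ^ 2 * ((n : ℝ) + 1)⁻¹ := by
  rcases Nat.eq_zero_or_pos n with rfl | hn1
  · rw [c_zero, zero_pow two_ne_zero]
    positivity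
  have h1 := c_le hWa hW (q := q) (y := y) ha hn1 (hB hn1)
  have hn0 : (0 : ℝ) < n := by exact_mod_cast hn1
  have hnR : (1 : ℝ) ≤ n := by exact_mod_cast hn1
  have p1 : 0 ≤ (n : ℝ) ^ (-(1 / 2) : ℝ) := Real.rpow_nonneg hn0.le _
  have ly : 1 / 2 ≤ Real.log y := by
    have h2 : Real.log 2 ≤ Real.log y := Real.log_le_log (by norm_num) (by exact_mod_cast hy)
    have := Real.log_two_gt_d9
    linarith
  have ln0 : 0 ≤ Real.log n := Real.log_nonneg hnR
  have lnq : Real.log n ≤ Real.log q := Real.log_le_log hn0 (by exact_mod_cast hn.le)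
  have e2 : 1 + Real.log n / Real.log y ≤ 41 := by
    have h3 : Real.log n / Real.log y ≤ 40 := by
      rw [div_le_iff₀ (by linarith)]
      linarith
    linarith
  have p2 : 0 ≤ 1 + Real.log n / Real.log y := by positivity
  have h6 : c q y a n ≤ (n : ℝ) ^ (-(1 / 2) : ℝ) * (41 * C) := by
    calc c q y a n ≤ (n : ℝ) ^ (-(1 / 2) : ℝ) * (1 + Real.log n / Real.log y) *
          W (2 * Real.log n - 2 * Real.log y - Real.log q) := h1
      _ ≤ (n : ℝ) ^ (-(1 / 2) : ℝ) * 41 * C := by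
          refine mul_le_mul (mul_le_mul_of_nonneg_left e2 p1) (hb _) (hW _) (by positivity)
      _ = _ := by ring
  have h7 : ((n : ℝ) ^ (-(1 / 2) : ℝ)) ^ 2 = (n : ℝ)⁻¹ := by
    rw [← Real.rpow_natCast, ← Real.rpow_mul hn0.le]
    norm_num
    rw [Real.rpow_neg_one]
  have h8 : (n : ℝ)⁻¹ ≤ 2 * ((n : ℝ) + 1)⁻¹ := by
    rw [inv_eq_one_div, inv_eq_one_div, mul_one_div, div_le_div_iff₀ hn0 (by positivity)]
    linarith
  calc (c q y a n) ^ 2 ≤ ((n : ℝ) ^ (-(1 / 2) : ℝ) * (41 * C)) ^ 2 :=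
        pow_le_pow_left₀ (c_nonneg hW q y ha n) h6 2
    _ = (41 * C) ^ 2 * (n : ℝ)⁻¹ := by rw [mul_pow, h7]; ring
    _ ≤ (41 * C) ^ 2 * (2 * ((n : ℝ) + 1)⁻¹) := mul_le_mul_of_nonneg_left h8 (by positivity)
    _ = _ := by ring

/-- the sum over the classes: a general bound. -/
lemma class_sum {q : ℕ} [NeZero q] {c : ℕ → ℝ} (hc0 : ∀ n, 0 ≤ c n) (hc : Summable c)
    {A D : ℝ} (hA : ∑ n ∈ Finset.range q, (c n) ^ 2 ≤ A)
    {d : ℕ → ℝ} (hd : Summable d) (hd0 : ∀ n, 0 ≤ d n) (hcd : ∀ n, q ≤ n → c n ≤ d n)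
    (hD : ∑' n, d n ≤ D) :
    ∑ r : ZMod q, (∑' n : ℕ, if (n : ZMod q) = r then c n else 0) ^ 2 ≤ 2 * A + 2 * D ^ 2 := by
  obtain ⟨u, hu⟩ : ∃ u : ℕ → ℝ, ∀ n, u n = if n < q then c n else 0 := ⟨_, fun _ => rfl⟩
  obtain ⟨v, hv⟩ : ∃ v : ℕ → ℝ, ∀ n, v n = if n < q then 0 else c n := ⟨_, fun _ => rfl⟩
  have huv : ∀ n, c n = u n + v n := by
    intro n
    rw [hu, hv]
    split_ifs <;> ring
  have hu0 : ∀ n, 0 ≤ u n := by
    intro n
    rw [hu]
    split_ifs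
    · exact hc0 n
    · exact le_rfl
  have hv0 : ∀ n, 0 ≤ v n := by
    intro n
    rw [hv]
    split_ifs
    · exact le_rfl
    · exact hc0 n
  have hvd : ∀ n, v n ≤ d n := by
    intro n
    rw [hv]
    split_ifs with h
    · exact hd0 n
    · exact hcd n (not_lt.1 h)
  have hus : Summable u := Summable.of_nonneg_of_le hu0 (fun n => by
    rw [huv n]; linarith [hv0 n]) hc
  have hvs : Summable v := Summable.of_nonneg_of_le hv0 (fun n => by
    rw [huv n]; linarith [hu0 n]) hc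
  have hus' : ∀ r : ZMod q, Summable (fun n : ℕ => if (n : ZMod q) = r then u n else 0) := by
    intro r
    refine Summable.of_nonneg_of_le (fun n => ?_) (fun n => ?_) hus
    · split_ifs
      · exact hu0 n
      · exact le_rfl
    · split_ifs
      · exact le_rfl
      · exact hu0 n
  have hvs' : ∀ r : ZMod q, Summable (fun n : ℕ => if (n : ZMod q) = r then v n else 0) := by
    intro r
    refine Summable.of_nonneg_of_le (fun n => ?_) (fun n => ?_) hvs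
    · split_ifs
      · exact hv0 n
      · exact le_rfl
    · split_ifs
      · exact le_rfl
      · exact hv0 n
  have hA' : ∀ r : ZMod q, (∑' n : ℕ, if (n : ZMod q) = r then u n else 0) = c r.val := by
    intro r
    rw [tsum_eq_single r.val]
    · rw [if_pos (ZMod.natCast_zmod_val r), hu, if_pos (ZMod.val_lt r)]
    · intro n hn
      split_ifs with h
      · rw [hu, if_neg]
        intro hlt
        apply hn
        rw [← h, ZMod.val_natCast_of_lt hlt]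
      · rfl
  have hsplit : ∀ r : ZMod q, (∑' n : ℕ, if (n : ZMod q) = r then c n else 0) =
      c r.val + ∑' n : ℕ, if (n : ZMod q) = r then v n else 0 := by
    intro r
    rw [← hA' r, ← (hus' r).tsum_add (hvs' r)]
    congr 1
    ext n
    split_ifs
    · exact huv n
    · ring
  obtain ⟨b, hb⟩ : ∃ b : ZMod q → ℝ, ∀ r, b r = ∑' n : ℕ, if (n : ZMod q) = r then v n else 0 :=
    ⟨_, fun _ => rfl⟩
  have hb0 : ∀ r, 0 ≤ b r := by
    intro r
    rw [hb]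
    refine tsum_nonneg fun n => ?_
    split_ifs
    · exact hv0 n
    · exact le_rfl
  have hbsum : ∑ r, b r ≤ D := by
    have h1 : ∑ r, b r = ∑' n, v n := by
      simp only [hb]
      rw [← Summable.tsum_finsetSum (fun r _ => hvs' r)]
      congr 1
      ext n
      simp
    rw [h1]
    exact (hvs.tsum_le_tsum hvd hd).trans hD
  have hD0 : 0 ≤ D := (Finset.sum_nonneg fun r _ => hb0 r).trans hbsum
  have hble : ∀ r, b r ≤ D := fun r =>
    (Finset.single_le_sum (fun r _ => hb0 r) (Finset.mem_univ r)).trans hbsum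
  have hsq : ∑ r, (b r) ^ 2 ≤ D ^ 2 := by
    calc ∑ r, (b r) ^ 2 ≤ ∑ r, D * b r := by
          refine Finset.sum_le_sum fun r _ => ?_
          rw [pow_two]
          exact mul_le_mul_of_nonneg_right (hble r) (hb0 r)
      _ = D * ∑ r, b r := by rw [Finset.mul_sum]
      _ ≤ D * D := mul_le_mul_of_nonneg_left hbsum hD0
      _ = D ^ 2 := by ring
  have hval : ∑ r : ZMod q, (c r.val) ^ 2 = ∑ n ∈ Finset.range q, (c n) ^ 2 := by
    refine Finset.sum_nbij' (fun r => r.val) (fun n => (n : ZMod q)) ?_ ?_ ?_ ?_ ?_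
    · intro r _
      exact Finset.mem_range.2 (ZMod.val_lt r)
    · intro n _
      exact Finset.mem_univ _
    · intro r _
      exact ZMod.natCast_zmod_val r
    · intro n hn
      exact ZMod.val_natCast_of_lt (Finset.mem_range.1 hn)
    · intro r _
      rfl
  calc ∑ r : ZMod q, (∑' n : ℕ, if (n : ZMod q) = r then c n else 0) ^ 2
      = ∑ r : ZMod q, (c r.val + b r) ^ 2 := by
        refine Finset.sum_congr rfl fun r _ => ?_
        rw [hsplit, hb]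
    _ ≤ ∑ r : ZMod q, (2 * (c r.val) ^ 2 + 2 * (b r) ^ 2) := by
        refine Finset.sum_le_sum fun r _ => ?_
        nlinarith [sq_nonneg (c r.val - b r)]
    _ = 2 * ∑ r : ZMod q, (c r.val) ^ 2 + 2 * ∑ r, (b r) ^ 2 := by
        rw [Finset.sum_add_distrib, Finset.mul_sum, Finset.mul_sum]
    _ ≤ 2 * A + 2 * D ^ 2 := by
        rw [hval]
        linarith

lemma sum_inv_le (q : ℕ) :
    ∑ n ∈ Finset.range q, ((n : ℝ) + 1)⁻¹ ≤ 1 + Real.log q := by
  have h := harmonic_le_one_add_log q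
  refine le_trans (le_of_eq ?_) h
  unfold harmonic
  push_cast
  rfl

end DNM

open DNM in
/-- Module DN. -/
theorem dn (h1 : StGP) (h2 : StES) (h3 : StOS) : StDN := by
  obtain ⟨-, hWa, -, hW, -, -, hWb⟩ := h1
  obtain ⟨C0, hC0, hb0⟩ := hWb 0 le_rfl
  obtain ⟨C4, hC4, hb4⟩ := hWb 4 (by norm_num)
  have hb0' : ∀ y, W y ≤ C0 := by
    intro y
    have h := hb0 y
    simpa using h
  have hs2 : Summable (fun n : ℕ => ((n : ℝ) ^ 2)⁻¹) :=
    (Real.summable_nat_pow_inv (p := 2)).2 (by norm_num)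
  have hd : Summable (fun n : ℕ => 3 * C4 * ((n : ℝ) ^ 2)⁻¹) := hs2.mul_left _
  obtain ⟨D, hD⟩ : ∃ D : ℝ, D = ∑' n : ℕ, 3 * C4 * ((n : ℝ) ^ 2)⁻¹ := ⟨_, rfl⟩
  refine ⟨8 * (41 * C0) ^ 2 + 2 * D ^ 2, by positivity, ?_⟩
  intro q _ hq y hy hyq hlog a ha hay haB
  obtain ⟨hs, -⟩ := h2 q hq
  have hs' : Summable (s q) := hs
  have hlogq : 1 ≤ Real.log q := by
    have h5 : (2 : ℝ) ^ 20 ≤ q := by
      have : 2 ^ 20 ≤ q := (Nat.pow_le_pow_left hy 20).trans hyq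
      exact_mod_cast this
    have h6 : Real.log ((2 : ℝ) ^ 20) ≤ Real.log q := Real.log_le_log (by positivity) h5
    rw [Real.log_pow] at h6
    have := Real.log_two_gt_d9
    push_cast at h6
    linarith
  have hq1 : (1 : ℝ) ≤ q := by exact_mod_cast hq.one_lt.le
  have hA : ∑ n ∈ Finset.range q, (c q y a n) ^ 2 ≤ 2 * (41 * C0) ^ 2 * (1 + Real.log q) := by
    calc ∑ n ∈ Finset.range q, (c q y a n) ^ 2
        ≤ ∑ n ∈ Finset.range q, 2 * (41 * C0) ^ 2 * ((n : ℝ) + 1)⁻¹ := by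
          refine Finset.sum_le_sum fun n hn => ?_
          exact c_sq_le_small hWa hW hC0 hb0' hy hlog ha (Finset.mem_range.1 hn) (haB n)
      _ = 2 * (41 * C0) ^ 2 * ∑ n ∈ Finset.range q, ((n : ℝ) + 1)⁻¹ := by rw [Finset.mul_sum]
      _ ≤ 2 * (41 * C0) ^ 2 * (1 + Real.log q) :=
          mul_le_mul_of_nonneg_left (sum_inv_le q) (by positivity)
  have hcl := class_sum (q := q) (c_nonneg hW q y ha) (c_summable hs' y a) hA hd
    (fun n => by positivity)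
    (fun n hn => c_le_large hWa hW hC4 hb4 hy hyq ha hn (haB n (hq.one_lt.le.trans hn))) hD.ge
  have hos := h3 q hq (c q y a) (c_nonneg hW q y ha) (c_summable hs' y a)
  calc ∑ χ ∈ oddChars q, ‖S χ‖ ^ 2 * ‖T y a χ‖ ^ 2
      = ∑ χ ∈ oddChars q, ‖∑' n : ℕ, χ (n : ZMod q) * ((c q y a n : ℝ) : ℂ)‖ ^ 2 := by
        refine Finset.sum_congr rfl fun χ _ => ?_
        rw [← prod_eq hW hs' χ y a, norm_mul, mul_pow]
    _ ≤ ((q : ℝ) - 1) *
        ∑ r : ZMod q, (∑' n : ℕ, if (n : ZMod q) = r then c q y a n else 0) ^ 2 := hos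
    _ ≤ ((q : ℝ) - 1) * (2 * (2 * (41 * C0) ^ 2 * (1 + Real.log q)) + 2 * D ^ 2) :=
        mul_le_mul_of_nonneg_left hcl (by linarith)
    _ ≤ ((q : ℝ) - 1) * ((8 * (41 * C0) ^ 2 + 2 * D ^ 2) * Real.log q) := by
        refine mul_le_mul_of_nonneg_left ?_ (by linarith)
        have p1 : 0 ≤ (41 * C0) ^ 2 := by positivity
        have p2 : 0 ≤ D ^ 2 := by positivity
        nlinarith
    _ = (8 * (41 * C0) ^ 2 + 2 * D ^ 2) * ((q : ℝ) - 1) * Real.log q := by ring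

end Pool.Agent.Lib.MP_50d0fc_nt.LB
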