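import Pool.Agent.Lib.MP_50d0fc_nt.LB.Spec

/-! # MP_50d0fc LB: the integral of `Φ` over the positive half line (helper94) -/

set_option autoImplicit false

open Complex DirichletCharacter MeasureTheory ComplexConjugate

namespace Pool.Agent.Lib.MP_50d0fc_nt.LB

namespace ESM

theorem integrable_g (h1 : StGA) : Integrable g := by
  have h := h1.1 0 le_rfl
  simpa using h

theorem shift (c : ℝ) : ∫ v in Set.Ioi (0 : ℝ), g (v + c) = W c := by
  unfold W
  rw [← integral_indicator measurableSet_Ioi, ← integral_indicator measurableSet_Ioi,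
    ← integral_add_right_eq_self (fun w => (Set.Ioi c).indicator g w) c]
  congr 1
  funext v
  by_cases hv : 0 < v
  · rw [Set.indicator_of_mem (show v ∈ Set.Ioi (0 : ℝ) from hv),
      Set.indicator_of_mem (show v + c ∈ Set.Ioi c by simpa using hv)]
  · rw [Set.indicator_of_notMem (show v ∉ Set.Ioi (0 : ℝ) from hv),
      Set.indicator_of_notMem (show v + c ∉ Set.Ioi c by simpa using hv)]

theorem coeff_summable (h2 : StGP) (q : ℕ) (hq : 0 < q) :
    Summable (fun n : ℕ => (n : ℝ) ^ (-(1 / 2) : ℝ) * W (2 * Real.log n - Real.log q)) := by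
  obtain ⟨-, -, -, hW0, -, -, hW⟩ := h2
  obtain ⟨C, hC, hb⟩ := hW 1 (by norm_num)
  have hq' : (0 : ℝ) < q := by exact_mod_cast hq
  have hs : Summable (fun n : ℕ => ((n : ℝ) ^ 2)⁻¹) :=
    (Real.summable_nat_pow_inv (p := 2)).2 (by norm_num)
  refine Summable.of_nonneg_of_le (fun n => ?_) (fun n => ?_) (hs.mul_left (C * q))
  · exact mul_nonneg (Real.rpow_nonneg (Nat.cast_nonneg n) _) (hW0 _)
  · rcases Nat.eq_zero_or_pos n with rfl | hn
    · rw [Nat.cast_zero, Real.zero_rpow (by norm_num), zero_mul]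
      positivity
    · have hn1 : (1 : ℝ) ≤ n := by exact_mod_cast hn
      have hn0 : (0 : ℝ) < n := by linarith
      have e1 : (n : ℝ) ^ (-(1 / 2) : ℝ) ≤ 1 :=
        Real.rpow_le_one_of_one_le_of_nonpos hn1 (by norm_num)
      have e2 : W (2 * Real.log n - Real.log q) ≤ C * q * ((n : ℝ) ^ 2)⁻¹ := by
        refine (hb _).trans (le_of_eq ?_)
        rw [show -(1 * (2 * Real.log n - Real.log q)) = Real.log q - 2 * Real.log n by ring,
          Real.exp_sub, Real.exp_log hq',
          show (2 : ℝ) * Real.log n = Real.log ((n : ℝ) ^ 2) by rw [Real.log_pow]; norm_num,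
          Real.exp_log (by positivity), div_eq_mul_inv, mul_assoc]
      calc (n : ℝ) ^ (-(1 / 2) : ℝ) * W (2 * Real.log n - Real.log q)
          ≤ 1 * (C * q * ((n : ℝ) ^ 2)⁻¹) :=
            mul_le_mul e1 e2 (hW0 _) (by norm_num)
        _ = C * q * ((n : ℝ) ^ 2)⁻¹ := one_mul _

end ESM

open ESM in
/-- Module ES. -/
theorem es (h1 : StGA) (h2 : StGP) : StES := by
  intro q _ hq
  have hq0 : 0 < q := hq.pos
  have hs := coeff_summable h2 q hq0
  refine ⟨hs, fun χ _ => ?_⟩
  have hg := integrable_g h1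
  have gpos : ∀ w, 0 ≤ g w := fun w => (Real.exp_pos _).le
  have hgi : ∀ n : ℕ, Integrable (fun v : ℝ => g (v + 2 * Real.log n - Real.log q))
      (volume.restrict (Set.Ioi (0 : ℝ))) := by
    intro n
    have h := (hg.comp_add_right (2 * Real.log n - Real.log q)).restrict (s := Set.Ioi (0 : ℝ))
    refine h.congr (Filter.Eventually.of_forall fun v => ?_)
    change g (v + (2 * Real.log n - Real.log q)) = _
    congr 1
    ring
  have hval : ∀ n : ℕ, ∫ v in Set.Ioi (0 : ℝ), g (v + 2 * Real.log n - Real.log q) =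
      W (2 * Real.log n - Real.log q) := by
    intro n
    rw [← shift]
    refine integral_congr_ae (Filter.Eventually.of_forall fun v => ?_)
    beta_reduce
    congr 1
    ring
  obtain ⟨F, hF⟩ : ∃ F : ℕ → ℝ → ℂ, F = fun (n : ℕ) (v : ℝ) => χ (n : ZMod q) *
    (((n : ℝ) ^ (-(1 / 2) : ℝ) * g (v + 2 * Real.log n - Real.log q) : ℝ) : ℂ) := ⟨_, rfl⟩
  have hFi : ∀ n, Integrable (F n) (volume.restrict (Set.Ioi (0 : ℝ))) := by
    intro n
    rw [hF]
    exact (((hgi n).const_mul ((n : ℝ) ^ (-(1 / 2) : ℝ))).ofReal).const_mul (χ (n : ZMod q))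
  have hFint : ∀ n, ∫ v in Set.Ioi (0 : ℝ), F n v = χ (n : ZMod q) *
      (((n : ℝ) ^ (-(1 / 2) : ℝ) * W (2 * Real.log n - Real.log q) : ℝ) : ℂ) := by
    intro n
    rw [hF]
    beta_reduce
    rw [integral_const_mul, integral_complex_ofReal, integral_const_mul, hval]
  have hnorm : Summable (fun n => ∫ v in Set.Ioi (0 : ℝ), ‖F n v‖) := by
    refine Summable.of_nonneg_of_le (fun n => integral_nonneg fun v => norm_nonneg _) (fun n => ?_)
      hs
    rw [← hval n, ← integral_const_mul]
    refine integral_mono_of_nonneg (Filter.Eventually.of_forall fun v => norm_nonneg _)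
      ((hgi n).const_mul _) (Filter.Eventually.of_forall fun v => ?_)
    rw [hF]
    beta_reduce
    rw [norm_mul, Complex.norm_real, Real.norm_of_nonneg
      (mul_nonneg (Real.rpow_nonneg (Nat.cast_nonneg n) _) (gpos _))]
    exact mul_le_of_le_one_left
      (mul_nonneg (Real.rpow_nonneg (Nat.cast_nonneg n) _) (gpos _)) (χ.norm_le_one _)
  have h := hasSum_integral_of_summable_integral_norm hFi hnorm
  have h' := h.tsum_eq
  unfold S
  simp only [hFint] at h'
  rw [h']
  refine integral_congr_ae (Filter.Eventually.of_forall fun v => ?_)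
  rw [hF]
  rfl

end Pool.Agent.Lib.MP_50d0fc_nt.LB
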