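import Pool.Agent.Lib.MP_50d0fc_nt.LB.GA

/-!
# Module EX: the expansion of the double integral (helper83)
-/

set_option autoImplicit false

open Complex DirichletCharacter MeasureTheory ComplexConjugate

namespace Pool.Agent.Lib.MP_50d0fc_nt.LB

namespace EXM

/-- the shift -/
noncomputable def c (q m : ℕ) : ℝ := 2 * Real.log m - Real.log q

/-- the coefficient -/
noncomputable def a (q m : ℕ) (v : ℝ) : ℝ :=
  (m : ℝ) ^ (-(1 / 2) : ℝ) * g (v + 2 * Real.log m - Real.log q)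

lemma a_eq (q m : ℕ) (v : ℝ) : a q m v = (m : ℝ) ^ (-(1 / 2) : ℝ) * g (v + c q m) := by
  unfold a c
  congr 2
  ring

lemma a_nonneg (q m : ℕ) (v : ℝ) : 0 ≤ a q m v :=
  mul_nonneg (Real.rpow_nonneg (Nat.cast_nonneg m) _) (g_pos _).le

lemma a_zero (q : ℕ) (v : ℝ) : a q 0 v = 0 := by
  unfold a
  rw [Nat.cast_zero, Real.zero_rpow (by norm_num), zero_mul]

lemma continuous_a (q m : ℕ) : Continuous (a q m) := by
  unfold a
  exact continuous_const.mul (continuous_g.comp (by fun_prop))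

/-- the weight times the coefficient -/
noncomputable def Hf (q m : ℕ) (v : ℝ) : ℝ := (1 + |v|) * (Real.exp v * a q m v)

lemma Hf_nonneg (q m : ℕ) (v : ℝ) : 0 ≤ Hf q m v :=
  mul_nonneg (by positivity) (mul_nonneg (Real.exp_pos _).le (a_nonneg q m v))

lemma continuous_Hf (q m : ℕ) : Continuous (Hf q m) := by
  unfold Hf
  exact (by fun_prop : Continuous fun v : ℝ => 1 + |v|).mul
    (Real.continuous_exp.mul (continuous_a q m))

/-- the pointwise bound -/
lemma exists_bound (q : ℕ) (hq : 0 < q) : ∃ D : ℝ, 0 < D ∧ ∀ (m : ℕ) (v : ℝ),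
    Hf q m v ≤ D * ((m : ℝ) ^ 2)⁻¹ * Real.exp (-(|v + c q m| / 2)) := by
  obtain ⟨C, hC, hb⟩ := g_bound 1 zero_le_one
  have hq' : (0 : ℝ) < q := by exact_mod_cast hq
  have hq1 : (1 : ℝ) ≤ q := by exact_mod_cast hq
  have hlq : 0 ≤ Real.log q := Real.log_nonneg hq1
  refine ⟨C * q * (5 + Real.log q), by positivity, fun m v => ?_⟩
  rcases Nat.eq_zero_or_pos m with rfl | hm
  · unfold Hf
    rw [a_zero]
    simp
  have hm1 : (1 : ℝ) ≤ m := by exact_mod_cast hm
  have hm0 : (0 : ℝ) < m := by linarith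
  have hlm : 0 ≤ Real.log m := Real.log_nonneg hm1
  set w := v + c q m with hw
  -- the weight
  have h1 : 1 + |v| ≤ (1 + |w|) * (1 + |c q m|) := by
    have h2 : |v| ≤ |w| + |c q m| := by
      have : v = w - c q m := by rw [hw]; ring
      rw [this]
      exact abs_sub _ _
    nlinarith [abs_nonneg w, abs_nonneg (c q m)]
  have h3 : Real.exp v * g w = Real.exp (-(c q m)) * (g w * Real.exp (1 * w)) := by
    have : v = -(c q m) + 1 * w := by rw [hw]; ring
    rw [this, Real.exp_add]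
    ring
  have h4 : Real.exp (-(c q m)) = q * ((m : ℝ) ^ 2)⁻¹ := by
    unfold c
    rw [show -(2 * Real.log m - Real.log q) = Real.log q - 2 * Real.log m by ring,
      Real.exp_sub, Real.exp_log hq',
      show (2 : ℝ) * Real.log m = Real.log ((m : ℝ) ^ 2) by rw [Real.log_pow]; norm_num,
      Real.exp_log (by positivity), div_eq_mul_inv]
  have h5 : (m : ℝ) ^ (-(1 / 2) : ℝ) * (1 + |c q m|) ≤ 5 + Real.log q := by
    have h6 : (m : ℝ) ^ (-(1 / 2) : ℝ) ≤ 1 :=
      Real.rpow_le_one_of_one_le_of_nonpos hm1 (by norm_num)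
    have h60 : 0 ≤ (m : ℝ) ^ (-(1 / 2) : ℝ) := Real.rpow_nonneg hm0.le _
    have h7 : |c q m| ≤ 2 * Real.log m + Real.log q := by
      unfold c
      rw [abs_le]
      constructor <;> linarith
    have h8 : (m : ℝ) ^ (-(1 / 2) : ℝ) * Real.log m ≤ 2 := by
      have h9 : Real.log m ≤ 2 * (m : ℝ) ^ ((1 / 2) : ℝ) := by
        have h10 : Real.log m = 2 * Real.log ((m : ℝ) ^ ((1 / 2) : ℝ)) := by
          rw [Real.log_rpow hm0]; ring
        rw [h10]
        have h11 := Real.log_le_sub_one_of_pos (Real.rpow_pos_of_pos hm0 (1 / 2 : ℝ))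
        linarith
      have h12 : (m : ℝ) ^ (-(1 / 2) : ℝ) * (m : ℝ) ^ ((1 / 2) : ℝ) = 1 := by
        rw [← Real.rpow_add hm0]; norm_num
      calc (m : ℝ) ^ (-(1 / 2) : ℝ) * Real.log m
          ≤ (m : ℝ) ^ (-(1 / 2) : ℝ) * (2 * (m : ℝ) ^ ((1 / 2) : ℝ)) :=
            mul_le_mul_of_nonneg_left h9 h60
        _ = 2 := by rw [mul_left_comm, h12, mul_one]
    calc (m : ℝ) ^ (-(1 / 2) : ℝ) * (1 + |c q m|)
        ≤ (m : ℝ) ^ (-(1 / 2) : ℝ) * (1 + (2 * Real.log m + Real.log q)) :=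
          mul_le_mul_of_nonneg_left (by linarith) h60
      _ = (m : ℝ) ^ (-(1 / 2) : ℝ) + 2 * ((m : ℝ) ^ (-(1 / 2) : ℝ) * Real.log m) +
          (m : ℝ) ^ (-(1 / 2) : ℝ) * Real.log q := by ring
      _ ≤ 1 + 2 * 2 + 1 * Real.log q := by
          have := mul_le_mul_of_nonneg_right h6 hlq
          linarith
      _ = 5 + Real.log q := by ring
  have hgb := hb w
  have h13 : 0 ≤ g w * Real.exp (1 * w) := (mul_pos (g_pos _) (Real.exp_pos _)).le
  have h14 : 0 ≤ (m : ℝ) ^ (-(1 / 2) : ℝ) := Real.rpow_nonneg hm0.le _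
  have h15 : 0 ≤ (q : ℝ) * ((m : ℝ) ^ 2)⁻¹ := by positivity
  calc Hf q m v = (1 + |v|) * ((m : ℝ) ^ (-(1 / 2) : ℝ) * (Real.exp v * g w)) := by
        unfold Hf
        rw [a_eq, ← hw]; ring
    _ = (1 + |v|) * ((m : ℝ) ^ (-(1 / 2) : ℝ) * (q * ((m : ℝ) ^ 2)⁻¹ *
        (g w * Real.exp (1 * w)))) := by rw [h3, h4]
    _ ≤ ((1 + |w|) * (1 + |c q m|)) * ((m : ℝ) ^ (-(1 / 2) : ℝ) * (q * ((m : ℝ) ^ 2)⁻¹ *
        (g w * Real.exp (1 * w)))) :=
        mul_le_mul_of_nonneg_right h1 (by positivity)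
    _ = ((m : ℝ) ^ (-(1 / 2) : ℝ) * (1 + |c q m|)) * (q * ((m : ℝ) ^ 2)⁻¹) *
        ((1 + |w|) * (g w * Real.exp (1 * w))) := by ring
    _ ≤ (5 + Real.log q) * (q * ((m : ℝ) ^ 2)⁻¹) * (C * Real.exp (-(|w| / 2))) := by
        refine mul_le_mul (mul_le_mul_of_nonneg_right h5 h15) hgb (by positivity) (by positivity)
    _ = C * q * (5 + Real.log q) * ((m : ℝ) ^ 2)⁻¹ * Real.exp (-(|w| / 2)) := by ring

lemma summable_sq : Summable (fun n : ℕ => ((n : ℝ) ^ 2)⁻¹) :=
  (Real.summable_nat_pow_inv (p := 2)).2 (by norm_num)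

lemma integrable_Hf (q m : ℕ) (hq : 0 < q) : Integrable (Hf q m) := by
  obtain ⟨D, hD, hb⟩ := exists_bound q hq
  refine ((integrable_exp_abs.comp_add_right (c q m)).const_mul (D * ((m : ℝ) ^ 2)⁻¹)).mono'
    (continuous_Hf q m).aestronglyMeasurable (Filter.Eventually.of_forall fun v => ?_)
  rw [Real.norm_of_nonneg (Hf_nonneg q m v)]
  exact hb m v

lemma summable_Hf (q : ℕ) (hq : 0 < q) : Summable (fun m : ℕ => ∫ v, Hf q m v) := by
  obtain ⟨D, hD, hb⟩ := exists_bound q hq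
  refine Summable.of_nonneg_of_le (fun m => integral_nonneg (Hf_nonneg q m)) (fun m => ?_)
    ((summable_sq.mul_left D).mul_right (∫ w : ℝ, Real.exp (-(|w| / 2))))
  rw [← integral_add_right_eq_self (fun w : ℝ => Real.exp (-(|w| / 2))) (c q m),
    ← integral_const_mul]
  exact integral_mono (integrable_Hf q m hq)
    ((integrable_exp_abs.comp_add_right (c q m)).const_mul _) (fun v => hb m v)

lemma a_le (q m : ℕ) (v : ℝ) : a q m v ≤ Real.exp (-v) * Hf q m v := by
  have h1 : Real.exp (-v) * Hf q m v = (1 + |v|) * a q m v := by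
    unfold Hf
    rw [show Real.exp (-v) * ((1 + |v|) * (Real.exp v * a q m v)) =
      (Real.exp (-v) * Real.exp v) * ((1 + |v|) * a q m v) by ring, ← Real.exp_add]
    simp
  rw [h1]
  nlinarith [abs_nonneg v, a_nonneg q m v]

lemma summable_a (q : ℕ) (hq : 0 < q) (v : ℝ) : Summable (fun m : ℕ => a q m v) := by
  obtain ⟨D, hD, hb⟩ := exists_bound q hq
  refine Summable.of_nonneg_of_le (fun m => a_nonneg q m v) (fun m => ?_)
    ((summable_sq.mul_left D).mul_left (Real.exp (-v)))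
  refine (a_le q m v).trans (mul_le_mul_of_nonneg_left ((hb m v).trans ?_) (Real.exp_pos _).le)
  have h1 : Real.exp (-(|v + c q m| / 2)) ≤ 1 := by
    rw [Real.exp_le_one_iff]
    have := abs_nonneg (v + c q m)
    linarith
  exact mul_le_of_le_one_right (by positivity) h1

lemma meas (y : ℝ) : MeasurableSet {p : ℝ × ℝ | y ≤ p.1 + p.2} :=
  measurableSet_le measurable_const (measurable_fst.add measurable_snd)

/-- the antisymmetric part vanishes -/
lemma antisymm (y : ℝ) :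
    ∫ z : ℝ × ℝ in {p : ℝ × ℝ | y ≤ p.1 + p.2}, (z.1 - z.2) * (g z.1 * g z.2) = 0 := by
  rw [← integral_indicator (meas y)]
  obtain ⟨h, hh⟩ : ∃ h : ℝ × ℝ → ℝ, h = {p : ℝ × ℝ | y ≤ p.1 + p.2}.indicator
      (fun z => (z.1 - z.2) * (g z.1 * g z.2)) := ⟨_, rfl⟩
  rw [← hh]
  have h1 : ∀ z, h z.swap = - h z := by
    intro z
    rw [hh]
    by_cases hz : y ≤ z.1 + z.2
    · rw [Set.indicator_of_mem (show z.swap ∈ {p : ℝ × ℝ | y ≤ p.1 + p.2} by
        show y ≤ z.2 + z.1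
        linarith), Set.indicator_of_mem (show z ∈ {p : ℝ × ℝ | y ≤ p.1 + p.2} from hz)]
      simp only [Prod.fst_swap, Prod.snd_swap]
      ring
    · rw [Set.indicator_of_notMem (show z.swap ∉ {p : ℝ × ℝ | y ≤ p.1 + p.2} by
        show ¬ y ≤ z.2 + z.1
        intro hc; exact hz (by linarith)),
        Set.indicator_of_notMem (show z ∉ {p : ℝ × ℝ | y ≤ p.1 + p.2} from hz), neg_zero]
  have h2 : ∫ z : ℝ × ℝ, h z.swap = ∫ z, h z := by
    rw [Measure.volume_eq_prod]
    exact integral_prod_swap h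
  simp only [h1, integral_neg] at h2
  linarith

lemma integrable_vg : Integrable (fun v : ℝ => v * g v) := by
  have h := ga.2 0 le_rfl
  refine h.mono' (continuous_id.mul continuous_g).aestronglyMeasurable
    (Filter.Eventually.of_forall fun v => ?_)
  rw [norm_mul, Real.norm_of_nonneg (g_pos v).le, Real.norm_eq_abs]
  simp

lemma integrable_diff : Integrable (fun z : ℝ × ℝ => (z.1 - z.2) * (g z.1 * g z.2)) := by
  have h1 := integrable_vg.mul_prod integrable_g
  have h2 := integrable_g.mul_prod integrable_vg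
  rw [← Measure.volume_eq_prod] at h1 h2
  refine (h1.sub h2).congr (Filter.Eventually.of_forall fun z => ?_)
  simp only [Pi.sub_apply]
  ring

lemma integrable_gg : Integrable (fun z : ℝ × ℝ => g z.1 * g z.2) := by
  have h1 := integrable_g.mul_prod integrable_g
  rw [← Measure.volume_eq_prod] at h1
  exact h1

/-- the value of one term -/
lemma value (q m n : ℕ) :
    ∫ p : ℝ × ℝ in {p : ℝ × ℝ | 0 ≤ p.1 + p.2}, (p.1 - p.2) * (a q m p.1 * a q n p.2) =
      2 * K q m n := by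
  have h0 : ∀ p : ℝ × ℝ, (p.1 - p.2) * (a q m p.1 * a q n p.2) =
      ((m : ℝ) ^ (-(1 / 2) : ℝ) * (n : ℝ) ^ (-(1 / 2) : ℝ)) *
        ((p.1 - p.2) * (g (p.1 + c q m) * g (p.2 + c q n))) := by
    intro p
    rw [a_eq, a_eq]; ring
  simp only [h0]
  rw [integral_const_mul]
  have h1 : ∫ p : ℝ × ℝ in {p : ℝ × ℝ | 0 ≤ p.1 + p.2},
      (p.1 - p.2) * (g (p.1 + c q m) * g (p.2 + c q n)) =
      ∫ z : ℝ × ℝ in {z : ℝ × ℝ | c q m + c q n ≤ z.1 + z.2},
        ((z.1 - z.2) * (g z.1 * g z.2) + (c q n - c q m) * (g z.1 * g z.2)) := by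
    rw [← integral_indicator (meas _), ← integral_indicator (meas _),
      ← integral_add_right_eq_self (fun z : ℝ × ℝ =>
        {z : ℝ × ℝ | c q m + c q n ≤ z.1 + z.2}.indicator
        (fun z => (z.1 - z.2) * (g z.1 * g z.2) + (c q n - c q m) * (g z.1 * g z.2)) z)
        ((c q m, c q n) : ℝ × ℝ)]
    congr 1
    funext p
    by_cases hp : 0 ≤ p.1 + p.2
    · rw [Set.indicator_of_mem (show p ∈ {p : ℝ × ℝ | 0 ≤ p.1 + p.2} from hp),
        Set.indicator_of_mem (show p + (c q m, c q n) ∈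
          {z : ℝ × ℝ | c q m + c q n ≤ z.1 + z.2} by
          show c q m + c q n ≤ (p.1 + c q m) + (p.2 + c q n)
          linarith)]
      simp only [Prod.fst_add, Prod.snd_add]
      ring
    · rw [Set.indicator_of_notMem (show p ∉ {p : ℝ × ℝ | 0 ≤ p.1 + p.2} from hp),
        Set.indicator_of_notMem (show p + (c q m, c q n) ∉
          {z : ℝ × ℝ | c q m + c q n ≤ z.1 + z.2} by
          show ¬ c q m + c q n ≤ (p.1 + c q m) + (p.2 + c q n)
          intro hc; exact hp (by linarith))]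
  rw [h1, integral_add integrable_diff.integrableOn (integrable_gg.const_mul _).integrableOn,
    antisymm, integral_const_mul, zero_add]
  have h2 : ∫ z : ℝ × ℝ in {z : ℝ × ℝ | c q m + c q n ≤ z.1 + z.2}, g z.1 * g z.2 =
      P (2 * Real.log m + 2 * Real.log n - 2 * Real.log q) := by
    unfold P
    have : c q m + c q n = 2 * Real.log m + 2 * Real.log n - 2 * Real.log q := by
      unfold c; ring
    rw [this]
  rw [h2]
  unfold K c
  ring

end EXM

open EXM in
/-- Module EX. -/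
theorem ex (_h1 : StGA) (_h2 : StGP) (_h3 : StKS) : StEX := by
  intro q _ hq χ _
  have hq0 : 0 < q := hq.pos
  have hPhi : ∀ v, Phi χ v = ∑' n : ℕ, χ (n : ZMod q) * ((a q n v : ℝ) : ℂ) := fun v => rfl
  obtain ⟨Fn, hFn⟩ : ∃ Fn : ℕ × ℕ → ℝ × ℝ → ℂ, Fn = fun i p =>
    χ (i.1 : ZMod q) * conj (χ (i.2 : ZMod q)) *
      (((p.1 - p.2) * (a q i.1 p.1 * a q i.2 p.2) : ℝ) : ℂ) := ⟨_, rfl⟩
  have hFn' : ∀ i p, Fn i p = χ (i.1 : ZMod q) * conj (χ (i.2 : ZMod q)) *
      (((p.1 - p.2) * (a q i.1 p.1 * a q i.2 p.2) : ℝ) : ℂ) := fun i p => by rw [hFn]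
  have hcont : ∀ i, Continuous (Fn i) := by
    intro i
    rw [hFn]
    refine continuous_const.mul (Complex.continuous_ofReal.comp ?_)
    exact (continuous_fst.sub continuous_snd).mul
      (((continuous_a q i.1).comp continuous_fst).mul ((continuous_a q i.2).comp continuous_snd))
  have hHint : ∀ i : ℕ × ℕ, Integrable (fun p : ℝ × ℝ => Hf q i.1 p.1 * Hf q i.2 p.2) := by
    intro i
    have h := (integrable_Hf q i.1 hq0).mul_prod (integrable_Hf q i.2 hq0)
    rw [← Measure.volume_eq_prod] at h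
    exact h
  have hbd : ∀ i, ∀ p : ℝ × ℝ, 0 ≤ p.1 + p.2 → ‖Fn i p‖ ≤ Hf q i.1 p.1 * Hf q i.2 p.2 := by
    intro i p hp
    rw [hFn' i p, norm_mul, norm_mul, Complex.norm_conj, Complex.norm_real, Real.norm_eq_abs,
      abs_mul, abs_of_nonneg (mul_nonneg (a_nonneg q i.1 p.1) (a_nonneg q i.2 p.2))]
    have h1 : ‖χ (i.1 : ZMod q)‖ * ‖χ (i.2 : ZMod q)‖ ≤ 1 :=
      mul_le_one₀ (χ.norm_le_one _) (norm_nonneg _) (χ.norm_le_one _)
    have h2 : |p.1 - p.2| ≤ (1 + |p.1|) * (1 + |p.2|) := by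
      have := abs_sub p.1 p.2
      nlinarith [abs_nonneg p.1, abs_nonneg p.2]
    have h3 : 1 ≤ Real.exp p.1 * Real.exp p.2 := by
      rw [← Real.exp_add]; exact Real.one_le_exp hp
    have h4 := a_nonneg q i.1 p.1
    have h5 := a_nonneg q i.2 p.2
    calc ‖χ (i.1 : ZMod q)‖ * ‖χ (i.2 : ZMod q)‖ * (|p.1 - p.2| * (a q i.1 p.1 * a q i.2 p.2))
        ≤ 1 * (|p.1 - p.2| * (a q i.1 p.1 * a q i.2 p.2)) :=
          mul_le_mul_of_nonneg_right h1 (by positivity)
      _ = |p.1 - p.2| * (1 * (a q i.1 p.1 * a q i.2 p.2)) := by ring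
      _ ≤ ((1 + |p.1|) * (1 + |p.2|)) * ((Real.exp p.1 * Real.exp p.2) *
          (a q i.1 p.1 * a q i.2 p.2)) := by
          refine mul_le_mul h2 (mul_le_mul_of_nonneg_right h3 (by positivity)) (by positivity)
            (by positivity)
      _ = Hf q i.1 p.1 * Hf q i.2 p.2 := by unfold Hf; ring
  have hint : ∀ i, Integrable (Fn i)
      (volume.restrict {p : ℝ × ℝ | 0 ≤ p.1 + p.2}) := by
    intro i
    refine (hHint i).integrableOn.mono' (hcont i).aestronglyMeasurable.restrict ?_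
    refine (ae_restrict_iff' (meas 0)).2 (Filter.Eventually.of_forall fun p hp => ?_)
    exact hbd i p hp
  have hsum : Summable (fun i => ∫ p : ℝ × ℝ in {p : ℝ × ℝ | 0 ≤ p.1 + p.2}, ‖Fn i p‖) := by
    have h1 : Summable (fun i : ℕ × ℕ => (∫ v, Hf q i.1 v) * ∫ v, Hf q i.2 v) :=
      (summable_Hf q hq0).mul_of_nonneg (summable_Hf q hq0)
        (fun m => integral_nonneg (Hf_nonneg q m)) (fun m => integral_nonneg (Hf_nonneg q m))
    refine Summable.of_nonneg_of_le (fun i => integral_nonneg fun p => norm_nonneg _)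
      (fun i => ?_) h1
    have h2 : (∫ v, Hf q i.1 v) * ∫ v, Hf q i.2 v =
        ∫ p : ℝ × ℝ, Hf q i.1 p.1 * Hf q i.2 p.2 := by
      rw [Measure.volume_eq_prod]
      exact (integral_prod_mul _ _).symm
    rw [h2]
    refine le_trans ?_ (setIntegral_le_integral (s := {p : ℝ × ℝ | 0 ≤ p.1 + p.2}) (hHint i)
      (Filter.Eventually.of_forall fun p => mul_nonneg (Hf_nonneg q _ _) (Hf_nonneg q _ _)))
    exact setIntegral_mono_on (hint i).norm (hHint i).integrableOn (meas 0)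
      (fun p hp => hbd i p hp)
  have hmain := (hasSum_integral_of_summable_integral_norm hint hsum).tsum_eq
  have hL : ∀ p : ℝ × ℝ, ((p.1 - p.2 : ℝ) : ℂ) * (Phi χ p.1 * conj (Phi χ p.2)) =
      ∑' i, Fn i p := by
    intro p
    have hs : ∀ v, Summable (fun m : ℕ => ‖χ (m : ZMod q) * ((a q m v : ℝ) : ℂ)‖) := by
      intro v
      refine Summable.of_nonneg_of_le (fun m => norm_nonneg _) (fun m => ?_)
        (summable_a q hq0 v)
      rw [norm_mul, Complex.norm_real, Real.norm_of_nonneg (a_nonneg q m v)]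
      exact mul_le_of_le_one_left (a_nonneg q m v) (χ.norm_le_one _)
    have hconj : conj (Phi χ p.2) =
        ∑' m : ℕ, conj (χ (m : ZMod q) * ((a q m p.2 : ℝ) : ℂ)) := by
      rw [hPhi, Complex.conj_tsum]
    have hs' : Summable (fun m : ℕ => ‖conj (χ (m : ZMod q) * ((a q m p.2 : ℝ) : ℂ))‖) := by
      simpa only [Complex.norm_conj] using hs p.2
    rw [hconj, hPhi p.1, tsum_mul_tsum_of_summable_norm (hs p.1) hs', ← tsum_mul_left]
    refine tsum_congr fun i => ?_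
    rw [hFn' i p, map_mul, Complex.conj_ofReal]
    push_cast
    ring
  rw [setIntegral_congr_fun (meas 0) (fun p _ => hL p), ← hmain]
  refine tsum_congr fun i => ?_
  simp only [hFn']
  rw [integral_const_mul, integral_complex_ofReal, value]

end Pool.Agent.Lib.MP_50d0fc_nt.LB
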