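import Pool.Agent.Lib.MP_50d0fc_nt.LB.Theta
import Pool.Agent.Lib.MP_50d0fc_nt.Identity

/-!
# The functional equation of `Φ_χ`
-/

set_option autoImplicit false

open Complex DirichletCharacter MeasureTheory ComplexConjugate

namespace Pool.Agent.Lib.MP_50d0fc_nt.LB

lemma odd_ne_one {q : ℕ} {χ : DirichletCharacter ℂ q} (hχ : χ.Odd) : χ ≠ 1 := by
  rintro rfl
  have h : (1 : DirichletCharacter ℂ q) (-1) = -1 := hχ
  rw [MulChar.one_apply (by simp)] at h
  norm_num at h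

lemma inv_odd {q : ℕ} [NeZero q] {χ : DirichletCharacter ℂ q} (hχ : χ.Odd) : (χ⁻¹).Odd := by
  have h : χ (-1) = -1 := hχ
  show χ⁻¹ (-1) = -1
  rw [inv_apply_conj, h]
  simp

lemma conj_theta {q : ℕ} [NeZero q] (χ : DirichletCharacter ℂ q) (t : ℝ) :
    conj (theta χ t) = theta χ⁻¹ t := by
  unfold theta
  rw [Complex.conj_tsum]
  congr 1
  ext n
  rw [map_mul, inv_apply_conj, conj_ofReal]

lemma star_gaussSum {q : ℕ} [NeZero q] (χ : DirichletCharacter ℂ q) :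
    conj (gaussSum χ (ZMod.stdAddChar (N := q))) = gaussSum χ⁻¹ (ZMod.stdAddChar (N := q))⁻¹ := by
  unfold gaussSum
  rw [map_sum]
  refine Finset.sum_congr rfl fun j _ => ?_
  rw [map_mul, inv_apply_conj, AddChar.inv_apply, AddChar.map_neg_eq_conj]

lemma norm_gaussSum {q : ℕ} [NeZero q] (hq : q.Prime) {χ : DirichletCharacter ℂ q} (hχ : χ ≠ 1) :
    ‖gaussSum χ (ZMod.stdAddChar (N := q))‖ = Real.sqrt q := by
  have : Fact q.Prime := ⟨hq⟩
  have hψ := ZMod.isPrimitive_stdAddChar q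
  have h2 := gaussSum_mul_gaussSum_eq_card hχ hψ
  rw [← star_gaussSum] at h2
  have h4 : ((‖gaussSum χ (ZMod.stdAddChar (N := q))‖ ^ 2 : ℝ) : ℂ) = (q : ℂ) := by
    have h5 := Complex.mul_conj' (gaussSum χ (ZMod.stdAddChar (N := q)))
    push_cast
    rw [← h5]
    rw [ZMod.card] at h2
    exact h2
  have h3 : ‖gaussSum χ (ZMod.stdAddChar (N := q))‖ ^ 2 = (q : ℝ) := by exact_mod_cast h4
  rw [← h3, Real.sqrt_sq (norm_nonneg _)]

/-- `∑ χ(j) sinKernel(j/q, x) = -2 i τ(χ) θ_{χ⁻¹}(q x)`. -/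
theorem sum_sinKernel {q : ℕ} [NeZero q] (hq : q.Prime) {χ : DirichletCharacter ℂ q}
    (hχ : χ.Odd) {x : ℝ} (hx : 0 < x) :
    ∑ j : ZMod q, χ j * (HurwitzZeta.sinKernel (ZMod.toAddCircle j) x : ℂ) =
      -I * gaussSum χ (ZMod.stdAddChar (N := q)) * (2 * theta χ⁻¹ (q * x)) := by
  have hq0 : (q : ℂ) ≠ 0 := by exact_mod_cast NeZero.ne q
  have hq1 : (q : ℝ) ≠ 0 := by exact_mod_cast NeZero.ne q
  have hprim := isPrimitive_of_prime hq (odd_ne_one hχ)
  have hinv := inv_odd hχ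
  -- the sum over ℤ
  have h1 : HasSum (fun n : ℤ => -I * gaussSum χ (ZMod.stdAddChar (N := q)) *
      (χ⁻¹ (n : ZMod q) * (((n : ℝ) * Real.exp (-Real.pi * (n : ℝ) ^ 2 * x) : ℝ) : ℂ)))
      (∑ j : ZMod q, χ j * (HurwitzZeta.sinKernel (ZMod.toAddCircle j) x : ℂ)) := by
    have h2 : ∀ j : ZMod q, HasSum (fun n : ℤ => χ j * (-I * n *
        cexp (2 * Real.pi * I * ((j.val : ℝ) / q : ℝ) * n) *
          Real.exp (-Real.pi * (n : ℝ) ^ 2 * x)))
        (χ j * (HurwitzZeta.sinKernel (ZMod.toAddCircle j) x : ℂ)) := by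
      intro j
      have h3 := (HurwitzZeta.hasSum_int_sinKernel ((j.val : ℝ) / q) hx).mul_left (χ j)
      rw [← ZMod.toAddCircle_apply] at h3
      exact h3
    have h4 := hasSum_sum (s := (Finset.univ : Finset (ZMod q))) fun j _ => h2 j
    refine h4.congr_fun fun n => ?_
    have h5 : gaussSum χ ((ZMod.stdAddChar (N := q)).mulShift (n : ZMod q)) =
        χ⁻¹ (n : ZMod q) * gaussSum χ (ZMod.stdAddChar (N := q)) :=
      gaussSum_mulShift_of_isPrimitive _ hprim _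
    have h6 : gaussSum χ ((ZMod.stdAddChar (N := q)).mulShift (n : ZMod q)) =
        ∑ j : ZMod q, χ j * cexp (2 * Real.pi * I * ((j.val : ℝ) / q : ℝ) * n) := by
      unfold gaussSum
      refine Finset.sum_congr rfl fun j _ => ?_
      congr 1
      rw [AddChar.mulShift_apply]
      have h7 : (n : ZMod q) * j = ((n * (j.val : ℤ) : ℤ) : ZMod q) := by
        push_cast
        simp
      rw [h7, ZMod.stdAddChar_coe]
      congr 1
      push_cast
      field_simp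
    have h8 : -I * gaussSum χ (ZMod.stdAddChar (N := q)) *
      (χ⁻¹ (n : ZMod q) * (((n : ℝ) * Real.exp (-Real.pi * (n : ℝ) ^ 2 * x) : ℝ) : ℂ)) =
      (χ⁻¹ (n : ZMod q) * gaussSum χ (ZMod.stdAddChar (N := q))) *
        (-I * n * Real.exp (-Real.pi * (n : ℝ) ^ 2 * x)) := by
      push_cast
      ring
    rw [h8, ← h5, h6, Finset.sum_mul]
    refine Finset.sum_congr rfl fun j _ => ?_
    ring
  -- the same sum over ℕ
  have h9 := hasSum_int_theta χ⁻¹ (x := q ^ 2 * x) (by positivity)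
  have h10 : ∀ n : ℝ, -Real.pi * n ^ 2 * ((q : ℝ) ^ 2 * x / q ^ 2) = -Real.pi * n ^ 2 * x := by
    intro n
    field_simp
  simp only [h10] at h9
  have h11 := sum_oddKernel hinv (x := q ^ 2 * x) (by positivity)
  rw [h11] at h9
  have h12 : (q : ℝ) ^ 2 * x / q = q * x := by
    field_simp
  rw [h12] at h9
  have h13 := h9.mul_left (-I * gaussSum χ (ZMod.stdAddChar (N := q)))
  rw [h1.unique h13]
  field_simp

/-- The functional equation of `θ_χ`. -/
theorem theta_feq {q : ℕ} [NeZero q] (hq : q.Prime) {χ : DirichletCharacter ℂ q}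
    (hχ : χ.Odd) {t : ℝ} (ht : 0 < t) :
    theta χ t⁻¹ = (-I * gaussSum χ (ZMod.stdAddChar (N := q)) / (Real.sqrt q : ℝ)) *
      ((t ^ (3 / 2 : ℝ) : ℝ) : ℂ) * theta χ⁻¹ t := by
  have hqpos : (0 : ℝ) < q := by exact_mod_cast hq.pos
  have hx : (0 : ℝ) < q / t := by positivity
  have h1 := sum_oddKernel hχ hx
  have h2 : ∀ j : ZMod q, (HurwitzZeta.oddKernel (ZMod.toAddCircle j) (q / t) : ℂ) =
      ((1 / (q / t) ^ (3 / 2 : ℝ) : ℝ) : ℂ) *
        (HurwitzZeta.sinKernel (ZMod.toAddCircle j) (t / q) : ℂ) := by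
    intro j
    rw [HurwitzZeta.oddKernel_functional_equation, one_div_div]
    push_cast
    ring
  simp only [h2] at h1
  have h3 : ∑ j : ZMod q, χ j * (((1 / (q / t) ^ (3 / 2 : ℝ) : ℝ) : ℂ) *
      (HurwitzZeta.sinKernel (ZMod.toAddCircle j) (t / q) : ℂ)) =
      ((1 / (q / t) ^ (3 / 2 : ℝ) : ℝ) : ℂ) *
        ∑ j : ZMod q, χ j * (HurwitzZeta.sinKernel (ZMod.toAddCircle j) (t / q) : ℂ) := by
    rw [Finset.mul_sum]
    refine Finset.sum_congr rfl fun j _ => ?_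
    ring
  rw [h3, sum_sinKernel hq hχ (by positivity : (0 : ℝ) < t / q)] at h1
  have h4 : (q : ℝ) / t / q = t⁻¹ := by
    field_simp
  have h5 : (q : ℝ) * (t / q) = t := by
    field_simp
  rw [h4, h5] at h1
  have h6 : (1 / (q / t) ^ (3 / 2 : ℝ) : ℝ) = t ^ (3 / 2 : ℝ) / (q * Real.sqrt q) := by
    rw [Real.div_rpow hqpos.le ht.le, one_div_div]
    congr 1
    rw [show (3 / 2 : ℝ) = 1 + 1 / 2 by norm_num, Real.rpow_add hqpos, Real.rpow_one,
      Real.sqrt_eq_rpow]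
  rw [h6] at h1
  have hq0 : (q : ℂ) ≠ 0 := by exact_mod_cast hqpos.ne'
  have hs0 : ((Real.sqrt q : ℝ) : ℂ) ≠ 0 := by
    exact_mod_cast (Real.sqrt_pos.mpr hqpos).ne'
  have h7 : theta χ t⁻¹ = (q : ℂ) / 2 * (2 / q * theta χ t⁻¹) := by
    field_simp
  rw [h7, ← h1]
  push_cast
  field_simp

/-- Module FE. -/
theorem fe : StFE := by
  intro q _ hq χ hχ
  have hqpos : (0 : ℝ) < q := by exact_mod_cast hq.pos
  refine ⟨-I * gaussSum χ (ZMod.stdAddChar (N := q)) / (Real.sqrt q : ℝ), ?_, fun v => ?_⟩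
  · rw [norm_div, norm_mul, norm_neg, norm_I, one_mul, norm_gaussSum hq (odd_ne_one hχ),
      Complex.norm_real, Real.norm_of_nonneg (Real.sqrt_nonneg _)]
    exact div_self (Real.sqrt_pos.mpr hqpos).ne'
  · rw [Phi_eq hq.pos, Phi_eq hq.pos, map_mul, conj_ofReal, conj_theta, Real.exp_neg,
      theta_feq hq hχ (Real.exp_pos v)]
    have h1 : (q : ℝ) ^ (-(3 / 4) : ℝ) * Real.exp (3 * -v / 4) * Real.exp v ^ (3 / 2 : ℝ) =
        (q : ℝ) ^ (-(3 / 4) : ℝ) * Real.exp (3 * v / 4) := by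
      rw [← Real.exp_mul, mul_assoc, ← Real.exp_add]
      congr 2
      ring
    have h2 := congrArg (fun r : ℝ => (r : ℂ)) h1
    simp only [ofReal_mul] at h2 ⊢
    linear_combination (-I * gaussSum χ (ZMod.stdAddChar (N := q)) / (Real.sqrt q : ℝ)) *
      theta χ⁻¹ (Real.exp v) * h2

end Pool.Agent.Lib.MP_50d0fc_nt.LB
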