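import Pool.Agent.Lib.MP_50d0fc_nt.LB.Spec

/-!
# The lower bound, from the statements of the modules
-/

set_option autoImplicit false

open Complex DirichletCharacter MeasureTheory ComplexConjugate

namespace Pool.Agent.Lib.MP_50d0fc_nt.LB

lemma exists_root (q : ℕ) : ∃ y : ℕ, y ^ 20 ≤ q ∧ q < (y + 1) ^ 20 := by
  have hex : ∃ y : ℕ, q < (y + 1) ^ 20 := by
    refine ⟨q, ?_⟩
    calc q < q + 1 := Nat.lt_succ_self q
      _ = (q + 1) ^ 1 := (pow_one _).symm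
      _ ≤ (q + 1) ^ 20 := Nat.pow_le_pow_right (Nat.succ_pos q) (by norm_num)
  classical
  refine ⟨Nat.find hex, ?_, Nat.find_spec hex⟩
  by_contra hlt
  push Not at hlt
  rcases Nat.eq_zero_or_pos (Nat.find hex) with h0 | h0
  · rw [h0] at hlt
    simp at hlt
  · have hk : Nat.find hex - 1 < Nat.find hex := by omega
    have := Nat.find_min hex hk
    apply this
    have h1 : Nat.find hex - 1 + 1 = Nat.find hex := by omega
    rw [h1]
    exact hlt

lemma log_le_mul {q y : ℕ} (hq : 0 < q) (k : ℕ) (h : q ≤ y ^ k) :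
    Real.log q ≤ k * Real.log y := by
  have hq0 : (0 : ℝ) < q := by exact_mod_cast hq
  have h1 : (q : ℝ) ≤ (y : ℝ) ^ k := by
    have h2 : (q : ℝ) ≤ ((y ^ k : ℕ) : ℝ) := Nat.cast_le.mpr h
    rwa [Nat.cast_pow] at h2
  have h3 := Real.log_le_log hq0 h1
  rwa [Real.log_pow] at h3

lemma log_le_forty {q y : ℕ} (hq : 0 < q) (hy : 2 ≤ y) (h : q < (y + 1) ^ 20) :
    Real.log q ≤ 40 * Real.log y := by
  have h2 : y + 1 ≤ y ^ 2 := by nlinarith
  have h1 : q ≤ y ^ (2 * 20) := by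
    rw [pow_mul]
    exact h.le.trans (Nat.pow_le_pow_left h2 20)
  have h3 := log_le_mul hq (2 * 20) h1
  norm_num at h3
  exact h3

lemma ge_of_pow {z q y : ℕ} (h1 : z ^ 20 ≤ q) (h2 : q < (y + 1) ^ 20) : z ≤ y := by
  by_contra hlt
  have hlt' : y + 1 ≤ z := by omega
  exact absurd (Nat.pow_le_pow_left hlt' 20) (not_le.mpr (lt_of_le_of_lt h1 h2))

lemma ne_two_of_pow {q y : ℕ} (hy : 2 ≤ y) (h1 : y ^ 20 ≤ q) : q ≠ 2 := by
  intro h
  have h2 : (2 : ℕ) ^ 20 ≤ y ^ 20 := Nat.pow_le_pow_left hy 20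
  have h3 : (2 : ℕ) ^ 20 ≤ 2 := h2.trans (h1.trans_eq h)
  norm_num at h3

lemma sq_le_four {a b : ℝ} (ha : 0 ≤ a) (h : a ≤ 2 * b) : a ^ 2 ≤ 4 * b ^ 2 := by
  nlinarith

lemma le_half (a : ℝ) : a ≤ (1 + a ^ 2) / 2 := by
  nlinarith [sq_nonneg (a - 1)]

/-- The coefficients `Λ(h)/log y` for `h ≤ y`. -/
noncomputable def av (y : ℕ) (h : ℕ) : ℝ :=
  if h ≤ y then ArithmeticFunction.vonMangoldt h / Real.log y else 0

/-- The coefficients `1` at `h = 1`. -/
noncomputable def a1 (h : ℕ) : ℝ := if h = 1 then 1 else 0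

lemma av_nonneg (y : ℕ) (h : ℕ) : 0 ≤ av y h := by
  unfold av
  split_ifs
  · exact div_nonneg ArithmeticFunction.vonMangoldt_nonneg (Real.log_natCast_nonneg y)
  · exact le_refl 0

lemma av_zero (y h : ℕ) (hh : y < h) : av y h = 0 := by
  unfold av
  rw [if_neg (by omega)]

lemma av_sum (y : ℕ) (n : ℕ) (_hn : 1 ≤ n) :
    ∑ h ∈ n.divisors, av y h ≤ 1 + Real.log n / Real.log y := by
  have h1 : ∑ h ∈ n.divisors, av y h ≤
      ∑ h ∈ n.divisors, ArithmeticFunction.vonMangoldt h / Real.log y := by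
    refine Finset.sum_le_sum fun h _ => ?_
    unfold av
    split_ifs
    · exact le_refl _
    · exact div_nonneg ArithmeticFunction.vonMangoldt_nonneg (Real.log_natCast_nonneg y)
  rw [← Finset.sum_div, ArithmeticFunction.vonMangoldt_sum] at h1
  linarith

lemma a1_nonneg (h : ℕ) : 0 ≤ a1 h := by
  unfold a1
  split_ifs <;> norm_num

lemma a1_zero (y h : ℕ) (hy : 1 ≤ y) (hh : y < h) : a1 h = 0 := by
  unfold a1
  rw [if_neg (by omega)]

lemma a1_sum (y : ℕ) (n : ℕ) (hn : 1 ≤ n) :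
    ∑ h ∈ n.divisors, a1 h ≤ 1 + Real.log n / Real.log y := by
  have h1 : ∑ h ∈ n.divisors, a1 h = 1 := by
    unfold a1
    rw [Finset.sum_ite_eq' n.divisors 1 (fun _ => (1 : ℝ))]
    rw [if_pos (Nat.one_mem_divisors.mpr (by omega))]
  rw [h1]
  have h2 : 0 ≤ Real.log n / Real.log y :=
    div_nonneg (Real.log_natCast_nonneg n) (Real.log_natCast_nonneg y)
  linarith

lemma T_a1 {q : ℕ} (y : ℕ) (hy : 1 ≤ y) (χ : DirichletCharacter ℂ q) : T y a1 χ = 1 := by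
  unfold T
  rw [Finset.sum_eq_single 1]
  · simp [a1]
  · intro h _ hh
    simp [a1, hh]
  · intro h
    exact absurd (Finset.mem_Icc.mpr ⟨le_refl 1, hy⟩) h

lemma av_le_one (y h : ℕ) (hh : 1 ≤ h) : av y h ≤ 1 := by
  unfold av
  split_ifs with hy
  · have h1 : ArithmeticFunction.vonMangoldt h ≤ Real.log h :=
      ArithmeticFunction.vonMangoldt_le_log
    have h2 : Real.log h ≤ Real.log y :=
      Real.log_le_log (by exact_mod_cast hh) (by exact_mod_cast hy)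
    exact div_le_one_of_le₀ (h1.trans h2) (Real.log_natCast_nonneg y)
  · norm_num

/-- The lower bound for the weighted sum of the `R(h)`. -/
lemma lower_sum {c C c' : ℝ} (hc : 0 < c) (hC : 0 < C) {q : ℕ}
    (hMT : ∀ h : ℕ, 1 ≤ h → h ^ 2 ≤ q →
      c * (h : ℝ) ^ (-(1 / 2) : ℝ) * Real.log h * Real.log q -
        C * (h : ℝ) ^ 3 * (q : ℝ) ^ (-(1 / 4) : ℝ) ≤ R q h)
    {y : ℕ} (hy : 2 ≤ y) (hyq : y ^ 20 ≤ q)
    (hVM : c' * Real.log y ^ 2 ≤
      ∑ h ∈ Finset.Icc 1 y, ArithmeticFunction.vonMangoldt h * Real.log h / h) :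
    c * c' * Real.log y * Real.log q - C ≤
      ∑ h ∈ Finset.Icc 1 y, av y h * (h : ℝ) ^ (-(1 / 2) : ℝ) * R q h := by
  have hy0 : (0 : ℝ) < y := by exact_mod_cast (by omega : 0 < y)
  have hy1 : (1 : ℝ) < y := by exact_mod_cast (by omega : 1 < y)
  have hly : 0 < Real.log y := Real.log_pos hy1
  have hq1 : (1 : ℝ) ≤ q := by
    have : 1 ≤ q := le_trans (Nat.one_le_pow _ _ (by omega)) hyq
    exact_mod_cast this
  have hlq : 0 ≤ Real.log q := Real.log_nonneg hq1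
  -- the error weight
  have hq4 : (q : ℝ) ^ (-(1 / 4) : ℝ) ≤ ((y : ℝ) ^ 5)⁻¹ := by
    have h1 : ((y : ℝ) ^ 20) ≤ q := by exact_mod_cast hyq
    have h2 : ((y : ℝ) ^ 20) ^ (1 / 4 : ℝ) ≤ (q : ℝ) ^ (1 / 4 : ℝ) :=
      Real.rpow_le_rpow (by positivity) h1 (by norm_num)
    have h3 : ((y : ℝ) ^ 20) ^ (1 / 4 : ℝ) = (y : ℝ) ^ 5 := by
      rw [← Real.rpow_natCast, ← Real.rpow_natCast, ← Real.rpow_mul hy0.le]
      norm_num
    rw [h3] at h2
    rw [Real.rpow_neg (by linarith)]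
    exact inv_anti₀ (by positivity) h2
  have hq40 : 0 ≤ (q : ℝ) ^ (-(1 / 4) : ℝ) := Real.rpow_nonneg (by linarith) _
  -- termwise
  have hterm : ∀ h ∈ Finset.Icc 1 y,
      c * Real.log q / Real.log y *
        (ArithmeticFunction.vonMangoldt h * Real.log h / h) - C * (((y : ℝ) ^ 2)⁻¹) ≤
      av y h * (h : ℝ) ^ (-(1 / 2) : ℝ) * R q h := by
    intro h hh
    rw [Finset.mem_Icc] at hh
    have hh0 : (0 : ℝ) < h := by exact_mod_cast (by omega : 0 < h)
    have hh1 : (1 : ℝ) ≤ h := by exact_mod_cast hh.1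
    have hhy : (h : ℝ) ≤ y := by exact_mod_cast hh.2
    have hsq : h ^ 2 ≤ q := by
      calc h ^ 2 ≤ y ^ 2 := Nat.pow_le_pow_left hh.2 2
        _ ≤ y ^ 20 := Nat.pow_le_pow_right (by omega) (by norm_num)
        _ ≤ q := hyq
    have h1 := hMT h hh.1 hsq
    have hw0 : 0 ≤ av y h * (h : ℝ) ^ (-(1 / 2) : ℝ) :=
      mul_nonneg (av_nonneg y h) (Real.rpow_nonneg hh0.le _)
    have h2 := mul_le_mul_of_nonneg_left h1 hw0
    refine le_trans ?_ h2
    have hav : av y h = ArithmeticFunction.vonMangoldt h / Real.log y := by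
      unfold av
      rw [if_pos hh.2]
    have hpp : (h : ℝ) ^ (-(1 / 2) : ℝ) * (h : ℝ) ^ (-(1 / 2) : ℝ) = (h : ℝ)⁻¹ := by
      rw [← Real.rpow_add hh0]
      norm_num
      rw [Real.rpow_neg_one]
    have hmain : av y h * (h : ℝ) ^ (-(1 / 2) : ℝ) *
        (c * (h : ℝ) ^ (-(1 / 2) : ℝ) * Real.log h * Real.log q) =
        c * Real.log q / Real.log y *
          (ArithmeticFunction.vonMangoldt h * Real.log h / h) := by
      rw [hav]
      have : ArithmeticFunction.vonMangoldt h / Real.log y * (h : ℝ) ^ (-(1 / 2) : ℝ) *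
          (c * (h : ℝ) ^ (-(1 / 2) : ℝ) * Real.log h * Real.log q) =
          ArithmeticFunction.vonMangoldt h / Real.log y *
            ((h : ℝ) ^ (-(1 / 2) : ℝ) * (h : ℝ) ^ (-(1 / 2) : ℝ)) *
            (c * Real.log h * Real.log q) := by ring
      rw [this, hpp]
      ring
    have herr : av y h * (h : ℝ) ^ (-(1 / 2) : ℝ) *
        (C * (h : ℝ) ^ 3 * (q : ℝ) ^ (-(1 / 4) : ℝ)) ≤ C * (((y : ℝ) ^ 2)⁻¹) := by
      have e1 : av y h ≤ 1 := av_le_one y h hh.1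
      have e2 : (h : ℝ) ^ (-(1 / 2) : ℝ) ≤ 1 :=
        Real.rpow_le_one_of_one_le_of_nonpos hh1 (by norm_num)
      have e3 : (h : ℝ) ^ 3 ≤ (y : ℝ) ^ 3 := pow_le_pow_left₀ hh0.le hhy 3
      calc av y h * (h : ℝ) ^ (-(1 / 2) : ℝ) *
            (C * (h : ℝ) ^ 3 * (q : ℝ) ^ (-(1 / 4) : ℝ))
          ≤ 1 * 1 * (C * (y : ℝ) ^ 3 * ((y : ℝ) ^ 5)⁻¹) := by
            have hav0 := av_nonneg y h
            gcongr
        _ = C * (((y : ℝ) ^ 2)⁻¹) := by
            field_simp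
    rw [mul_sub, hmain]
    linarith
  have hsum := Finset.sum_le_sum hterm
  rw [Finset.sum_sub_distrib, ← Finset.mul_sum] at hsum
  refine le_trans ?_ hsum
  have hcard : ∑ _h ∈ Finset.Icc 1 y, C * (((y : ℝ) ^ 2)⁻¹) ≤ C := by
    rw [Finset.sum_const, Nat.card_Icc, nsmul_eq_mul]
    have : ((y + 1 - 1 : ℕ) : ℝ) = y := by
      have : y + 1 - 1 = y := by omega
      rw [this]
    rw [this]
    have h1 : (y : ℝ) * (C * ((y : ℝ) ^ 2)⁻¹) = C * (y : ℝ)⁻¹ := by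
      field_simp
    rw [h1]
    have h2 : (y : ℝ)⁻¹ ≤ 1 := inv_le_one_of_one_le₀ hy1.le
    nlinarith
  have hmain2 : c * c' * Real.log y * Real.log q ≤ c * Real.log q / Real.log y *
      ∑ h ∈ Finset.Icc 1 y, ArithmeticFunction.vonMangoldt h * Real.log h / h := by
    have h1 : 0 ≤ c * Real.log q / Real.log y := by positivity
    have h2 := mul_le_mul_of_nonneg_left hVM h1
    refine le_trans (le_of_eq ?_) h2
    field_simp
  linarith

/-- The twisted sum as a real number. -/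
lemma twisted_sum {q : ℕ} [NeZero q] (y : ℕ)
    (hAH : ∀ h : ℕ, ∑ χ ∈ oddChars q, χ (h : ZMod q) * (X1 χ * conj (X χ)) =
      ((((q : ℝ) - 1) / 2 * R q h : ℝ) : ℂ)) (a : ℕ → ℝ) :
    ∑ χ ∈ oddChars q, T y a χ * (X1 χ * conj (X χ)) =
      ((((q : ℝ) - 1) / 2 * ∑ h ∈ Finset.Icc 1 y, a h * (h : ℝ) ^ (-(1 / 2) : ℝ) * R q h : ℝ)
        : ℂ) := by
  unfold T
  simp_rw [Finset.sum_mul]
  rw [Finset.sum_comm]
  have h1 : ∀ h ∈ Finset.Icc 1 y, ∑ χ ∈ oddChars q,
      ((a h * (h : ℝ) ^ (-(1 / 2) : ℝ) : ℝ) : ℂ) * χ (h : ZMod q) * (X1 χ * conj (X χ)) =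
      ((a h * (h : ℝ) ^ (-(1 / 2) : ℝ) * (((q : ℝ) - 1) / 2 * R q h) : ℝ) : ℂ) := by
    intro h _
    have h2 := hAH h
    rw [Complex.ofReal_mul (a h * (h : ℝ) ^ (-(1 / 2) : ℝ)), ← h2, Finset.mul_sum]
    refine Finset.sum_congr rfl fun χ _ => ?_
    ring
  rw [Finset.sum_congr rfl h1, ← Complex.ofReal_sum]
  congr 1
  rw [Finset.mul_sum]
  refine Finset.sum_congr rfl fun h _ => ?_
  ring

theorem fn (hIM : StIM) (hPF : StPF) (hML : StML) (hFE : StFE) (hES : StES) (hAH : StAH)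
    (hMT : StMT) (hVM : StVM) (hDN : StDN) : StFN := by
  obtain ⟨CI, hCI0, hIM⟩ := hIM
  obtain ⟨c, C, hc, hC, hMT⟩ := hMT
  obtain ⟨c', hc', y0, hVM⟩ := hVM
  obtain ⟨D, hD, hDN⟩ := hDN
  -- final constant
  obtain ⟨cf, hcf⟩ : ∃ cf : ℝ, cf = c * c' / (640 * D) := ⟨_, rfl⟩
  have hcf0 : 0 < cf := by rw [hcf]; positivity
  have htend : Filter.Tendsto (fun n : ℕ => Real.log n) Filter.atTop Filter.atTop :=
    Real.tendsto_log_atTop.comp tendsto_natCast_atTop_atTop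
  obtain ⟨Q1, hQ1⟩ := Filter.eventually_atTop.mp
    (htend.eventually_gt_atTop (max 1 ((8 * D * CI + C) * 80 / (c * c'))))
  refine ⟨cf, hcf0, max Q1 ((max y0 2) ^ 20), ?_⟩
  intro q _ hq hQ
  by_contra hcon
  push Not at hcon
  have hqQ1 : Q1 ≤ q := le_trans (le_max_left _ _) hQ
  have hqy : (max y0 2) ^ 20 ≤ q := le_trans (le_max_right _ _) hQ
  have hlog := hQ1 q hqQ1
  have hlog1 : 1 < Real.log q := lt_of_le_of_lt (le_max_left _ _) hlog
  have hlogB : (8 * D * CI + C) * 80 / (c * c') < Real.log q :=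
    lt_of_le_of_lt (le_max_right _ _) hlog
  obtain ⟨y, hy1, hy2⟩ := exists_root q
  have hyge : max y0 2 ≤ y := ge_of_pow hqy hy2
  have hy0 : y0 ≤ y := le_trans (le_max_left _ _) hyge
  have hy2' : 2 ≤ y := le_trans (le_max_right _ _) hyge
  have hyr : (1 : ℝ) < y := by exact_mod_cast (by omega : 1 < y)
  have hlogy : 0 < Real.log y := Real.log_pos hyr
  have hq0 : (0 : ℝ) < q := by exact_mod_cast hq.pos
  have hlogq : Real.log q ≤ 40 * Real.log y := log_le_forty hq.pos hy2' hy2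
  have hq2 : q ≠ 2 := ne_two_of_pow hy2' hy1
  have hq3 : (2 : ℝ) < q := by
    have h1 : 2 ≤ q := hq.two_le
    have h2 : 2 < q := lt_of_le_of_ne h1 (Ne.symm hq2)
    exact_mod_cast h2
  clear hqy hQ hy2
  -- lower bound
  have hlow := lower_sum hc hC (fun h h1 h2 => hMT q hq hq2 h h1 h2) hy2' hy1 (hVM y hy0)
  have htw := twisted_sum (q := q) y (fun h => hAH q hq hq2 h) (av y)
  have hB0 : 0 ≤ cf * Real.log q := mul_nonneg hcf0.le (by linarith)
  have hDNa := hDN q hq y hy2' hy1 hlogq a1 a1_nonneg (fun h hh => a1_zero y h (by omega) hh)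
      (fun n hn => a1_sum y n hn)
  have hDNv := hDN q hq y hy2' hy1 hlogq (av y) (av_nonneg y) (fun h hh => av_zero y h hh)
      (fun n hn => av_sum y n hn)
  clear hy1
  -- upper bound
  have hX : ∀ χ ∈ oddChars q, ‖X χ‖ ^ 2 ≤ 4 * ‖S χ‖ ^ 2 := by
    intro χ hχ
    have hodd := (mem_oddChars χ).mp hχ
    obtain ⟨hi1, hi2, -, -⟩ := hML q hq χ hodd
    obtain ⟨ε, hε, hfe⟩ := hFE q hq χ hodd
    obtain ⟨-, h2⟩ := hPF (Phi χ) ε hi1 hi2 hε hfe
    have h3 := (hES q hq).2 χ hodd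
    rw [h3] at h2
    have h4 : ‖X χ‖ ≤ 2 * ‖S χ‖ := h2
    exact sq_le_four (norm_nonneg _) h4
  have hterm : ∀ χ ∈ oddChars q, ‖T y (av y) χ * (X1 χ * conj (X χ))‖ ≤
      2 * (cf * Real.log q + CI) *
        (‖S χ‖ ^ 2 * ‖T y a1 χ‖ ^ 2 + ‖S χ‖ ^ 2 * ‖T y (av y) χ‖ ^ 2) := by
    intro χ hχ
    have hodd := (mem_oddChars χ).mp hχ
    have h1 := hIM q hq χ hodd (cf * Real.log q) hB0 (fun hL => (hcon χ hodd hL).le)
    have h2 := hX χ hχ
    rw [T_a1 y (by omega) χ, norm_one, one_pow, mul_one, norm_mul, norm_mul,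
      RCLike.norm_conj]
    have hT : ‖T y (av y) χ‖ ≤ (1 + ‖T y (av y) χ‖ ^ 2) / 2 := le_half _
    have hT0 : 0 ≤ ‖T y (av y) χ‖ := norm_nonneg _
    have hBC : 0 ≤ cf * Real.log q + CI := by linarith
    have hS0 : 0 ≤ ‖S χ‖ ^ 2 := by positivity
    calc ‖T y (av y) χ‖ * (‖X1 χ‖ * ‖X χ‖)
        ≤ (1 + ‖T y (av y) χ‖ ^ 2) / 2 * ((cf * Real.log q + CI) * (4 * ‖S χ‖ ^ 2)) := by
          apply mul_le_mul hT _ (by positivity) (by positivity)
          exact h1.trans (mul_le_mul_of_nonneg_left h2 hBC)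
      _ = 2 * (cf * Real.log q + CI) * (‖S χ‖ ^ 2 + ‖S χ‖ ^ 2 * ‖T y (av y) χ‖ ^ 2) := by
          ring
  have hup : ‖∑ χ ∈ oddChars q, T y (av y) χ * (X1 χ * conj (X χ))‖ ≤
      2 * (cf * Real.log q + CI) * (2 * (D * ((q : ℝ) - 1) * Real.log q)) := by
    refine (norm_sum_le _ _).trans ((Finset.sum_le_sum hterm).trans ?_)
    rw [← Finset.mul_sum, Finset.sum_add_distrib]
    apply mul_le_mul_of_nonneg_left _ (by positivity)
    linarith
  rw [htw, Complex.norm_real, Real.norm_eq_abs] at hup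
  have hlow2 : ((q : ℝ) - 1) / 2 * (c * c' * Real.log y * Real.log q - C) ≤
      2 * (cf * Real.log q + CI) * (2 * (D * ((q : ℝ) - 1) * Real.log q)) := by
    refine le_trans ?_ ((le_abs_self _).trans hup)
    exact mul_le_mul_of_nonneg_left hlow (by linarith)
  have hq1 : 0 < (q : ℝ) - 1 := by linarith
  -- divide by (q - 1) / 2
  have hdiv : c * c' * Real.log y * Real.log q - C ≤
      8 * (cf * Real.log q + CI) * D * Real.log q := by
    have h1 : ((q : ℝ) - 1) / 2 * (c * c' * Real.log y * Real.log q - C) ≤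
        ((q : ℝ) - 1) / 2 * (8 * (cf * Real.log q + CI) * D * Real.log q) := by
      refine hlow2.trans (le_of_eq ?_)
      ring
    exact le_of_mul_le_mul_left h1 (by linarith)
  have hl0 : 0 < Real.log q := by linarith
  have hcc : 0 < c * c' := by positivity
  -- c c' (log q)^2 / 40 - C ≤ c c' (log q)^2 / 80 + 8 D CI log q
  have h1 : c * c' / 40 * Real.log q * Real.log q ≤ c * c' * Real.log y * Real.log q := by
    have : c * c' / 40 * Real.log q ≤ c * c' * Real.log y := by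
      have h2 := mul_le_mul_of_nonneg_left hlogq hcc.le
      linarith
    exact mul_le_mul_of_nonneg_right this hl0.le
  have h2 : 8 * (cf * Real.log q + CI) * D * Real.log q =
      c * c' / 80 * Real.log q * Real.log q + 8 * D * CI * Real.log q := by
    rw [hcf]
    field_simp
    ring
  rw [h2] at hdiv
  have h3 : c * c' / 80 * Real.log q * Real.log q ≤ 8 * D * CI * Real.log q + C := by
    linarith
  have h4 : (8 * D * CI + C) * 80 < Real.log q * (c * c') := by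
    rw [div_lt_iff₀ hcc] at hlogB
    exact hlogB
  have h5 : 8 * D * CI * Real.log q + C ≤ (8 * D * CI + C) * Real.log q := by
    have : C ≤ C * Real.log q := by nlinarith
    linarith
  have h6 : (8 * D * CI + C) * Real.log q < c * c' / 80 * Real.log q * Real.log q := by
    have : 8 * D * CI + C < c * c' / 80 * Real.log q := by linarith
    exact mul_lt_mul_of_pos_right this hl0
  linarith

end Pool.Agent.Lib.MP_50d0fc_nt.LB
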