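import Pool.Agent.Lib.MP_50d0fc_nt.LB.GA

/-!
# Module GP: bounds for `P` and `W`
-/

set_option autoImplicit false

open MeasureTheory

namespace Pool.Agent.Lib.MP_50d0fc_nt.LB

namespace GPM

lemma integrable_gg : Integrable (fun p : ℝ × ℝ => g p.1 * g p.2) :=
  integrable_g.mul_prod integrable_g

lemma gg_nonneg (p : ℝ × ℝ) : 0 ≤ g p.1 * g p.2 := (mul_pos (g_pos _) (g_pos _)).le

lemma measurableSet_half (y : ℝ) : MeasurableSet {p : ℝ × ℝ | y ≤ p.1 + p.2} :=
  measurableSet_le measurable_const (measurable_fst.add measurable_snd)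

lemma antitone_P : Antitone P := by
  intro y z hyz
  unfold P
  refine setIntegral_mono_set integrable_gg.integrableOn
    (Filter.Eventually.of_forall fun p => gg_nonneg p) ?_
  refine Filter.Eventually.of_forall ?_
  intro p hp
  exact le_trans hyz hp

lemma antitone_W : Antitone W := by
  intro y z hyz
  unfold W
  refine setIntegral_mono_set integrable_g.integrableOn
    (Filter.Eventually.of_forall fun p => (g_pos p).le) ?_
  exact Filter.Eventually.of_forall fun p hp => Set.Ioi_subset_Ioi hyz hp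

lemma P_nonneg (y : ℝ) : 0 ≤ P y := integral_nonneg fun p => gg_nonneg p

lemma W_nonneg (y : ℝ) : 0 ≤ W y := integral_nonneg fun p => (g_pos p).le

lemma P_zero_pos : 0 < P 0 := by
  unfold P
  rw [setIntegral_pos_iff_support_of_nonneg_ae
    (Filter.Eventually.of_forall fun p => gg_nonneg p) integrable_gg.integrableOn]
  have hopen : IsOpen {p : ℝ × ℝ | 0 < p.1 + p.2} :=
    isOpen_lt continuous_const (continuous_fst.add continuous_snd)
  have hne : ({p : ℝ × ℝ | 0 < p.1 + p.2}).Nonempty := ⟨(1, 1), by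
    show (0 : ℝ) < 1 + 1
    norm_num⟩
  refine lt_of_lt_of_le (hopen.measure_pos volume hne) (measure_mono ?_)
  intro p hp
  have hp' : 0 < p.1 + p.2 := hp
  refine ⟨?_, hp'.le⟩
  rw [Function.mem_support]
  exact (mul_pos (g_pos _) (g_pos _)).ne'

lemma P_bound (h : StGA) (k : ℝ) (hk : 0 ≤ k) :
    ∃ C : ℝ, 0 < C ∧ ∀ y, P y ≤ C * Real.exp (-(k * y)) := by
  have h1 := h.1 k hk
  set I : ℝ := ∫ v : ℝ, g v * Real.exp (k * v) with hI
  have hF : Integrable (fun p : ℝ × ℝ =>
      (g p.1 * Real.exp (k * p.1)) * (g p.2 * Real.exp (k * p.2))) := h1.mul_prod h1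
  refine ⟨I * I + 1, by linarith [mul_self_nonneg I], fun y => ?_⟩
  have hF0 : ∀ p : ℝ × ℝ, 0 ≤ Real.exp (-(k * y)) *
      ((g p.1 * Real.exp (k * p.1)) * (g p.2 * Real.exp (k * p.2))) := fun p =>
    (mul_pos (Real.exp_pos _) (mul_pos (mul_pos (g_pos _) (Real.exp_pos _))
      (mul_pos (g_pos _) (Real.exp_pos _)))).le
  have h2 : P y ≤ ∫ p : ℝ × ℝ in {p : ℝ × ℝ | y ≤ p.1 + p.2}, Real.exp (-(k * y)) *
      ((g p.1 * Real.exp (k * p.1)) * (g p.2 * Real.exp (k * p.2))) := by
    unfold P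
    refine setIntegral_mono_on integrable_gg.integrableOn (hF.const_mul _).integrableOn
      (measurableSet_half y) ?_
    intro p hp
    have hp' : y ≤ p.1 + p.2 := hp
    have h3 : 1 ≤ Real.exp (k * (p.1 + p.2 - y)) := by
      apply Real.one_le_exp
      exact mul_nonneg hk (by linarith)
    have h4 : Real.exp (-(k * y)) *
        ((g p.1 * Real.exp (k * p.1)) * (g p.2 * Real.exp (k * p.2))) =
        (g p.1 * g p.2) * Real.exp (k * (p.1 + p.2 - y)) := by
      have h5 : Real.exp (k * (p.1 + p.2 - y)) =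
          Real.exp (-(k * y)) * (Real.exp (k * p.1) * Real.exp (k * p.2)) := by
        rw [← Real.exp_add, ← Real.exp_add]
        congr 1
        ring
      rw [h5]
      ring
    rw [h4]
    exact le_mul_of_one_le_right (gg_nonneg p) h3
  have h3 : ∫ p : ℝ × ℝ in {p : ℝ × ℝ | y ≤ p.1 + p.2}, Real.exp (-(k * y)) *
      ((g p.1 * Real.exp (k * p.1)) * (g p.2 * Real.exp (k * p.2))) ≤
      ∫ p : ℝ × ℝ, Real.exp (-(k * y)) *
      ((g p.1 * Real.exp (k * p.1)) * (g p.2 * Real.exp (k * p.2))) :=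
    setIntegral_le_integral (hF.const_mul _) (Filter.Eventually.of_forall hF0)
  have h4 : ∫ p : ℝ × ℝ, Real.exp (-(k * y)) *
      ((g p.1 * Real.exp (k * p.1)) * (g p.2 * Real.exp (k * p.2))) =
      Real.exp (-(k * y)) * (I * I) := by
    rw [integral_const_mul]
    congr 1
    exact integral_prod_mul (fun v : ℝ => g v * Real.exp (k * v))
      (fun v : ℝ => g v * Real.exp (k * v))
  have h5 : 0 < Real.exp (-(k * y)) := Real.exp_pos _
  calc P y ≤ Real.exp (-(k * y)) * (I * I) := by rw [← h4]; exact h2.trans h3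
    _ ≤ (I * I + 1) * Real.exp (-(k * y)) := by nlinarith

lemma W_bound (h : StGA) (k : ℝ) (hk : 0 ≤ k) :
    ∃ C : ℝ, 0 < C ∧ ∀ y, W y ≤ C * Real.exp (-(k * y)) := by
  have h1 := h.1 k hk
  set I : ℝ := ∫ v : ℝ, g v * Real.exp (k * v) with hI
  have hI0 : 0 ≤ I := integral_nonneg fun v => (mul_pos (g_pos v) (Real.exp_pos _)).le
  refine ⟨I + 1, by positivity, fun y => ?_⟩
  have h2 : W y ≤ ∫ w : ℝ in Set.Ioi y, Real.exp (-(k * y)) * (g w * Real.exp (k * w)) := by
    unfold W
    refine setIntegral_mono_on integrable_g.integrableOn (h1.const_mul _).integrableOn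
      measurableSet_Ioi ?_
    intro w hw
    have hw' : y < w := hw
    have h3 : 1 ≤ Real.exp (k * (w - y)) := by
      apply Real.one_le_exp
      exact mul_nonneg hk (by linarith)
    have h4 : Real.exp (-(k * y)) * (g w * Real.exp (k * w)) =
        g w * Real.exp (k * (w - y)) := by
      have h5 : Real.exp (k * (w - y)) = Real.exp (-(k * y)) * Real.exp (k * w) := by
        rw [← Real.exp_add]
        congr 1
        ring
      rw [h5]
      ring
    rw [h4]
    exact le_mul_of_one_le_right (g_pos w).le h3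
  have h3 : ∫ w : ℝ in Set.Ioi y, Real.exp (-(k * y)) * (g w * Real.exp (k * w)) ≤
      ∫ w : ℝ, Real.exp (-(k * y)) * (g w * Real.exp (k * w)) :=
    setIntegral_le_integral (h1.const_mul _) (Filter.Eventually.of_forall fun w =>
      (mul_pos (Real.exp_pos _) (mul_pos (g_pos w) (Real.exp_pos _))).le)
  have h4 : ∫ w : ℝ, Real.exp (-(k * y)) * (g w * Real.exp (k * w)) =
      Real.exp (-(k * y)) * I := by
    rw [integral_const_mul]
  have h5 : 0 < Real.exp (-(k * y)) := Real.exp_pos _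
  calc W y ≤ Real.exp (-(k * y)) * I := by rw [← h4]; exact h2.trans h3
    _ ≤ (I + 1) * Real.exp (-(k * y)) := by nlinarith

end GPM

theorem gp (h : StGA) : StGP :=
  ⟨GPM.antitone_P, GPM.antitone_W, GPM.P_nonneg, GPM.W_nonneg, GPM.P_zero_pos,
    fun k hk => GPM.P_bound h k hk, fun k hk => GPM.W_bound h k hk⟩

end Pool.Agent.Lib.MP_50d0fc_nt.LB
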