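import Pool.Agent.Lib.MP_50d0fc_nt.LB.Spec
import Pool.Agent.Lib.MP_50d0fc_nt.Identity

/-!
# Module IM: the second moment weight is controlled by the imaginary part
-/

set_option autoImplicit false

open Complex DirichletCharacter MeasureTheory ComplexConjugate

namespace Pool.Agent.Lib.MP_50d0fc_nt.LB

/-- An odd character is not principal. -/
theorem ne_one_of_odd {q : ℕ} [NeZero q] {χ : DirichletCharacter ℂ q} (h : χ.Odd) (hq : q.Prime) :
    χ ≠ 1 := by
  rintro rfl
  have h1 : (1 : DirichletCharacter ℂ q) (-1) = -1 := h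
  rw [MulChar.one_apply ((isUnit_one (M := ZMod q)).neg)] at h1
  norm_num at h1

theorem im (h : StML) : StIM := by
  refine ⟨‖logDeriv (fun s => Gammaℝ (s + 1)) (1 / 2)‖, norm_nonneg _, ?_⟩
  intro q _ hq χ hχ B hB hL
  obtain ⟨-, -, hX, hX1⟩ := h q hq χ hχ
  have hne := ne_one_of_odd hχ hq
  have hhalf : (0 : ℝ) < (1 / 2 : ℂ).re := by norm_num
  by_cases h0 : LFunction χ (1 / 2) = 0
  · have hX0 : X χ = 0 := by
      rw [hX, completed_eq_mul hq χ hhalf, h0, zero_mul]
    rw [hX0]
    simp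
  · have hB' := hL h0
    have hXne : X χ ≠ 0 := by
      rw [hX, completed_eq_mul hq χ hhalf]
      exact mul_ne_zero h0 (gammaFactor_ne_zero χ hhalf)
    have hγ : gammaFactor χ = fun s => Gammaℝ (s + 1) := funext fun s => hχ.gammaFactor_def s
    have h1 : X1 χ / X χ = LD χ + logDeriv (gammaFactor χ) (1 / 2) +
        ((Real.log q / 2 : ℝ) : ℂ) := by
      have h2 := logDeriv_completed_half hq hne h0
      rw [logDeriv_apply, logDeriv_apply (LFunction χ)] at h2
      have h3 : X1 χ / X χ = deriv (completedLFunction χ) (1 / 2) /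
          completedLFunction χ (1 / 2) + ((Real.log q / 2 : ℝ) : ℂ) := by
        rw [hX1, hX]
        rw [hX] at hXne
        rw [add_div, mul_div_assoc, div_self hXne, mul_one]
      rw [h3, h2, LD]
    have hre := re_logDeriv_LFunction_half hq hne h0
    have h4 : (X1 χ / X χ).re = 0 := by
      rw [h1, add_re, add_re, ofReal_re, LD, hre]
      ring
    have h5 : (X1 χ / X χ).im = (LD χ).im + (logDeriv (gammaFactor χ) (1 / 2)).im := by
      rw [h1, add_im, add_im, ofReal_im, add_zero]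
    have h6 : ‖X1 χ / X χ‖ ≤ B + ‖logDeriv (fun s => Gammaℝ (s + 1)) (1 / 2)‖ := by
      have h7 : ‖X1 χ / X χ‖ = |(X1 χ / X χ).im| := by
        have h8 : X1 χ / X χ = ((X1 χ / X χ).im : ℂ) * I := by
          apply Complex.ext
          · rw [h4]
            simp
          · simp
        conv_lhs => rw [h8]
        rw [norm_mul, norm_I, mul_one, norm_real, Real.norm_eq_abs]
      rw [h7, h5]
      refine (abs_add_le _ _).trans (add_le_add hB' ?_)
      rw [← hγ]
      exact abs_im_le_norm _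
    have h9 : ‖X1 χ‖ = ‖X1 χ / X χ‖ * ‖X χ‖ := by
      rw [norm_div, div_mul_cancel₀ _ (norm_ne_zero_iff.2 hXne)]
    rw [h9]
    calc ‖X1 χ / X χ‖ * ‖X χ‖ * ‖X χ‖ = ‖X1 χ / X χ‖ * ‖X χ‖ ^ 2 := by ring
      _ ≤ _ := mul_le_mul_of_nonneg_right h6 (by positivity)

end Pool.Agent.Lib.MP_50d0fc_nt.LB
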