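import Pool.Agent.Lib.MP_50d0fc_nt.LB.Spec

/-! # MP_50d0fc LB: `K` is summable (helper94) -/

set_option autoImplicit false

open Complex DirichletCharacter MeasureTheory ComplexConjugate

namespace Pool.Agent.Lib.MP_50d0fc_nt.LB

theorem abs_K_le (h : StGP) : ∃ C : ℝ, 0 < C ∧ ∀ q : ℕ, 0 < q → ∀ m n : ℕ,
    |K q m n| ≤ C * (q : ℝ) ^ 4 * (((m : ℝ) ^ 3)⁻¹ * ((n : ℝ) ^ 3)⁻¹) := by
  obtain ⟨-, -, hP0, -, -, hP, -⟩ := h
  obtain ⟨C, hC, hb⟩ := hP 2 (by norm_num)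
  refine ⟨C, hC, fun q hq m n => ?_⟩
  have hq' : (0 : ℝ) < q := by exact_mod_cast hq
  rcases Nat.eq_zero_or_pos m with rfl | hm
  · have : K q 0 n = 0 := by
      unfold K
      rw [Nat.cast_zero, Real.zero_rpow (by norm_num)]
      ring
    rw [this, abs_zero]
    positivity
  rcases Nat.eq_zero_or_pos n with rfl | hn
  · have : K q m 0 = 0 := by
      unfold K
      rw [Nat.cast_zero, Real.zero_rpow (by norm_num)]
      ring
    rw [this, abs_zero]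
    positivity
  have hm1 : (1 : ℝ) ≤ m := by exact_mod_cast hm
  have hn1 : (1 : ℝ) ≤ n := by exact_mod_cast hn
  have hm0 : (0 : ℝ) < m := by linarith
  have hn0 : (0 : ℝ) < n := by linarith
  have e1 : (m : ℝ) ^ (-(1 / 2) : ℝ) ≤ 1 := Real.rpow_le_one_of_one_le_of_nonpos hm1 (by norm_num)
  have e2 : (n : ℝ) ^ (-(1 / 2) : ℝ) ≤ 1 := Real.rpow_le_one_of_one_le_of_nonpos hn1 (by norm_num)
  have p1 : 0 ≤ (m : ℝ) ^ (-(1 / 2) : ℝ) := Real.rpow_nonneg hm0.le _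
  have p2 : 0 ≤ (n : ℝ) ^ (-(1 / 2) : ℝ) := Real.rpow_nonneg hn0.le _
  have l1 : 0 ≤ Real.log m := Real.log_nonneg hm1
  have l2 : 0 ≤ Real.log n := Real.log_nonneg hn1
  have l3 : Real.log m ≤ m := (Real.log_le_sub_one_of_pos hm0).trans (by linarith)
  have l4 : Real.log n ≤ n := (Real.log_le_sub_one_of_pos hn0).trans (by linarith)
  have e3 : |Real.log n - Real.log m| ≤ m * n := by
    rw [abs_le]
    constructor <;> nlinarith
  have e4 : |P (2 * Real.log m + 2 * Real.log n - 2 * Real.log q)| ≤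
      C * ((q : ℝ) ^ 4 * (((m : ℝ) ^ 4)⁻¹ * ((n : ℝ) ^ 4)⁻¹)) := by
    rw [abs_of_nonneg (hP0 _)]
    refine (hb _).trans (le_of_eq ?_)
    congr 1
    have h1 : ∀ x : ℝ, 0 < x → Real.exp (4 * Real.log x) = x ^ 4 := by
      intro x hx
      rw [show (4 : ℝ) * Real.log x = Real.log (x ^ 4) by rw [Real.log_pow]; norm_num,
        Real.exp_log (by positivity)]
    rw [show -(2 * (2 * Real.log m + 2 * Real.log n - 2 * Real.log q)) =
      4 * Real.log q - 4 * Real.log m - 4 * Real.log n by ring, Real.exp_sub, Real.exp_sub,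
      h1 _ hq', h1 _ hm0, h1 _ hn0]
    rw [div_div, div_eq_mul_inv, mul_inv]
  unfold K
  rw [abs_mul, abs_mul, abs_mul, abs_of_nonneg p1, abs_of_nonneg p2]
  calc (m : ℝ) ^ (-(1 / 2) : ℝ) * (n : ℝ) ^ (-(1 / 2) : ℝ) * |Real.log n - Real.log m| *
        |P (2 * Real.log m + 2 * Real.log n - 2 * Real.log q)|
      ≤ (1 * 1 * (m * n)) * (C * ((q : ℝ) ^ 4 * (((m : ℝ) ^ 4)⁻¹ * ((n : ℝ) ^ 4)⁻¹))) := by
        gcongr
    _ = C * (q : ℝ) ^ 4 * (((m : ℝ) ^ 3)⁻¹ * ((n : ℝ) ^ 3)⁻¹) := by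
        field_simp

/-- Module KS. -/
theorem ks (h : StGP) : StKS := by
  intro q hq
  obtain ⟨C, hC, hb⟩ := abs_K_le h
  have hs : Summable (fun n : ℕ => ((n : ℝ) ^ 3)⁻¹) := by
    have := (Real.summable_nat_pow_inv (p := 3)).2 (by norm_num)
    exact this
  have h2 : Summable (fun p : ℕ × ℕ => ((p.1 : ℝ) ^ 3)⁻¹ * ((p.2 : ℝ) ^ 3)⁻¹) :=
    hs.mul_of_nonneg hs (fun n => by positivity) (fun n => by positivity)
  exact Summable.of_nonneg_of_le (fun p => abs_nonneg _) (fun p => hb q hq p.1 p.2)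
    (h2.mul_left _)

end Pool.Agent.Lib.MP_50d0fc_nt.LB
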