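import Pool.Agent.Lib.MP_50d0fc_nt.LB.Spec

/-!
# ML: the Mellin transform of `Φ` is the completed `L`-function
-/

set_option autoImplicit false

open Complex DirichletCharacter MeasureTheory ComplexConjugate HurwitzZeta ZMod Set

namespace Pool.Agent.Lib.MP_50d0fc_nt.LB

namespace ML

/-- the theta function of an odd character -/
noncomputable def Th {q : ℕ} [NeZero q] (χ : DirichletCharacter ℂ q) (x : ℝ) : ℂ :=
  ∑ j : ZMod q, χ j * (oddKernel (toAddCircle j) x : ℂ)

/-- the terms of the theta function -/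
noncomputable def G {q : ℕ} (χ : DirichletCharacter ℂ q) (x : ℝ) (m : ℤ) : ℂ :=
  χ (m : ZMod q) * (((m : ℝ) / q * Real.exp (-Real.pi * ((m : ℝ) / q) ^ 2 * x) : ℝ) : ℂ)

theorem hasSum_part {q : ℕ} [NeZero q] (χ : DirichletCharacter ℂ q) {x : ℝ} (hx : 0 < x)
    (j : ZMod q) :
    HasSum (fun m : ℤ => if (m : ZMod q) = j then G χ x m else 0)
      (χ j * (oddKernel (toAddCircle j) x : ℂ)) := by
  have hq : (0 : ℝ) < q := by
    have := NeZero.pos q
    exact_mod_cast this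
  have hqz : (q : ℤ) ≠ 0 := by exact_mod_cast (NeZero.ne q)
  have h1 := hasSum_int_oddKernel (j.val / q : ℝ) hx
  rw [← toAddCircle_apply] at h1
  have h2 := (Complex.hasSum_ofReal.2 h1).mul_left (χ j)
  have hinj : Function.Injective (fun n : ℤ => n * (q : ℤ) + (j.val : ℤ)) := by
    intro a b hab
    have : a * (q : ℤ) = b * (q : ℤ) := by simpa using hab
    exact mul_right_cancel₀ hqz this
  refine (hinj.hasSum_iff ?_).1 ?_
  · intro m hm
    rw [if_neg]
    intro hmj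
    apply hm
    have h3 : ((m - (j.val : ℤ) : ℤ) : ZMod q) = 0 := by
      push_cast
      rw [hmj, natCast_zmod_val, sub_self]
    obtain ⟨n, hn⟩ := (ZMod.intCast_zmod_eq_zero_iff_dvd _ q).1 h3
    refine ⟨n, ?_⟩
    show n * (q : ℤ) + (j.val : ℤ) = m
    have : (q : ℤ) * n = n * q := mul_comm _ _
    omega
  · refine h2.congr_fun fun n => ?_
    have hcast : ((n * (q : ℤ) + (j.val : ℤ) : ℤ) : ZMod q) = j := by
      push_cast
      rw [ZMod.natCast_self, mul_zero, zero_add, natCast_zmod_val]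
    show (if ((n * (q : ℤ) + (j.val : ℤ) : ℤ) : ZMod q) = j then
      G χ x (n * (q : ℤ) + (j.val : ℤ)) else 0) = _
    rw [if_pos hcast]
    unfold G
    rw [hcast]
    have h4 : (((n * (q : ℤ) + (j.val : ℤ) : ℤ) : ℝ)) / q = (n : ℝ) + (j.val : ℝ) / q := by
      push_cast
      field_simp
    rw [h4]

theorem hasSum_int {q : ℕ} [NeZero q] (χ : DirichletCharacter ℂ q) {x : ℝ} (hx : 0 < x) :
    HasSum (G χ x) (Th χ x) := by
  have h := hasSum_sum (s := Finset.univ) fun (j : ZMod q) _ => hasSum_part χ hx j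
  refine h.congr_fun fun m => ?_
  simp

theorem hasSum_nat {q : ℕ} [NeZero q] (χ : DirichletCharacter ℂ q) (hχ : χ.Odd)
    {x : ℝ} (hx : 0 < x) :
    HasSum (fun n : ℕ => 2 * G χ x n) (Th χ x) := by
  have h := (hasSum_int χ hx).nat_add_neg
  have h0 : G χ x 0 = 0 := by
    unfold G
    simp
  rw [h0, add_zero] at h
  refine h.congr_fun fun n => ?_
  have h1 : G χ x (-(n : ℤ)) = G χ x n := by
    unfold G
    push_cast
    rw [hχ.eval_neg]
    have : (-(n : ℂ) / q) ^ 2 = ((n : ℂ) / q) ^ 2 := by ring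
    rw [this]
    ring
  rw [h1]
  ring

theorem term_eq {q : ℕ} (hq : 0 < q) (v : ℝ) {n : ℕ} (hn : 0 < n) :
    (n : ℝ) ^ (-(1 / 2) : ℝ) * g (v + 2 * Real.log n - Real.log q) =
      (q : ℝ) ^ (-(1 / 2) : ℝ) * ((q : ℝ) * Real.exp v) ^ (3 / 4 : ℝ) *
        ((n : ℝ) / q * Real.exp (-Real.pi * ((n : ℝ) / q) ^ 2 * ((q : ℝ) * Real.exp v))) := by
  have hq' : (0 : ℝ) < q := by exact_mod_cast hq
  have hn' : (0 : ℝ) < n := by exact_mod_cast hn
  have hqv : (0 : ℝ) < (q : ℝ) * Real.exp v := by positivity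
  have h1 : Real.exp (v + 2 * Real.log n - Real.log q) = ((n : ℝ) / q) ^ 2 * (q * Real.exp v) := by
    rw [Real.exp_sub, Real.exp_add, Real.exp_log hq', mul_comm 2, Real.exp_mul, Real.exp_log hn']
    norm_num
    field_simp
  have h2 : (n : ℝ) / q = Real.exp (Real.log n - Real.log q) := by
    rw [Real.exp_sub, Real.exp_log hq', Real.exp_log hn']
  unfold g
  rw [h1]
  set E := ((n : ℝ) / q) ^ 2 * (q * Real.exp v) with hE
  have h3 : -Real.pi * ((n : ℝ) / q) ^ 2 * ((q : ℝ) * Real.exp v) = -(Real.pi * E) := by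
    rw [hE]; ring
  rw [h3, Real.rpow_def_of_pos hn', Real.rpow_def_of_pos hq', Real.rpow_def_of_pos hqv,
    Real.log_mul hq'.ne' (Real.exp_pos v).ne', Real.log_exp, h2, ← Real.exp_add, ← Real.exp_add,
    ← Real.exp_add, ← Real.exp_add]
  congr 1
  ring

theorem Phi_eq {q : ℕ} [NeZero q] (hq : q.Prime) (χ : DirichletCharacter ℂ q) (hχ : χ.Odd)
    (v : ℝ) :
    Phi χ v = (((q : ℝ) ^ (-(1 / 2) : ℝ) / 2 * ((q : ℝ) * Real.exp v) ^ (3 / 4 : ℝ) : ℝ) : ℂ) *
      Th χ (q * Real.exp v) := by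
  have hq' : (0 : ℝ) < q := by exact_mod_cast hq.pos
  have hqv : (0 : ℝ) < (q : ℝ) * Real.exp v := by positivity
  have h := (hasSum_nat χ hχ hqv).mul_left
    ((((q : ℝ) ^ (-(1 / 2) : ℝ) / 2 * ((q : ℝ) * Real.exp v) ^ (3 / 4 : ℝ) : ℝ) : ℂ))
  rw [← h.tsum_eq]
  unfold Phi
  congr 1
  ext n
  rcases Nat.eq_zero_or_pos n with h0 | h0
  · subst h0
    have : χ ((0 : ℕ) : ZMod q) = 0 := by
      rw [Nat.cast_zero]
      have : Fact q.Prime := ⟨hq⟩
      exact χ.map_zero
    unfold G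
    rw [this]
    simp
  · rw [term_eq hq.pos v h0]
    unfold G
    push_cast
    ring

/-! ### The Mellin transform of the theta function -/

theorem Th_int {q : ℕ} [NeZero q] (χ : DirichletCharacter ℂ q) :
    LocallyIntegrableOn (Th χ) (Ioi 0) := by
  apply ContinuousOn.locallyIntegrableOn _ measurableSet_Ioi
  unfold Th
  apply continuousOn_finsetSum
  intro j _
  exact continuousOn_const.mul (continuous_ofReal.comp_continuousOn (continuousOn_oddKernel _))

theorem Th_top {q : ℕ} [NeZero q] (χ : DirichletCharacter ℂ q) (r : ℝ) :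
    Th χ =O[Filter.atTop] (fun x : ℝ => x ^ r) := by
  unfold Th
  apply Asymptotics.IsBigO.fun_sum
  intro j _
  exact ((isStrong_hurwitzOddFEPair (toAddCircle j)).hf_top r).const_mul_left _

theorem Th_zero {q : ℕ} [NeZero q] (χ : DirichletCharacter ℂ q) (r : ℝ) :
    Th χ =O[nhdsWithin 0 (Ioi 0)] (fun x : ℝ => x ^ r) := by
  unfold Th
  apply Asymptotics.IsBigO.fun_sum
  intro j _
  exact ((isStrong_hurwitzOddFEPair (toAddCircle j)).hf_zero r).const_mul_left _

theorem Th_conv {q : ℕ} [NeZero q] (χ : DirichletCharacter ℂ q) (s : ℂ) :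
    MellinConvergent (Th χ) s :=
  mellinConvergent_of_isBigO_rpow (a := s.re + 1) (b := s.re - 1) (Th_int χ) (Th_top χ _)
    (by linarith) (Th_zero χ _) (by linarith)

theorem Th_deriv {q : ℕ} [NeZero q] (χ : DirichletCharacter ℂ q) (s : ℂ) :
    MellinConvergent (fun t => Real.log t • Th χ t) s ∧
      HasDerivAt (mellin (Th χ)) (mellin (fun t => Real.log t • Th χ t) s) s :=
  mellin_hasDerivAt_of_isBigO_rpow (a := s.re + 1) (b := s.re - 1) (Th_int χ) (Th_top χ _)
    (by linarith) (Th_zero χ _) (by linarith)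

theorem mellin_Th {q : ℕ} [NeZero q] (χ : DirichletCharacter ℂ q) (s : ℂ) :
    mellin (Th χ) s = ∑ j : ZMod q, χ j * (hurwitzOddFEPair (toAddCircle j)).Λ s := by
  have h1 : ∀ j : ZMod q, (hurwitzOddFEPair (toAddCircle j)).Λ s =
      ∫ t : ℝ in Ioi 0, (t : ℂ) ^ (s - 1) • ((oddKernel (toAddCircle j) t : ℝ) : ℂ) := by
    intro j
    rw [(isStrong_hurwitzOddFEPair (toAddCircle j)).Λ_eq]
    rfl
  have h2 : ∀ j : ZMod q, Integrable (fun t : ℝ =>
      (t : ℂ) ^ (s - 1) • ((oddKernel (toAddCircle j) t : ℝ) : ℂ)) (volume.restrict (Ioi 0)) :=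
    fun j => ((isStrong_hurwitzOddFEPair (toAddCircle j)).hasMellin s).1
  simp only [h1, ← integral_const_mul]
  rw [← integral_finsetSum _ fun j _ => (h2 j).const_mul _]
  unfold mellin Th
  congr 1
  ext t
  rw [Finset.smul_sum]
  apply Finset.sum_congr rfl
  intro j _
  simp only [smul_eq_mul]
  ring

theorem completed_eq {q : ℕ} [NeZero q] (χ : DirichletCharacter ℂ q) (hχ : χ.Odd) (s : ℂ) :
    DirichletCharacter.completedLFunction χ s = (q : ℂ) ^ (-s) * (mellin (Th χ) ((s + 1) / 2) / 2) := by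
  have hodd : (χ : ZMod q → ℂ).Odd := hχ.to_fun
  unfold DirichletCharacter.completedLFunction
  rw [ZMod.completedLFunction_def_odd hodd, mellin_Th, Finset.sum_div]
  congr 1
  apply Finset.sum_congr rfl
  intro j _
  unfold completedHurwitzZetaOdd
  ring

/-! ### The change of variables -/

theorem image_eq {c : ℝ} (hc : 0 < c) : (fun v : ℝ => c * Real.exp v) '' univ = Ioi 0 := by
  ext x
  simp only [image_univ, mem_range, mem_Ioi]
  constructor
  · rintro ⟨v, rfl⟩
    positivity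
  · intro hx
    refine ⟨Real.log (x / c), ?_⟩
    rw [Real.exp_log (by positivity)]
    field_simp

theorem change {c : ℝ} (hc : 0 < c) (H : ℝ → ℂ) :
    ∫ x in Ioi 0, H x = ∫ v : ℝ, ((c * Real.exp v : ℝ) : ℂ) * H (c * Real.exp v) := by
  rw [← image_eq hc, integral_image_eq_integral_abs_deriv_smul (f' := fun v => c * Real.exp v)
    MeasurableSet.univ, setIntegral_univ]
  · congr 1
    ext v
    rw [abs_of_pos (by positivity), Complex.real_smul]
  · intro v _
    exact ((Real.hasDerivAt_exp v).const_mul c).hasDerivWithinAt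
  · intro a _ b _ hab
    have : c * Real.exp a = c * Real.exp b := hab
    exact Real.exp_injective (mul_left_cancel₀ hc.ne' this)

theorem change_int {c : ℝ} (hc : 0 < c) (H : ℝ → ℂ) (hH : IntegrableOn H (Ioi 0)) :
    Integrable (fun v : ℝ => ((c * Real.exp v : ℝ) : ℂ) * H (c * Real.exp v)) := by
  rw [← image_eq hc, integrableOn_image_iff_integrableOn_abs_deriv_smul
    (f' := fun v => c * Real.exp v) MeasurableSet.univ, integrableOn_univ] at hH
  · refine hH.congr (Filter.Eventually.of_forall fun v => ?_)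
    show |c * Real.exp v| • H (c * Real.exp v) = _
    rw [abs_of_pos (by positivity), Complex.real_smul]
  · intro v _
    exact ((Real.hasDerivAt_exp v).const_mul c).hasDerivWithinAt
  · intro a _ b _ hab
    have : c * Real.exp a = c * Real.exp b := hab
    exact Real.exp_injective (mul_left_cancel₀ hc.ne' this)

theorem cpow_eq {y : ℝ} (hy : 0 < y) (z : ℂ) :
    ((y : ℝ) : ℂ) * ((y : ℂ) ^ ((3 / 4 : ℂ) - 1) • z) = ((y ^ (3 / 4 : ℝ) : ℝ) : ℂ) * z := by
  have h1 : ((3 / 4 : ℂ) - 1) = (((3 / 4 : ℝ) - 1 : ℝ) : ℂ) := by push_cast; ring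
  rw [h1, ← Complex.ofReal_cpow hy.le, smul_eq_mul, ← mul_assoc, ← Complex.ofReal_mul]
  congr 2
  rw [Real.rpow_sub_one hy.ne']
  field_simp

end ML

open ML in
theorem ml : StML := by
  intro q _ hq χ hχ
  have hq' : (0 : ℝ) < q := by exact_mod_cast hq.pos
  have hqc : (q : ℂ) ≠ 0 := by exact_mod_cast hq.ne_zero
  have hqv : ∀ v : ℝ, (0 : ℝ) < (q : ℝ) * Real.exp v := fun v => by positivity
  set s₀ : ℂ := 3 / 4 with hs₀
  set A : ℝ := (q : ℝ) ^ (-(1 / 2) : ℝ) / 2 with hA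
  -- the two integrands
  have e1 : ∀ v : ℝ, (((q : ℝ) * Real.exp v : ℝ) : ℂ) *
      ((((q : ℝ) * Real.exp v : ℝ) : ℂ) ^ (s₀ - 1) • Th χ (q * Real.exp v)) =
      ((((q : ℝ) * Real.exp v) ^ (3 / 4 : ℝ) : ℝ) : ℂ) * Th χ (q * Real.exp v) :=
    fun v => cpow_eq (hqv v) _
  have hPhi : ∀ v : ℝ, Phi χ v = (A : ℂ) * ((((q : ℝ) * Real.exp v : ℝ) : ℂ) *
      ((((q : ℝ) * Real.exp v : ℝ) : ℂ) ^ (s₀ - 1) • Th χ (q * Real.exp v))) := by
    intro v
    rw [e1, Phi_eq hq χ hχ v, ← hA, Complex.ofReal_mul]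
    ring
  have hlog : ∀ v : ℝ, Real.log ((q : ℝ) * Real.exp v) = Real.log q + v := by
    intro v
    rw [Real.log_mul hq'.ne' (Real.exp_pos v).ne', Real.log_exp]
  have hPhi' : ∀ v : ℝ, ((Real.log q + v : ℝ) : ℂ) * Phi χ v =
      (A : ℂ) * ((((q : ℝ) * Real.exp v : ℝ) : ℂ) *
      ((((q : ℝ) * Real.exp v : ℝ) : ℂ) ^ (s₀ - 1) •
        (Real.log ((q : ℝ) * Real.exp v) • Th χ (q * Real.exp v)))) := by
    intro v
    rw [hPhi v, hlog v, Complex.real_smul]
    simp only [smul_eq_mul]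
    ring
  have hI : Integrable (fun v : ℝ => Phi χ v) := by
    have := (change_int hq' _ (Th_conv χ s₀)).const_mul (A : ℂ)
    refine this.congr (Filter.Eventually.of_forall fun v => ?_)
    exact (hPhi v).symm
  have hI' : Integrable (fun v : ℝ => ((Real.log q + v : ℝ) : ℂ) * Phi χ v) := by
    have := (change_int hq' _ (Th_deriv χ s₀).1).const_mul (A : ℂ)
    refine this.congr (Filter.Eventually.of_forall fun v => ?_)
    exact (hPhi' v).symm
  have hJ : Integrable (fun v : ℝ => (v : ℂ) * Phi χ v) := by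
    have := hI'.sub (hI.const_mul (Real.log q : ℂ))
    refine this.congr (Filter.Eventually.of_forall fun v => ?_)
    show ((Real.log q + v : ℝ) : ℂ) * Phi χ v - (Real.log q : ℂ) * Phi χ v = _
    push_cast
    ring
  -- the values
  have hX : X χ = (A : ℂ) * mellin (Th χ) s₀ := by
    unfold X mellin
    rw [change hq', ← integral_const_mul]
    congr 1
    ext v
    exact hPhi v
  have hX' : (∫ v : ℝ, ((Real.log q + v : ℝ) : ℂ) * Phi χ v) =
      (A : ℂ) * mellin (fun t => Real.log t • Th χ t) s₀ := by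
    unfold mellin
    rw [change hq', ← integral_const_mul]
    congr 1
    ext v
    exact hPhi' v
  have hX1 : (∫ v : ℝ, ((Real.log q + v : ℝ) : ℂ) * Phi χ v) =
      (Real.log q : ℂ) * X χ + ∫ v : ℝ, (v : ℂ) * Phi χ v := by
    unfold X
    rw [← integral_const_mul, ← integral_add (hI.const_mul _) hJ]
    congr 1
    ext v
    push_cast
    ring
  have hhalf : ((1 / 2 : ℂ) + 1) / 2 = s₀ := by rw [hs₀]; norm_num
  have hpow : (q : ℂ) ^ (-(1 / 2 : ℂ)) = ((((q : ℝ) ^ (-(1 / 2) : ℝ) : ℝ)) : ℂ) := by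
    rw [Complex.ofReal_cpow hq'.le]
    push_cast
    rfl
  have hA2 : (A : ℂ) = (q : ℂ) ^ (-(1 / 2 : ℂ)) / 2 := by
    rw [hpow, hA]
    push_cast
    rfl
  have hval : X χ = DirichletCharacter.completedLFunction χ (1 / 2) := by
    rw [completed_eq χ hχ, hhalf, hX, hA2]
    ring
  refine ⟨hI, hJ, hval, ?_⟩
  have hder : HasDerivAt (DirichletCharacter.completedLFunction χ)
      ((-Real.log q : ℂ) * ((q : ℂ) ^ (-(1 / 2 : ℂ)) * (mellin (Th χ) s₀ / 2)) +
        (q : ℂ) ^ (-(1 / 2 : ℂ)) * (mellin (fun t => Real.log t • Th χ t) s₀ / 4)) (1 / 2) := by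
    have h0 : DirichletCharacter.completedLFunction χ = fun s =>
        (q : ℂ) ^ (-s) * (mellin (Th χ) ((s + 1) / 2) / 2) := funext fun s => completed_eq χ hχ s
    rw [h0]
    have h1 : HasDerivAt (fun s : ℂ => (q : ℂ) ^ (-s))
        ((q : ℂ) ^ (-(1 / 2 : ℂ)) * Complex.log q * (-1)) (1 / 2) :=
      (hasDerivAt_neg (1 / 2 : ℂ)).const_cpow (Or.inl hqc)
    have h2 : HasDerivAt (fun s : ℂ => (s + 1) / 2) (1 / 2) (1 / 2) := by
      simpa using ((hasDerivAt_id (1 / 2 : ℂ)).add_const 1).div_const 2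
    have h3 : HasDerivAt (fun s : ℂ => mellin (Th χ) ((s + 1) / 2))
        (mellin (fun t => Real.log t • Th χ t) s₀ * (1 / 2)) (1 / 2) := by
      have h4 := (Th_deriv χ s₀).2
      rw [← hhalf] at h4
      have h5 := HasDerivAt.comp (1 / 2 : ℂ) h4 h2
      rw [hhalf] at h5
      exact h5
    have h6 := h1.mul (h3.div_const 2)
    refine h6.congr_deriv ?_
    rw [hhalf, Complex.natCast_log]
    ring
  rw [hder.deriv]
  have h7 : X1 χ = (1 / 2) * ((∫ v : ℝ, ((Real.log q + v : ℝ) : ℂ) * Phi χ v) -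
      (Real.log q : ℂ) * X χ) := by
    unfold X1
    rw [hX1]
    ring
  rw [h7, hX', ← hval, hX, hA2]
  push_cast
  ring

end Pool.Agent.Lib.MP_50d0fc_nt.LB
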