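import Pool.Agent.Lib.MP_50d0fc_nt.LB.Spec

/-!
# Module MT: the main term of `R(h)`
-/

set_option autoImplicit false

namespace Pool.Agent.Lib.MP_50d0fc_nt.LB

open Finset

namespace MTM

lemma sg_abs (q a b : ℕ) : |sg q a b| ≤ 1 := by
  unfold sg
  split_ifs <;> norm_num

lemma K_zero_left (q n : ℕ) : K q 0 n = 0 := by
  unfold K
  rw [Nat.cast_zero, Real.zero_rpow (by norm_num)]
  ring

lemma K_zero_right (q m : ℕ) : K q m 0 = 0 := by
  unfold K
  rw [Nat.cast_zero, Real.zero_rpow (by norm_num)]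
  ring

/-- `|K(m, n)| ≤ 4 C q² (m n)^(-9/4)` -/
lemma K_le {C : ℝ} (hP0 : ∀ y, 0 ≤ P y) (hP : ∀ y, P y ≤ C * Real.exp (-(1 * y)))
    {q m n : ℕ} (hq : 0 < q) (hm : 1 ≤ m) (hn : 1 ≤ n) :
    |K q m n| ≤ 4 * C * (q : ℝ) ^ 2 * ((m : ℝ) ^ (-(9 / 4) : ℝ) * (n : ℝ) ^ (-(9 / 4) : ℝ)) := by
  have hm1 : (1 : ℝ) ≤ m := by exact_mod_cast hm
  have hn1 : (1 : ℝ) ≤ n := by exact_mod_cast hn
  have hm0 : (0 : ℝ) < m := by linarith
  have hn0 : (0 : ℝ) < n := by linarith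
  have hq0 : (0 : ℝ) < q := by exact_mod_cast hq
  have hlm : 0 ≤ Real.log m := Real.log_nonneg hm1
  have hln : 0 ≤ Real.log n := Real.log_nonneg hn1
  have hlog : |Real.log n - Real.log m| ≤ 4 * ((m : ℝ) ^ (1 / 4 : ℝ) * (n : ℝ) ^ (1 / 4 : ℝ)) := by
    have h1 : |Real.log n - Real.log m| ≤ Real.log (m * n) := by
      rw [Real.log_mul hm0.ne' hn0.ne', abs_le]
      constructor <;> linarith
    have h2 := Real.log_le_rpow_div (by positivity : (0 : ℝ) ≤ m * n) (by norm_num : (0 : ℝ) < 1 / 4)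
    rw [Real.mul_rpow hm0.le hn0.le] at h2
    linarith
  have hexp : Real.exp (-(1 * (2 * Real.log m + 2 * Real.log n - 2 * Real.log q))) =
      (q : ℝ) ^ 2 * ((m : ℝ) ^ (-2 : ℝ) * (n : ℝ) ^ (-2 : ℝ)) := by
    have e1 : (q : ℝ) ^ 2 = Real.exp (2 * Real.log q) := by
      rw [← Real.rpow_natCast, Real.rpow_def_of_pos hq0]
      congr 1
      push_cast
      ring
    rw [e1, Real.rpow_def_of_pos hm0, Real.rpow_def_of_pos hn0, ← Real.exp_add, ← Real.exp_add]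
    congr 1
    ring
  have hPle := hP (2 * Real.log m + 2 * Real.log n - 2 * Real.log q)
  rw [hexp] at hPle
  have hPabs : |P (2 * Real.log m + 2 * Real.log n - 2 * Real.log q)| ≤
      C * ((q : ℝ) ^ 2 * ((m : ℝ) ^ (-2 : ℝ) * (n : ℝ) ^ (-2 : ℝ))) := by
    rw [abs_of_nonneg (hP0 _)]
    exact hPle
  unfold K
  rw [abs_mul, abs_mul, abs_of_nonneg (by positivity :
    (0 : ℝ) ≤ (m : ℝ) ^ (-(1 / 2) : ℝ) * (n : ℝ) ^ (-(1 / 2) : ℝ))]
  have h3 := mul_le_mul (mul_le_mul_of_nonneg_left hlog (by positivity :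
    (0 : ℝ) ≤ (m : ℝ) ^ (-(1 / 2) : ℝ) * (n : ℝ) ^ (-(1 / 2) : ℝ))) hPabs (abs_nonneg _)
    (by positivity)
  refine h3.trans (le_of_eq ?_)
  have em : (m : ℝ) ^ (-(9 / 4) : ℝ) =
      (m : ℝ) ^ (-(1 / 2) : ℝ) * (m : ℝ) ^ (1 / 4 : ℝ) * (m : ℝ) ^ (-2 : ℝ) := by
    rw [← Real.rpow_add hm0, ← Real.rpow_add hm0]
    norm_num
  have en : (n : ℝ) ^ (-(9 / 4) : ℝ) =
      (n : ℝ) ^ (-(1 / 2) : ℝ) * (n : ℝ) ^ (1 / 4 : ℝ) * (n : ℝ) ^ (-2 : ℝ) := by
    rw [← Real.rpow_add hn0, ← Real.rpow_add hn0]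
    norm_num
  rw [em, en]
  ring

lemma fin_sum {F : Finset (ℕ × ℕ)} (e : ℕ × ℕ → ℕ × ℕ) (he : Set.InjOn e F)
    (a : ℕ × ℕ → ℝ) (b1 b2 : ℕ → ℝ) (hb1 : ∀ i, 0 ≤ b1 i) (hb2 : ∀ i, 0 ≤ b2 i)
    (s1 : Summable b1) (s2 : Summable b2) (h : ∀ p ∈ F, a p ≤ b1 (e p).1 * b2 (e p).2) :
    ∑ p ∈ F, a p ≤ (∑' i, b1 i) * ∑' i, b2 i := by
  have hs : Summable (fun p : ℕ × ℕ => b1 p.1 * b2 p.2) := Summable.mul_of_nonneg s1 s2 hb1 hb2
  calc ∑ p ∈ F, a p ≤ ∑ p ∈ F, b1 (e p).1 * b2 (e p).2 := sum_le_sum h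
    _ = ∑ x ∈ F.image e, b1 x.1 * b2 x.2 :=
      (sum_image (f := fun x : ℕ × ℕ => b1 x.1 * b2 x.2) he).symm
    _ ≤ ∑' x : ℕ × ℕ, b1 x.1 * b2 x.2 :=
      hs.sum_le_tsum _ (fun _ _ => mul_nonneg (hb1 _) (hb2 _))
    _ = _ := (s1.tsum_mul_tsum s2 hs).symm

/-- the coefficients -/
noncomputable def b2 (j : ℕ) : ℝ := ((j : ℝ) + 1) ^ (-(9 / 4) : ℝ)

noncomputable def b1 (m : ℕ) : ℝ := (m : ℝ) ^ (-(9 / 4) : ℝ)

lemma b1_nonneg (m : ℕ) : 0 ≤ b1 m := by unfold b1; positivity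

lemma b2_nonneg (m : ℕ) : 0 ≤ b2 m := by unfold b2; positivity

lemma b1_sum : Summable b1 := Real.summable_nat_rpow.2 (by norm_num)

lemma b2_sum : Summable b2 := by
  have h := (summable_nat_add_iff 1).2 b1_sum
  refine h.congr (fun j => ?_)
  unfold b1 b2
  push_cast
  rfl

/-- `n^(-9/4)` for `n ≥ (n/q + 1) q/s` -/
lemma pw {q n : ℕ} (hq : 0 < q) (hn : 1 ≤ n) {s : ℝ} (hs : 4 ≤ s) (h : (q : ℝ) ≤ s / 2 * n) :
    (n : ℝ) ^ (-(9 / 4) : ℝ) ≤ b2 (n / q) * ((q : ℝ) ^ (-(9 / 4) : ℝ) * s ^ (9 / 4 : ℝ)) := by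
  have hq0 : (0 : ℝ) < q := by exact_mod_cast hq
  have hn0 : (0 : ℝ) < n := by exact_mod_cast hn
  have hs0 : 0 < s := by linarith
  have hj : (((n / q : ℕ) : ℝ)) * q ≤ n := by exact_mod_cast Nat.div_mul_le_self n q
  have hjn : (((n / q : ℕ) : ℝ) + 1) * q / s ≤ n := by
    rw [div_le_iff₀ hs0]
    have h1 : (n : ℝ) ≤ s / 2 * n := le_mul_of_one_le_left hn0.le (by linarith)
    calc (((n / q : ℕ) : ℝ) + 1) * q = ((n / q : ℕ) : ℝ) * q + q := by ring
      _ ≤ n + s / 2 * n := add_le_add hj h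
      _ ≤ n * s := by nlinarith
  have hpos : 0 < (((n / q : ℕ) : ℝ) + 1) * q / s := by positivity
  have h2 : (n : ℝ) ^ (-(9 / 4) : ℝ) ≤ ((((n / q : ℕ) : ℝ) + 1) * q / s) ^ (-(9 / 4) : ℝ) :=
    Real.rpow_le_rpow_of_nonpos hpos hjn (by norm_num)
  refine h2.trans (le_of_eq ?_)
  unfold b2
  rw [Real.div_rpow (by positivity) hs0.le, Real.mul_rpow (by positivity) hq0.le,
    Real.rpow_neg hs0.le, div_inv_eq_mul]
  ring

lemma nat_eq_of_cast {q n n' : ℕ} (h1 : (n : ZMod q) = (n' : ZMod q)) (h2 : n / q = n' / q) :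
    n = n' := by
  have h3 : n % q = n' % q := (ZMod.natCast_eq_natCast_iff' n n' q).1 h1
  rw [← Nat.div_add_mod n q, ← Nat.div_add_mod n' q, h2, h3]

/-- the four pieces of the complement of the line -/
def cA (q h : ℕ) (s : Bool) (p : ℕ × ℕ) : Prop :=
  1 ≤ p.1 ∧ 1 ≤ p.2 ∧ q ≤ 2 * p.2 ∧
    ((h * p.1 : ℕ) : ZMod q) = if s then (p.2 : ZMod q) else -(p.2 : ZMod q)

def cB (q h : ℕ) (s : Bool) (p : ℕ × ℕ) : Prop :=
  1 ≤ p.1 ∧ 1 ≤ p.2 ∧ q ≤ 2 * (h * p.1) ∧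
    ((h * p.1 : ℕ) : ZMod q) = if s then (p.2 : ZMod q) else -(p.2 : ZMod q)

open scoped Classical in
lemma boundA {C : ℝ} (hC : 0 < C) (hP0 : ∀ y, 0 ≤ P y)
    (hP : ∀ y, P y ≤ C * Real.exp (-(1 * y))) {q : ℕ} (hq : q.Prime) (h : ℕ) (s : Bool)
    (F : Finset (ℕ × ℕ)) :
    ∑ p ∈ F.filter (cA q h s), |K q p.1 p.2| ≤
      (4 * C * 4 ^ (9 / 4 : ℝ) * (q : ℝ) ^ (-(1 / 4) : ℝ)) * ((∑' i, b1 i) * ∑' i, b2 i) := by
  have hq0 : (0 : ℝ) < q := by exact_mod_cast hq.pos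
  set D : ℝ := 4 * C * 4 ^ (9 / 4 : ℝ) * (q : ℝ) ^ (-(1 / 4) : ℝ) with hD
  have hD0 : 0 ≤ D := by positivity
  have key := fin_sum (F := F.filter (cA q h s)) (fun p => (p.1, p.2 / q)) ?_
    (fun p => |K q p.1 p.2|) (fun i => D * b1 i) b2 (fun i => mul_nonneg hD0 (b1_nonneg i))
    b2_nonneg (b1_sum.mul_left D) b2_sum ?_
  · refine key.trans (le_of_eq ?_)
    rw [tsum_mul_left]
    ring
  · intro p hp p' hp' he
    rw [mem_coe, mem_filter] at hp hp'
    obtain ⟨-, -, -, -, h1⟩ := hp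
    obtain ⟨-, -, -, -, h2⟩ := hp'
    simp only [Prod.mk.injEq] at he
    rw [he.1, h2] at h1
    have h3 : (p.2 : ZMod q) = (p'.2 : ZMod q) := by
      cases s
      · simpa using h1.symm
      · simpa using h1.symm
    exact Prod.ext he.1 (nat_eq_of_cast h3 he.2)
  · intro p hp
    rw [mem_filter] at hp
    obtain ⟨-, h1, h2, h3, -⟩ := hp
    have h4 := K_le hP0 hP hq.pos h1 h2
    have h3' : (q : ℝ) ≤ 4 / 2 * p.2 := by
      have : (q : ℝ) ≤ 2 * p.2 := by exact_mod_cast h3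
      linarith
    have h5 := pw hq.pos h2 (le_refl (4 : ℝ)) h3'
    have h6 : (0 : ℝ) ≤ (p.1 : ℝ) ^ (-(9 / 4) : ℝ) := by positivity
    refine h4.trans ((mul_le_mul_of_nonneg_left (mul_le_mul_of_nonneg_left h5 h6)
      (by positivity)).trans (le_of_eq ?_))
    have e1 : (q : ℝ) ^ (-(1 / 4) : ℝ) = (q : ℝ) ^ 2 * (q : ℝ) ^ (-(9 / 4) : ℝ) := by
      rw [← Real.rpow_natCast, ← Real.rpow_add hq0]
      norm_num
    simp only
    rw [hD, e1]
    unfold b1
    ring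

open scoped Classical in
lemma boundB {C : ℝ} (hC : 0 < C) (hP0 : ∀ y, 0 ≤ P y)
    (hP : ∀ y, P y ≤ C * Real.exp (-(1 * y))) {q : ℕ} (hq : q.Prime) {h : ℕ} (hh : 1 ≤ h)
    (hhq : h < q) (s : Bool) (F : Finset (ℕ × ℕ)) :
    ∑ p ∈ F.filter (cB q h s), |K q p.1 p.2| ≤
      (4 * C * (4 * (h : ℝ)) ^ (9 / 4 : ℝ) * (q : ℝ) ^ (-(1 / 4) : ℝ)) *
        ((∑' i, b1 i) * ∑' i, b2 i) := by
  have hq0 : (0 : ℝ) < q := by exact_mod_cast hq.pos
  have hh1 : (1 : ℝ) ≤ h := by exact_mod_cast hh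
  have : Fact q.Prime := ⟨hq⟩
  set D : ℝ := 4 * C * (4 * (h : ℝ)) ^ (9 / 4 : ℝ) * (q : ℝ) ^ (-(1 / 4) : ℝ) with hD
  have hD0 : 0 ≤ D := by positivity
  have hhz : (h : ZMod q) ≠ 0 := by
    intro h0
    rw [ZMod.natCast_eq_zero_iff] at h0
    exact absurd (Nat.le_of_dvd hh h0) (by omega)
  have key := fin_sum (F := F.filter (cB q h s)) (fun p => (p.2, p.1 / q)) ?_
    (fun p => |K q p.1 p.2|) (fun i => D * b1 i) b2 (fun i => mul_nonneg hD0 (b1_nonneg i))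
    b2_nonneg (b1_sum.mul_left D) b2_sum ?_
  · refine key.trans (le_of_eq ?_)
    rw [tsum_mul_left]
    ring
  · intro p hp p' hp' he
    rw [mem_coe, mem_filter] at hp hp'
    obtain ⟨-, -, -, -, h1⟩ := hp
    obtain ⟨-, -, -, -, h2⟩ := hp'
    simp only [Prod.mk.injEq] at he
    rw [he.1, ← h2] at h1
    push_cast at h1
    have h3 : (p.1 : ZMod q) = (p'.1 : ZMod q) := mul_left_cancel₀ hhz h1
    exact Prod.ext (nat_eq_of_cast h3 he.2) he.1
  · intro p hp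
    rw [mem_filter] at hp
    obtain ⟨-, h1, h2, h3, -⟩ := hp
    have h4 := K_le hP0 hP hq.pos h1 h2
    have h3' : (q : ℝ) ≤ (4 * (h : ℝ)) / 2 * p.1 := by
      have : (q : ℝ) ≤ 2 * (h * p.1) := by exact_mod_cast h3
      linarith
    have h5 := pw hq.pos h1 (by linarith : (4 : ℝ) ≤ 4 * (h : ℝ)) h3'
    have h6 : (0 : ℝ) ≤ (p.2 : ℝ) ^ (-(9 / 4) : ℝ) := by positivity
    refine h4.trans ((mul_le_mul_of_nonneg_left (mul_le_mul_of_nonneg_right h5 h6)
      (by positivity)).trans (le_of_eq ?_))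
    have e1 : (q : ℝ) ^ (-(1 / 4) : ℝ) = (q : ℝ) ^ 2 * (q : ℝ) ^ (-(9 / 4) : ℝ) := by
      rw [← Real.rpow_natCast, ← Real.rpow_add hq0]
      norm_num
    simp only
    rw [hD, e1]
    unfold b1
    ring

/-- the terms off the line -/
noncomputable def off (q h : ℕ) (p : ℕ × ℕ) : ℝ :=
  if p.2 = h * p.1 then 0 else sg q (h * p.1) p.2 * K q p.1 p.2

/-- the terms on the line -/
noncomputable def on (q h : ℕ) (p : ℕ × ℕ) : ℝ :=
  if p.2 = h * p.1 then sg q (h * p.1) p.2 * K q p.1 p.2 else 0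

open scoped Classical in
lemma off_le (q h : ℕ) (p : ℕ × ℕ) :
    |off q h p| ≤ (if cA q h true p then |K q p.1 p.2| else 0) +
      (if cA q h false p then |K q p.1 p.2| else 0) +
      ((if cB q h true p then |K q p.1 p.2| else 0) +
        (if cB q h false p then |K q p.1 p.2| else 0)) := by
  have hK := abs_nonneg (K q p.1 p.2)
  have hnn : 0 ≤ (if cA q h true p then |K q p.1 p.2| else 0) +
      (if cA q h false p then |K q p.1 p.2| else 0) +
      ((if cB q h true p then |K q p.1 p.2| else 0) +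
        (if cB q h false p then |K q p.1 p.2| else 0)) := by
    split_ifs <;> positivity
  unfold off
  by_cases hl : p.2 = h * p.1
  · rw [if_pos hl, abs_zero]
    exact hnn
  rw [if_neg hl]
  rcases Nat.eq_zero_or_pos p.1 with h1 | h1
  · have e0 : sg q (h * p.1) p.2 * K q p.1 p.2 = 0 := by rw [h1, K_zero_left, mul_zero]
    rw [e0, abs_zero]
    exact hnn
  rcases Nat.eq_zero_or_pos p.2 with h2 | h2
  · have e0 : sg q (h * p.1) p.2 * K q p.1 p.2 = 0 := by rw [h2, K_zero_right, mul_zero]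
    rw [e0, abs_zero]
    exact hnn
  have hle : |sg q (h * p.1) p.2 * K q p.1 p.2| ≤ |K q p.1 p.2| := by
    rw [abs_mul]
    exact mul_le_of_le_one_left hK (sg_abs _ _ _)
  by_cases hp : ((h * p.1 : ℕ) : ZMod q) = (p.2 : ZMod q)
  · -- congruent
    have hbig : q ≤ 2 * p.2 ∨ q ≤ 2 * (h * p.1) := by
      by_contra hc
      push Not at hc
      apply hl
      have h3 : (h * p.1) % q = p.2 % q := (ZMod.natCast_eq_natCast_iff' _ _ q).1 hp
      rw [Nat.mod_eq_of_lt (by omega), Nat.mod_eq_of_lt (by omega)] at h3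
      exact h3.symm
    rcases hbig with hb | hb
    · have hc : cA q h true p := ⟨h1, h2, hb, by simpa using hp⟩
      refine hle.trans ?_
      rw [if_pos hc]
      have : 0 ≤ (if cA q h false p then |K q p.1 p.2| else 0) +
        ((if cB q h true p then |K q p.1 p.2| else 0) +
          (if cB q h false p then |K q p.1 p.2| else 0)) := by split_ifs <;> positivity
      linarith
    · have hc : cB q h true p := ⟨h1, h2, hb, by simpa using hp⟩
      refine hle.trans ?_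
      rw [if_pos hc]
      have : 0 ≤ (if cA q h true p then |K q p.1 p.2| else 0) +
        (if cA q h false p then |K q p.1 p.2| else 0) +
          (if cB q h false p then |K q p.1 p.2| else 0) := by split_ifs <;> positivity
      linarith
  by_cases hn : ((h * p.1 : ℕ) : ZMod q) = -(p.2 : ZMod q)
  · have hbig : q ≤ 2 * p.2 ∨ q ≤ 2 * (h * p.1) := by
      by_contra hc
      push Not at hc
      have h3 : ((h * p.1 + p.2 : ℕ) : ZMod q) = 0 := by
        rw [Nat.cast_add, hn]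
        ring
      rw [ZMod.natCast_eq_zero_iff] at h3
      have := Nat.le_of_dvd (by omega) h3
      omega
    rcases hbig with hb | hb
    · have hc : cA q h false p := ⟨h1, h2, hb, by simpa using hn⟩
      refine hle.trans ?_
      rw [if_pos hc]
      have : 0 ≤ (if cA q h true p then |K q p.1 p.2| else 0) +
        ((if cB q h true p then |K q p.1 p.2| else 0) +
          (if cB q h false p then |K q p.1 p.2| else 0)) := by split_ifs <;> positivity
      linarith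
    · have hc : cB q h false p := ⟨h1, h2, hb, by simpa using hn⟩
      refine hle.trans ?_
      rw [if_pos hc]
      have : 0 ≤ (if cA q h true p then |K q p.1 p.2| else 0) +
        (if cA q h false p then |K q p.1 p.2| else 0) +
          (if cB q h true p then |K q p.1 p.2| else 0) := by split_ifs <;> positivity
      linarith
  · have h0 : sg q (h * p.1) p.2 = 0 := by
      unfold sg
      rw [if_neg hp, if_neg hn, sub_zero]
    rw [h0, zero_mul, abs_zero]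
    exact hnn

/-- on the line `sg` is `0` or `1` -/
lemma sg_line (q a : ℕ) : 0 ≤ sg q a a := by
  unfold sg
  rw [if_pos rfl]
  split_ifs <;> norm_num

lemma sg_line_one {q a : ℕ} (hq : q.Prime) (hq2 : q ≠ 2) (ha : ¬ q ∣ a) : sg q a a = 1 := by
  unfold sg
  rw [if_pos rfl, if_neg, sub_zero]
  intro h0
  have h1 : ((2 * a : ℕ) : ZMod q) = 0 := by
    push_cast
    rw [two_mul]
    nth_rewrite 1 [h0]
    ring
  rw [ZMod.natCast_eq_zero_iff] at h1
  rcases hq.dvd_mul.1 h1 with h2 | h2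
  · exact hq2 ((Nat.prime_dvd_prime_iff_eq hq Nat.prime_two).1 h2)
  · exact ha h2

lemma K_line_nonneg (hP0 : ∀ y, 0 ≤ P y) (q : ℕ) {h : ℕ} (hh : 1 ≤ h) (m : ℕ) :
    0 ≤ K q m (h * m) := by
  rcases Nat.eq_zero_or_pos m with h1 | h1
  · rw [h1, K_zero_left]
  · have hm0 : (0 : ℝ) < m := by exact_mod_cast h1
    have hh0 : (0 : ℝ) < h := by exact_mod_cast hh
    have hh1 : (1 : ℝ) ≤ h := by exact_mod_cast hh
    unfold K
    rw [Nat.cast_mul, Real.log_mul hh0.ne' hm0.ne']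
    have h2 : 0 ≤ Real.log h + Real.log m - Real.log m := by
      have := Real.log_nonneg hh1
      linarith
    have h3 := hP0 (2 * Real.log m + 2 * (Real.log h + Real.log m) - 2 * Real.log q)
    positivity

lemma K_line_ge (hPa : Antitone P) {q h m : ℕ} (hq : 0 < q) (hh : 1 ≤ h)
    (hm : 1 ≤ m) (hle : h * m ^ 2 ≤ q) :
    P 0 * (h : ℝ) ^ (-(1 / 2) : ℝ) * Real.log h * (1 / (m : ℝ)) ≤ K q m (h * m) := by
  have hm0 : (0 : ℝ) < m := by exact_mod_cast hm
  have hh0 : (0 : ℝ) < h := by exact_mod_cast hh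
  have hh1 : (1 : ℝ) ≤ h := by exact_mod_cast hh
  have hq0 : (0 : ℝ) < q := by exact_mod_cast hq
  have hle' : (h : ℝ) * (m : ℝ) ^ 2 ≤ q := by exact_mod_cast hle
  have hlog : Real.log h + 2 * Real.log m ≤ Real.log q := by
    have h1 := Real.log_le_log (by positivity) hle'
    rw [Real.log_mul hh0.ne' (by positivity), Real.log_pow] at h1
    exact_mod_cast h1
  unfold K
  rw [Nat.cast_mul, Real.log_mul hh0.ne' hm0.ne', Real.mul_rpow hh0.le hm0.le]
  have h2 : P 0 ≤ P (2 * Real.log m + 2 * (Real.log h + Real.log m) - 2 * Real.log q) :=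
    hPa (by linarith)
  have h3 : 1 / (m : ℝ) = (m : ℝ) ^ (-(1 / 2) : ℝ) * (m : ℝ) ^ (-(1 / 2) : ℝ) := by
    rw [← Real.rpow_add hm0]
    norm_num
    rw [Real.rpow_neg_one]
  rw [h3]
  have h4 : 0 ≤ Real.log h := Real.log_nonneg hh1
  have h5 : P 0 * (h : ℝ) ^ (-(1 / 2) : ℝ) * Real.log h *
      ((m : ℝ) ^ (-(1 / 2) : ℝ) * (m : ℝ) ^ (-(1 / 2) : ℝ)) =
      (m : ℝ) ^ (-(1 / 2) : ℝ) * ((h : ℝ) ^ (-(1 / 2) : ℝ) * (m : ℝ) ^ (-(1 / 2) : ℝ)) *
        (Real.log h + Real.log m - Real.log m) * P 0 := by ring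
  rw [h5]
  refine mul_le_mul_of_nonneg_left h2 ?_
  have h6 : 0 ≤ Real.log h + Real.log m - Real.log m := by linarith
  positivity

end MTM

open MTM in
theorem mt (h1 : StGP) (h2 : StKS) : StMT := by
  classical
  obtain ⟨hPa, -, hP0, -, hPp, hPk, -⟩ := h1
  obtain ⟨C, hC, hP⟩ := hPk 1 zero_le_one
  set Z : ℝ := (∑' i, b1 i) * ∑' i, b2 i with hZ
  have hZ0 : 0 ≤ Z := mul_nonneg (tsum_nonneg b1_nonneg) (tsum_nonneg b2_nonneg)
  refine ⟨P 0 / 4, 16 * C * 4 ^ (9 / 4 : ℝ) * Z + 1, by positivity, by positivity, ?_⟩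
  intro q hq hq2 h hh hhq
  have hq0 : (0 : ℝ) < q := by exact_mod_cast hq.pos
  have hh0 : (0 : ℝ) < h := by exact_mod_cast hh
  have hh1 : (1 : ℝ) ≤ h := by exact_mod_cast hh
  have hlt : h < q := by
    have := hq.two_le
    by_contra hc
    push Not at hc
    nlinarith
  set f : ℕ × ℕ → ℝ := fun p => sg q (h * p.1) p.2 * K q p.1 p.2 with hf
  have hfs : Summable f := by
    refine Summable.of_norm_bounded (h2 q hq.pos) (fun p => ?_)
    rw [Real.norm_eq_abs, hf, abs_mul]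
    exact mul_le_of_le_one_left (abs_nonneg _) (sg_abs _ _ _)
  have hon : Summable (on q h) := by
    refine Summable.of_norm_bounded (h2 q hq.pos) (fun p => ?_)
    unfold on
    split_ifs
    · rw [Real.norm_eq_abs, abs_mul]
      exact mul_le_of_le_one_left (abs_nonneg _) (sg_abs _ _ _)
    · rw [norm_zero]
      exact abs_nonneg _
  have hoff : Summable (off q h) := by
    refine Summable.of_norm_bounded (h2 q hq.pos) (fun p => ?_)
    unfold off
    split_ifs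
    · rw [norm_zero]
      exact abs_nonneg _
    · rw [Real.norm_eq_abs, abs_mul]
      exact mul_le_of_le_one_left (abs_nonneg _) (sg_abs _ _ _)
  have hR : R q h = ∑' p, on q h p + ∑' p, off q h p := by
    rw [← hon.tsum_add hoff]
    unfold R
    refine tsum_congr (fun p => ?_)
    unfold on off
    split_ifs <;> ring
  -- the complement of the line
  have hB : |∑' p, off q h p| ≤ 16 * C * 4 ^ (9 / 4 : ℝ) * Z * ((h : ℝ) ^ 3 *
      (q : ℝ) ^ (-(1 / 4) : ℝ)) := by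
    have hb : ∑' p, |off q h p| ≤ 16 * C * 4 ^ (9 / 4 : ℝ) * Z * ((h : ℝ) ^ 3 *
        (q : ℝ) ^ (-(1 / 4) : ℝ)) := by
      refine Real.tsum_le_of_sum_le (fun p => abs_nonneg _) (fun F => ?_)
      have e1 : ∑ p ∈ F, |off q h p| ≤
          ∑ p ∈ F.filter (cA q h true), |K q p.1 p.2| +
          ∑ p ∈ F.filter (cA q h false), |K q p.1 p.2| +
          (∑ p ∈ F.filter (cB q h true), |K q p.1 p.2| +
          ∑ p ∈ F.filter (cB q h false), |K q p.1 p.2|) := by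
        rw [sum_filter, sum_filter, sum_filter, sum_filter, ← sum_add_distrib, ← sum_add_distrib,
          ← sum_add_distrib]
        exact sum_le_sum (fun p _ => off_le q h p)
      have a1 := boundA hC hP0 hP hq h true F
      have a2 := boundA hC hP0 hP hq h false F
      have a3 := boundB hC hP0 hP hq hh hlt true F
      have a4 := boundB hC hP0 hP hq hh hlt false F
      rw [← hZ] at a1 a2 a3 a4
      have hh3 : (1 : ℝ) ≤ (h : ℝ) ^ 3 := one_le_pow₀ hh1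
      have hQ : 0 ≤ (q : ℝ) ^ (-(1 / 4) : ℝ) := by positivity
      have h4 : (0 : ℝ) ≤ (4 : ℝ) ^ (9 / 4 : ℝ) := by positivity
      have e2 : (4 * (h : ℝ)) ^ (9 / 4 : ℝ) ≤ 4 ^ (9 / 4 : ℝ) * (h : ℝ) ^ 3 := by
        rw [Real.mul_rpow (by norm_num) hh0.le]
        refine mul_le_mul_of_nonneg_left ?_ h4
        rw [← Real.rpow_natCast]
        exact Real.rpow_le_rpow_of_exponent_le hh1 (by norm_num)
      have e3 : (4 * C * 4 ^ (9 / 4 : ℝ) * (q : ℝ) ^ (-(1 / 4) : ℝ)) * Z ≤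
          4 * C * 4 ^ (9 / 4 : ℝ) * Z * ((h : ℝ) ^ 3 * (q : ℝ) ^ (-(1 / 4) : ℝ)) := by
        have : (4 * C * 4 ^ (9 / 4 : ℝ) * Z * (q : ℝ) ^ (-(1 / 4) : ℝ)) * 1 ≤
            (4 * C * 4 ^ (9 / 4 : ℝ) * Z * (q : ℝ) ^ (-(1 / 4) : ℝ)) * (h : ℝ) ^ 3 :=
          mul_le_mul_of_nonneg_left hh3 (by positivity)
        linarith
      have e4 : (4 * C * (4 * (h : ℝ)) ^ (9 / 4 : ℝ) * (q : ℝ) ^ (-(1 / 4) : ℝ)) * Z ≤
          4 * C * 4 ^ (9 / 4 : ℝ) * Z * ((h : ℝ) ^ 3 * (q : ℝ) ^ (-(1 / 4) : ℝ)) := by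
        have := mul_le_mul_of_nonneg_left e2
          (by positivity : 0 ≤ 4 * C * Z * (q : ℝ) ^ (-(1 / 4) : ℝ))
        linarith
      linarith
    refine le_trans ?_ hb
    have := norm_tsum_le_tsum_norm (f := off q h) (by simpa only [Real.norm_eq_abs] using hoff.abs)
    simpa only [Real.norm_eq_abs] using this
  -- the line
  have hL : P 0 / 4 * (h : ℝ) ^ (-(1 / 2) : ℝ) * Real.log h * Real.log q ≤ ∑' p, on q h p := by
    set M : ℕ := Nat.sqrt (q / h) with hM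
    have hMle : h * M ^ 2 ≤ q := by
      have e1 : M * M ≤ q / h := Nat.sqrt_le _
      calc h * M ^ 2 = h * (M * M) := by ring
        _ ≤ h * (q / h) := Nat.mul_le_mul_left _ e1
        _ ≤ q := Nat.mul_div_le q h
    have hnn : ∀ p, 0 ≤ on q h p := by
      intro p
      unfold on
      split_ifs with e
      · rw [e]
        exact mul_nonneg (sg_line _ _) (K_line_nonneg hP0 q hh _)
      · exact le_rfl
    have e1 : ∑ p ∈ (Icc 1 M).image (fun m => (m, h * m)), on q h p ≤ ∑' p, on q h p :=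
      hon.sum_le_tsum _ (fun p _ => hnn p)
    refine le_trans ?_ e1
    rw [sum_image (fun a _ b _ e => (Prod.mk.inj e).1)]
    have e2 : ∀ m ∈ Icc 1 M, P 0 * (h : ℝ) ^ (-(1 / 2) : ℝ) * Real.log h * (1 / (m : ℝ)) ≤
        on q h (m, h * m) := by
      intro m hm
      rw [mem_Icc] at hm
      have hmM : h * m ^ 2 ≤ q := (Nat.mul_le_mul_left _ (Nat.pow_le_pow_left hm.2 2)).trans hMle
      have hndvd : ¬ q ∣ h * m := by
        intro hd
        rcases hq.dvd_mul.1 hd with h3 | h3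
        · exact absurd (Nat.le_of_dvd hh h3) (by omega)
        · have h4 := Nat.le_of_dvd (by omega) h3
          have h5 := hq.two_le
          nlinarith
      unfold on
      rw [if_pos rfl, sg_line_one hq hq2 hndvd, one_mul]
      exact K_line_ge hPa hq.pos hh hm.1 hmM
    refine le_trans ?_ (sum_le_sum e2)
    rw [← mul_sum]
    have e3 : Real.log q / 4 ≤ ∑ m ∈ Icc 1 M, 1 / (m : ℝ) := by
      have e4 : Real.log ((M : ℝ) + 1) ≤ ∑ m ∈ Icc 1 M, 1 / (m : ℝ) := by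
        have := log_add_one_le_harmonic M
        rw [harmonic_eq_sum_Icc] at this
        push_cast at this
        simpa only [one_div] using this
      refine le_trans ?_ e4
      have e5 : (q : ℝ) / h < ((M : ℝ) + 1) ^ 2 := by
        rw [div_lt_iff₀ hh0]
        have e6 : q / h < (M + 1) * (M + 1) := Nat.lt_succ_sqrt _
        have e7 : q < (M + 1) * (M + 1) * h := (Nat.div_lt_iff_lt_mul hh).1 e6
        have e8 : (q : ℝ) < ((M : ℝ) + 1) * ((M : ℝ) + 1) * h := by exact_mod_cast e7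
        linarith
      have e9 : Real.log (q / h) ≤ 2 * Real.log ((M : ℝ) + 1) := by
        have := Real.log_le_log (by positivity) e5.le
        rw [Real.log_pow] at this
        exact_mod_cast this
      rw [Real.log_div hq0.ne' hh0.ne'] at e9
      have e10 : 2 * Real.log h ≤ Real.log q := by
        have e11 : ((h : ℝ)) ^ 2 ≤ q := by exact_mod_cast hhq
        have := Real.log_le_log (by positivity) e11
        rw [Real.log_pow] at this
        exact_mod_cast this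
      linarith
    have e12 : 0 ≤ P 0 * (h : ℝ) ^ (-(1 / 2) : ℝ) * Real.log h := by
      have := Real.log_nonneg hh1
      positivity
    have e13 := mul_le_mul_of_nonneg_left e3 e12
    linarith
  rw [hR]
  have hB' := (abs_le.1 hB).1
  have hpos : 0 ≤ (h : ℝ) ^ 3 * (q : ℝ) ^ (-(1 / 4) : ℝ) := by positivity
  have e14 : (16 * C * 4 ^ (9 / 4 : ℝ) * Z + 1) * (h : ℝ) ^ 3 * (q : ℝ) ^ (-(1 / 4) : ℝ) =
      16 * C * 4 ^ (9 / 4 : ℝ) * Z * ((h : ℝ) ^ 3 * (q : ℝ) ^ (-(1 / 4) : ℝ)) +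
        (h : ℝ) ^ 3 * (q : ℝ) ^ (-(1 / 4) : ℝ) := by ring
  linarith

end Pool.Agent.Lib.MP_50d0fc_nt.LB
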