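import Pool.Agent.Lib.MP_50d0fc_nt.LB.Spec

/-!
# Orthogonality of the odd characters modulo a prime
-/

set_option autoImplicit false

open Complex DirichletCharacter ComplexConjugate

namespace Pool.Agent.Lib.MP_50d0fc_nt.LB

namespace ORM

private lemma conj_char {q : ℕ} [NeZero q] (χ : DirichletCharacter ℂ q) (y : (ZMod q)ˣ) :
    conj (χ (y : ZMod q)) = χ ((y : ZMod q)⁻¹) := by
  have h1 : star (χ (y : ZMod q)) = χ⁻¹ (y : ZMod q) := MulChar.star_apply' χ _
  have h2 : χ⁻¹ (y : ZMod q) = χ (Ring.inverse (y : ZMod q)) := MulChar.inv_apply χ _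
  have h3 : Ring.inverse (y : ZMod q) = (y : ZMod q)⁻¹ := by
    rw [Ring.inverse_unit, ZMod.inv_coe_unit]
  rw [← h3, ← h2, ← h1]
  rfl

private lemma odd_sum {q : ℕ} [NeZero q] (F : DirichletCharacter ℂ q → ℂ) :
    ∑ χ ∈ oddChars q, F χ = ∑ χ : DirichletCharacter ℂ q, (1 - χ (-1)) / 2 * F χ := by
  classical
  have h : ∑ χ : DirichletCharacter ℂ q, (1 - χ (-1)) / 2 * F χ
      = ∑ χ : DirichletCharacter ℂ q, if χ ∈ oddChars q then F χ else 0 := by
    refine Finset.sum_congr rfl (fun χ _ => ?_)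
    rcases χ.even_or_odd with h | h
    · have h1 : χ (-1) = 1 := h
      have h2 : ¬ χ ∈ oddChars q := by
        rw [mem_oddChars]
        intro h3
        have h4 : χ (-1) = -1 := h3
        rw [h1] at h4
        norm_num at h4
      rw [if_neg h2, h1]
      ring
    · have h1 : χ (-1) = -1 := h
      rw [if_pos ((mem_oddChars χ).2 h), h1]
      ring
  rw [h, Finset.sum_ite_mem, Finset.univ_inter]

end ORM

open ORM in
theorem orth : StOR := by
  classical
  intro q _ hq hq2 a b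
  by_cases hb : IsUnit ((b : ℕ) : ZMod q)
  · obtain ⟨y, hy⟩ := hb
    rw [odd_sum]
    have e1 : ∀ χ : DirichletCharacter ℂ q,
        (1 - χ (-1)) / 2 * (χ ((a : ℕ) : ZMod q) * conj (χ ((b : ℕ) : ZMod q))) =
        (1 / 2) * (χ ((y : ZMod q)⁻¹) * χ ((a : ℕ) : ZMod q)) -
        (1 / 2) * (χ ((y : ZMod q)⁻¹) * χ (-((a : ℕ) : ZMod q))) := by
      intro χ
      rw [← hy, conj_char]
      have h1 : χ (-((a : ℕ) : ZMod q)) = χ (-1) * χ ((a : ℕ) : ZMod q) := by
        rw [← map_mul]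
        congr 1
        ring
      rw [h1]
      ring
    rw [Finset.sum_congr rfl (fun χ _ => e1 χ), Finset.sum_sub_distrib, ← Finset.mul_sum,
      ← Finset.mul_sum, DirichletCharacter.sum_char_inv_mul_char_eq ℂ y.isUnit,
      DirichletCharacter.sum_char_inv_mul_char_eq ℂ y.isUnit, Nat.totient_prime hq]
    unfold sg
    rw [← hy]
    have hq1 : 1 ≤ q := hq.one_lt.le
    have c1 : ((y : ZMod q) = ((a : ℕ) : ZMod q)) ↔ (((a : ℕ) : ZMod q) = (y : ZMod q)) :=
      eq_comm
    have c2 : ((y : ZMod q) = -((a : ℕ) : ZMod q)) ↔ (((a : ℕ) : ZMod q) = -(y : ZMod q)) := by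
      constructor
      · intro h
        rw [h, neg_neg]
      · intro h
        rw [h, neg_neg]
    by_cases p1 : ((a : ℕ) : ZMod q) = (y : ZMod q)
    · by_cases p2 : ((a : ℕ) : ZMod q) = -(y : ZMod q)
      · rw [if_pos (c1.2 p1), if_pos (c2.2 p2), if_pos p1, if_pos p2]
        push_cast
        ring
      · rw [if_pos (c1.2 p1), if_neg (fun h => p2 (c2.1 h)), if_pos p1, if_neg p2]
        push_cast [Nat.cast_sub hq1]
        ring
    · by_cases p2 : ((a : ℕ) : ZMod q) = -(y : ZMod q)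
      · rw [if_neg (fun h => p1 (c1.1 h)), if_pos (c2.2 p2), if_neg p1, if_pos p2]
        push_cast [Nat.cast_sub hq1]
        ring
      · rw [if_neg (fun h => p1 (c1.1 h)), if_neg (fun h => p2 (c2.1 h)), if_neg p1, if_neg p2]
        push_cast
        ring
  · have h0 : ∀ χ : DirichletCharacter ℂ q, χ ((b : ℕ) : ZMod q) = 0 :=
      fun χ => MulChar.map_nonunit χ hb
    have : Fact q.Prime := ⟨hq⟩
    have hb0 : ((b : ℕ) : ZMod q) = 0 := by
      by_contra hne
      exact hb (IsUnit.mk0 _ hne)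
    unfold sg
    rw [hb0, neg_zero, sub_self]
    rw [Finset.sum_eq_zero]
    · simp
    · intro χ _
      have := h0 χ
      rw [hb0] at this
      rw [this]
      simp

end Pool.Agent.Lib.MP_50d0fc_nt.LB
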