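import Pool.Agent.Lib.MP_50d0fc_nt.LB.Spec

/-!
# The product formula
-/

set_option autoImplicit false

open Complex MeasureTheory ComplexConjugate

namespace Pool.Agent.Lib.MP_50d0fc_nt.LB

namespace PFM

lemma measurableSet_A : MeasurableSet {p : ℝ × ℝ | 0 ≤ p.1 + p.2} :=
  measurableSet_le measurable_const (measurable_fst.add measurable_snd)

lemma line_null : (volume : Measure (ℝ × ℝ)) {p : ℝ × ℝ | p.1 + p.2 = 0} = 0 := by
  have hm : MeasurableSet {p : ℝ × ℝ | p.1 + p.2 = 0} :=
    measurableSet_eq_fun (measurable_fst.add measurable_snd) measurable_const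
  rw [Measure.volume_eq_prod, Measure.measure_prod_null hm]
  filter_upwards with x
  have : Prod.mk x ⁻¹' {p : ℝ × ℝ | p.1 + p.2 = 0} = {-x} := by
    ext y
    simp only [Set.mem_preimage, Set.mem_ofPred_eq, Set.mem_singleton_iff]
    constructor
    · intro h; linarith
    · intro h; rw [h]; ring
  rw [this]
  simp

/-- The map `(v, u) ↦ (-u, -v)`. -/
def sig (p : ℝ × ℝ) : ℝ × ℝ := (-p.2, -p.1)

lemma sig_mp : MeasurePreserving sig (volume : Measure (ℝ × ℝ)) volume := by
  have h1 : MeasurePreserving (fun p : ℝ × ℝ => (-p.1, -p.2))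
      (volume : Measure (ℝ × ℝ)) volume := by
    rw [Measure.volume_eq_prod]
    exact (Measure.measurePreserving_neg (volume : Measure ℝ)).prod
      (Measure.measurePreserving_neg (volume : Measure ℝ))
  have h2 : MeasurePreserving (Prod.swap : ℝ × ℝ → ℝ × ℝ)
      (volume : Measure (ℝ × ℝ)) volume := by
    rw [Measure.volume_eq_prod]
    exact Measure.measurePreserving_swap
  exact h1.comp h2

lemma sig_emb : MeasurableEmbedding sig := by
  have h : sig = (MeasurableEquiv.prodComm.trans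
      ((MeasurableEquiv.neg ℝ).prodCongr (MeasurableEquiv.neg ℝ)) : ℝ × ℝ ≃ᵐ ℝ × ℝ) := by
    funext p
    rfl
  rw [h]
  exact MeasurableEquiv.measurableEmbedding _

end PFM

open PFM

theorem pf : StPF := by
  intro F ε hF hvF hε hfe
  have hFc : Integrable (fun v : ℝ => conj (F v)) := by
    have h := (Complex.conjCLE : ℂ ≃L[ℝ] ℂ).toContinuousLinearMap.integrable_comp hF
    exact h
  have hvFc : Integrable (fun v : ℝ => (v : ℂ) * conj (F v)) := by
    have h := (Complex.conjCLE : ℂ ≃L[ℝ] ℂ).toContinuousLinearMap.integrable_comp hvF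
    refine h.congr (Filter.Eventually.of_forall fun v => ?_)
    show conj ((v : ℂ) * F v) = (v : ℂ) * conj (F v)
    rw [map_mul, Complex.conj_ofReal]
  have hconj : ∀ s : Set ℝ, ∫ v in s, conj (F v) = conj (∫ v in s, F v) := fun s => integral_conj
  have hconj' : ∫ v, conj (F v) = conj (∫ v, F v) := integral_conj
  constructor
  · -- the two integrable functions
    have hG1 : Integrable (fun p : ℝ × ℝ => ((p.1 : ℂ) * F p.1) * conj (F p.2)) :=
      hvF.mul_prod hFc
    have hG2 : Integrable (fun p : ℝ × ℝ => F p.1 * ((p.2 : ℂ) * conj (F p.2))) :=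
      hF.mul_prod hvFc
    have hprod : ∫ p : ℝ × ℝ, ((p.1 : ℂ) * F p.1) * conj (F p.2) =
        (∫ v : ℝ, (v : ℂ) * F v) * conj (∫ v : ℝ, F v) := by
      rw [← hconj', ← integral_prod_mul]
      rfl
    have hsplit := integral_add_compl (measurableSet_A) hG1
    -- the complement
    have hcompl : ∫ p in {p : ℝ × ℝ | 0 ≤ p.1 + p.2}ᶜ, ((p.1 : ℂ) * F p.1) * conj (F p.2) =
        ∫ p in {p : ℝ × ℝ | 0 ≤ p.1 + p.2}, -(F p.1 * ((p.2 : ℂ) * conj (F p.2))) := by
      have h1 := sig_mp.setIntegral_preimage_emb sig_emb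
        (fun p : ℝ × ℝ => ((p.1 : ℂ) * F p.1) * conj (F p.2)) {p : ℝ × ℝ | 0 ≤ p.1 + p.2}ᶜ
      rw [← h1]
      have h2 : sig ⁻¹' {p : ℝ × ℝ | 0 ≤ p.1 + p.2}ᶜ =ᵐ[volume] {p : ℝ × ℝ | 0 ≤ p.1 + p.2} := by
        have h3 : ∀ᵐ p : ℝ × ℝ, p.1 + p.2 ≠ 0 := by
          rw [ae_iff]
          simpa using line_null
        filter_upwards [h3] with p hp
        apply propext
        show (sig p ∈ {p : ℝ × ℝ | 0 ≤ p.1 + p.2}ᶜ) ↔ p ∈ {p : ℝ × ℝ | 0 ≤ p.1 + p.2}
        simp only [sig, Set.mem_compl_iff, Set.mem_ofPred_eq, not_le]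
        constructor
        · intro h; linarith
        · intro h
          have : 0 < p.1 + p.2 := lt_of_le_of_ne h (Ne.symm hp)
          linarith
      rw [setIntegral_congr_set h2]
      refine integral_congr_ae (Filter.Eventually.of_forall fun p => ?_)
      show (((sig p).1 : ℂ) * F (sig p).1) * conj (F (sig p).2) =
        -(F p.1 * ((p.2 : ℂ) * conj (F p.2)))
      simp only [sig]
      rw [hfe, hfe, map_mul, Complex.conj_conj]
      have hεε : ε * conj ε = 1 := by
        rw [Complex.mul_conj, Complex.normSq_eq_norm_sq, hε]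
        norm_num
      push_cast
      calc (-(p.2 : ℂ)) * (ε * conj (F p.2)) * (conj ε * F p.1)
          = -((ε * conj ε) * (F p.1 * ((p.2 : ℂ) * conj (F p.2)))) := by ring
        _ = -(F p.1 * ((p.2 : ℂ) * conj (F p.2))) := by rw [hεε, one_mul]
    rw [hcompl] at hsplit
    have hG1A := hG1.integrableOn (s := {p : ℝ × ℝ | 0 ≤ p.1 + p.2})
    have hG2A : IntegrableOn (fun p : ℝ × ℝ => -(F p.1 * ((p.2 : ℂ) * conj (F p.2))))
        {p : ℝ × ℝ | 0 ≤ p.1 + p.2} :=
      hG2.neg.integrableOn (s := {p : ℝ × ℝ | 0 ≤ p.1 + p.2})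
    rw [mul_assoc, ← hprod, ← hsplit, ← integral_add hG1A hG2A]
    congr 1
    refine integral_congr_ae (Filter.Eventually.of_forall fun p => ?_)
    show ((p.1 : ℂ) * F p.1) * conj (F p.2) + -(F p.1 * ((p.2 : ℂ) * conj (F p.2))) =
      ((p.1 - p.2 : ℝ) : ℂ) * (F p.1 * conj (F p.2))
    push_cast
    ring
  · have h1 := integral_add_compl (measurableSet_Ioi : MeasurableSet (Set.Ioi (0 : ℝ))) hF
    have h2 : ∫ v in (Set.Ioi (0 : ℝ))ᶜ, F v = ε * conj (∫ v in Set.Ioi (0 : ℝ), F v) := by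
      rw [Set.compl_Ioi]
      have h3 := integral_comp_neg_Ioi (0 : ℝ) F
      rw [neg_zero] at h3
      rw [← h3, ← hconj, ← integral_const_mul]
      refine integral_congr_ae (Filter.Eventually.of_forall fun v => ?_)
      exact hfe v
    rw [← h1, h2]
    refine (norm_add_le _ _).trans ?_
    rw [norm_mul, hε, one_mul, RCLike.norm_conj]
    linarith

end Pool.Agent.Lib.MP_50d0fc_nt.LB
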