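import Pool.Agent.Lib.MP_50d0fc_nt.LB.Spec
import Pool.Agent.Lib.MP_5b6025_nt.RP.Mertens

/-!
# Module VM: a lower bound of Mertens type
-/

set_option autoImplicit false

open ArithmeticFunction Finset

namespace Pool.Agent.Lib.MP_50d0fc_nt.LB

namespace VMM

theorem sum_log_lower (N : ℕ) (hN : 1 ≤ N) :
    (N : ℝ) * Real.log N - N ≤ ∑ m ∈ Ioc 0 N, Real.log (m : ℝ) := by
  induction N, hN using Nat.le_induction with
  | base => simp
  | succ n hn ih =>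
    have hpos : (0 : ℝ) < n := by exact_mod_cast hn
    rw [Finset.sum_Ioc_succ_top (Nat.zero_le n)]
    have h1 : (n : ℝ) * (Real.log ((n + 1 : ℕ) : ℝ) - Real.log n) ≤ 1 := by
      rw [← Real.log_div (by positivity) hpos.ne']
      have h2 := Real.log_le_sub_one_of_pos (x := ((n + 1 : ℕ) : ℝ) / n) (by positivity)
      have h3 : (n : ℝ) * (((n + 1 : ℕ) : ℝ) / n - 1) = 1 := by
        push_cast
        field_simp
        ring
      nlinarith
    push_cast at h1 ⊢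
    linarith

theorem mertens_lower (N : ℕ) (hN : 1 ≤ N) :
    Real.log N - 1 ≤ ∑ d ∈ Ioc 0 N, Λ d / (d : ℝ) := by
  have hN' : (0 : ℝ) < N := by exact_mod_cast hN
  have h1 : ∑ m ∈ Ioc 0 N, Real.log m = ∑ d ∈ Ioc 0 N, Λ d * ((N / d : ℕ) : ℝ) := by
    rw [← sum_Ioc_mul_zeta_eq_sum, vonMangoldt_mul_zeta]
    rfl
  have h2 := sum_log_lower N hN
  have h3 : ∑ d ∈ Ioc 0 N, Λ d * ((N / d : ℕ) : ℝ) ≤ N * ∑ d ∈ Ioc 0 N, Λ d / (d : ℝ) := by
    rw [mul_sum]
    apply sum_le_sum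
    intro d _
    have h4 : ((N / d : ℕ) : ℝ) ≤ (N : ℝ) / d := Nat.cast_div_le
    calc Λ d * ((N / d : ℕ) : ℝ) ≤ Λ d * ((N : ℝ) / d) :=
          mul_le_mul_of_nonneg_left h4 vonMangoldt_nonneg
      _ = N * (Λ d / (d : ℝ)) := by ring
  rw [h1] at h2
  have h5 : (N : ℝ) * (Real.log N - 1) ≤ N * ∑ d ∈ Ioc 0 N, Λ d / (d : ℝ) := by
    linarith
  exact le_of_mul_le_mul_left h5 hN'

end VMM

/-- A lower bound of Mertens type. -/
theorem vm : StVM := by
  obtain ⟨C, hC0, hC⟩ := Pool.Agent.Lib.MP5b6025.RP.MertensM.mertens_upper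
  refine ⟨1 / 8, by norm_num, ⌈Real.exp (4 * (C + 1))⌉₊ + 2, ?_⟩
  intro y hy
  have hy2 : 2 ≤ y := by omega
  have hy0 : (0 : ℝ) < y := by exact_mod_cast (by omega : 0 < y)
  have hlog : 4 * (C + 1) ≤ Real.log y := by
    rw [Real.le_log_iff_exp_le hy0]
    calc Real.exp (4 * (C + 1)) ≤ (⌈Real.exp (4 * (C + 1))⌉₊ : ℝ) := Nat.le_ceil _
      _ ≤ y := by exact_mod_cast (by omega : ⌈Real.exp (4 * (C + 1))⌉₊ ≤ y)
  obtain ⟨z, hz⟩ : ∃ z, z = Nat.sqrt y := ⟨_, rfl⟩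
  have hz1 : 1 ≤ z := by
    rw [hz]
    exact Nat.sqrt_pos.2 (by omega)
  have hzy : z ≤ y := by
    rw [hz]
    exact Nat.sqrt_le_self y
  have hz0 : (0 : ℝ) < z := by exact_mod_cast hz1
  have hzsq : (z : ℝ) * z ≤ y := by
    rw [hz]
    exact_mod_cast Nat.sqrt_le y
  have hlz : Real.log z ≤ Real.log y / 2 := by
    have h1 : Real.log ((z : ℝ) * z) ≤ Real.log y := Real.log_le_log (by positivity) hzsq
    rw [Real.log_mul hz0.ne' hz0.ne'] at h1
    linarith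
  have hlow := VMM.mertens_lower y (by omega)
  have hup := hC z hz1
  have hsub : Ioc z y ⊆ Icc 1 y := by
    intro h hh
    rw [mem_Ioc] at hh
    rw [mem_Icc]
    omega
  have hsplit : ∑ d ∈ Ioc 0 y, Λ d / (d : ℝ) =
      ∑ d ∈ Ioc 0 z, Λ d / (d : ℝ) + ∑ d ∈ Ioc z y, Λ d / (d : ℝ) := by
    rw [← Finset.sum_union]
    · congr 1
      ext d
      simp only [mem_union, mem_Ioc]
      omega
    · rw [Finset.disjoint_left]
      intro d h1 h2
      rw [mem_Ioc] at h1 h2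
      omega
  have hnn : ∀ h ∈ Icc 1 y, 0 ≤ Λ h * Real.log h / (h : ℝ) := by
    intro h hh
    have h1 : (1 : ℝ) ≤ h := by exact_mod_cast (mem_Icc.1 hh).1
    have h2 : 0 ≤ Real.log h := Real.log_nonneg h1
    have h3 : 0 ≤ Λ h := vonMangoldt_nonneg
    positivity
  have hbig : (Real.log y / 2) * ∑ d ∈ Ioc z y, Λ d / (d : ℝ) ≤
      ∑ h ∈ Ioc z y, Λ h * Real.log h / (h : ℝ) := by
    rw [mul_sum]
    apply sum_le_sum
    intro h hh
    rw [mem_Ioc] at hh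
    have h0 : (0 : ℝ) < h := by exact_mod_cast (by omega : 0 < h)
    have h1 : (y : ℝ) ≤ h * h := by
      have h2 : y < (z + 1) * (z + 1) := by
        rw [hz]
        exact Nat.lt_succ_sqrt y
      have h3 : (z + 1) * (z + 1) ≤ h * h := Nat.mul_le_mul (by omega) (by omega)
      exact_mod_cast (by omega : y ≤ h * h)
    have h4 : Real.log y / 2 ≤ Real.log h := by
      have h5 : Real.log y ≤ Real.log ((h : ℝ) * h) := Real.log_le_log hy0 h1
      rw [Real.log_mul h0.ne' h0.ne'] at h5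
      linarith
    have h6 : 0 ≤ Λ h / (h : ℝ) := div_nonneg vonMangoldt_nonneg h0.le
    calc Real.log y / 2 * (Λ h / (h : ℝ)) ≤ Real.log h * (Λ h / (h : ℝ)) :=
          mul_le_mul_of_nonneg_right h4 h6
      _ = Λ h * Real.log h / (h : ℝ) := by ring
  have hfin : ∑ h ∈ Ioc z y, Λ h * Real.log h / (h : ℝ) ≤
      ∑ h ∈ Icc 1 y, Λ h * Real.log h / (h : ℝ) :=
    sum_le_sum_of_subset_of_nonneg hsub (fun h hh _ => hnn h hh)
  have hS : Real.log y / 4 ≤ ∑ d ∈ Ioc z y, Λ d / (d : ℝ) := by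
    linarith
  have hl0 : 0 ≤ Real.log y := by linarith
  calc 1 / 8 * Real.log y ^ 2 = (Real.log y / 2) * (Real.log y / 4) := by ring
    _ ≤ (Real.log y / 2) * ∑ d ∈ Ioc z y, Λ d / (d : ℝ) :=
        mul_le_mul_of_nonneg_left hS (by linarith)
    _ ≤ _ := hbig.trans hfin

end Pool.Agent.Lib.MP_50d0fc_nt.LB
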