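import Pool.Agent.Lib.MP_50d0fc_nt.LB.GA
import Pool.Agent.Lib.MP_50d0fc_nt.LB.GP
import Pool.Agent.Lib.MP_50d0fc_nt.LB.FE
import Pool.Agent.Lib.MP_50d0fc_nt.LB.ML
import Pool.Agent.Lib.MP_50d0fc_nt.LB.IM
import Pool.Agent.Lib.MP_50d0fc_nt.LB.PF
import Pool.Agent.Lib.MP_50d0fc_nt.LB.KS
import Pool.Agent.Lib.MP_50d0fc_nt.LB.EX
import Pool.Agent.Lib.MP_50d0fc_nt.LB.ES
import Pool.Agent.Lib.MP_50d0fc_nt.LB.OR
import Pool.Agent.Lib.MP_50d0fc_nt.LB.OS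
import Pool.Agent.Lib.MP_50d0fc_nt.LB.AH
import Pool.Agent.Lib.MP_50d0fc_nt.LB.MT
import Pool.Agent.Lib.MP_50d0fc_nt.LB.VM
import Pool.Agent.Lib.MP_50d0fc_nt.LB.DN
import Pool.Agent.Lib.MP_50d0fc_nt.LB.FN

/-!
# The lower bound for `Im L'/L(1/2, χ)`
-/

set_option autoImplicit false

open Complex DirichletCharacter

namespace Pool.Agent.Lib.MP_50d0fc_nt.LB

/-- For all large primes `q` some odd character mod `q` has `L(1/2, χ) ≠ 0` and
`|Im L'/L(1/2, χ)| ≥ c log q`. -/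
theorem lowerBound : StFN := by
  have hGA := ga
  have hGP := gp hGA
  have hKS := ks hGP
  have hEX := ex hGA hGP hKS
  have hES := es hGA hGP
  have hML := ml
  have hFE := fe
  have hPF := pf
  have hAH := ah hML hFE hPF hEX hKS orth
  have hMT := mt hGP hKS
  have hDN := dn hGP hES os
  exact fn (im hML) hPF hML hFE hES hAH hMT vm hDN

end Pool.Agent.Lib.MP_50d0fc_nt.LB
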