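import Pool.Agent.Lib.MP_50d0fc_nt.LB.Spec

/-!
# Module GA: integrability of `g` with weights (helper84)
-/

set_option autoImplicit false

open MeasureTheory

namespace Pool.Agent.Lib.MP_50d0fc_nt.LB

lemma g_pos (v : ℝ) : 0 < g v := Real.exp_pos _

lemma continuous_g : Continuous g := by
  unfold g
  fun_prop

/-- the majorant -/
lemma g_bound (k : ℝ) (hk : 0 ≤ k) :
    ∃ C : ℝ, 0 < C ∧ ∀ v : ℝ, (1 + |v|) * (g v * Real.exp (k * v)) ≤ C * Real.exp (-(|v| / 2)) := by
  refine ⟨max 4 (Real.exp ((k + 3) ^ 2)), by positivity, fun v => ?_⟩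
  have hg : g v * Real.exp (k * v) = Real.exp (3 * v / 4 + k * v - Real.pi * Real.exp v) := by
    unfold g
    rw [← Real.exp_add]
    congr 1
    ring
  rw [hg]
  rcases le_total 0 v with hv | hv
  · rw [abs_of_nonneg hv]
    have h1 : 1 + v ≤ Real.exp v := by linarith [Real.add_one_le_exp v]
    have h2 : v ^ 2 / 2 ≤ Real.exp v := by
      have := Real.quadratic_le_exp_of_nonneg hv
      linarith
    have hpi : (2 : ℝ) ≤ Real.pi := by linarith [Real.pi_gt_three]
    have h3 : (k + 3) * v - Real.pi * Real.exp v ≤ (k + 3) ^ 2 := by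
      nlinarith [sq_nonneg (v - (k + 3)), sq_nonneg (k + 3), sq_nonneg v, Real.exp_pos v]
    calc (1 + v) * Real.exp (3 * v / 4 + k * v - Real.pi * Real.exp v)
        ≤ Real.exp v * Real.exp (3 * v / 4 + k * v - Real.pi * Real.exp v) :=
          mul_le_mul_of_nonneg_right h1 (Real.exp_pos _).le
      _ = Real.exp (v + (3 * v / 4 + k * v - Real.pi * Real.exp v)) := (Real.exp_add _ _).symm
      _ ≤ Real.exp ((k + 3) ^ 2 + -(v / 2)) := by
          apply Real.exp_le_exp.2
          linarith
      _ = Real.exp ((k + 3) ^ 2) * Real.exp (-(v / 2)) := Real.exp_add _ _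
      _ ≤ max 4 (Real.exp ((k + 3) ^ 2)) * Real.exp (-(v / 2)) :=
          mul_le_mul_of_nonneg_right (le_max_right _ _) (Real.exp_pos _).le
  · rw [abs_of_nonpos hv]
    have h1 : 1 + -v ≤ 4 * Real.exp (-v / 4) := by linarith [Real.add_one_le_exp (-v / 4)]
    have h2 : Real.exp (3 * v / 4 + k * v - Real.pi * Real.exp v) ≤ Real.exp (3 * v / 4) := by
      apply Real.exp_le_exp.2
      have : k * v ≤ 0 := mul_nonpos_of_nonneg_of_nonpos hk hv
      have : 0 ≤ Real.pi * Real.exp v := by positivity
      linarith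
    calc (1 + -v) * Real.exp (3 * v / 4 + k * v - Real.pi * Real.exp v)
        ≤ (4 * Real.exp (-v / 4)) * Real.exp (3 * v / 4) :=
          mul_le_mul h1 h2 (Real.exp_pos _).le (by positivity)
      _ = 4 * Real.exp (-(-v / 2)) := by
          rw [mul_assoc, ← Real.exp_add]
          congr 2
          ring
      _ ≤ max 4 (Real.exp ((k + 3) ^ 2)) * Real.exp (-(-v / 2)) :=
          mul_le_mul_of_nonneg_right (le_max_left _ _) (Real.exp_pos _).le

lemma integrable_exp_abs : Integrable (fun v : ℝ => Real.exp (-(|v| / 2))) := by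
  rw [← integrableOn_univ, ← Set.Iic_union_Ioi (a := (0 : ℝ)), integrableOn_union]
  constructor
  · have h : IntegrableOn (fun v : ℝ => Real.exp ((1 / 2) * v)) (Set.Iic 0) :=
      integrableOn_exp_mul_Iic (by norm_num) 0
    refine h.congr_fun (fun v hv => ?_) measurableSet_Iic
    simp only
    rw [abs_of_nonpos (Set.mem_Iic.1 hv)]
    congr 1
    ring
  · have h : IntegrableOn (fun v : ℝ => Real.exp ((-(1 / 2)) * v)) (Set.Ioi 0) :=
      integrableOn_exp_mul_Ioi (by norm_num) 0
    refine h.congr_fun (fun v hv => ?_) measurableSet_Ioi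
    simp only
    rw [abs_of_pos (Set.mem_Ioi.1 hv)]
    congr 1
    ring

theorem ga : StGA := by
  constructor
  · intro k hk
    obtain ⟨C, _, hC⟩ := g_bound k hk
    refine (integrable_exp_abs.const_mul C).mono' ?_ (Filter.Eventually.of_forall fun v => ?_)
    · exact (continuous_g.mul (by fun_prop)).aestronglyMeasurable
    · have h0 : 0 ≤ g v * Real.exp (k * v) := (mul_pos (g_pos v) (Real.exp_pos _)).le
      rw [Real.norm_of_nonneg h0]
      refine le_trans ?_ (hC v)
      have := mul_nonneg (abs_nonneg v) h0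
      linarith
  · intro k hk
    obtain ⟨C, _, hC⟩ := g_bound k hk
    refine (integrable_exp_abs.const_mul C).mono' ?_ (Filter.Eventually.of_forall fun v => ?_)
    · exact (continuous_abs.mul (continuous_g.mul (by fun_prop))).aestronglyMeasurable
    · have h0 : 0 ≤ g v * Real.exp (k * v) := (mul_pos (g_pos v) (Real.exp_pos _)).le
      rw [Real.norm_of_nonneg (mul_nonneg (abs_nonneg v) h0)]
      refine le_trans ?_ (hC v)
      linarith

lemma integrable_g : Integrable g := by
  have h := ga.1 0 le_rfl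
  simpa using h

end Pool.Agent.Lib.MP_50d0fc_nt.LB
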