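import Pool.Agent.Lib.MP_50d0fc_nt.LB.Spec

/-!
# Module OS: the mean square of a character sum with absolutely summable coefficients
-/

set_option autoImplicit false

open Complex DirichletCharacter MeasureTheory ComplexConjugate

namespace Pool.Agent.Lib.MP_50d0fc_nt.LB

namespace OSaux

lemma conj_char {q : ℕ} [NeZero q] (hq : q.Prime) (χ : DirichletCharacter ℂ q) (b : ZMod q) :
    conj (χ b) = χ b⁻¹ := by
  have : Fact q.Prime := ⟨hq⟩
  have h1 : conj (χ b) = χ⁻¹ b := MulChar.star_apply' χ b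
  rw [h1, MulChar.inv_apply']

lemma sum_char_conj {q : ℕ} [NeZero q] (hq : q.Prime) (a b : ZMod q) :
    ∑ χ : DirichletCharacter ℂ q, χ a * conj (χ b) =
      if b ≠ 0 ∧ a = b then ((q : ℂ) - 1) else 0 := by
  have : Fact q.Prime := ⟨hq⟩
  by_cases hb : b = 0
  · subst hb
    have : ∀ χ : DirichletCharacter ℂ q, χ a * conj (χ 0) = 0 := by
      intro χ
      have h0 : χ (0 : ZMod q) = 0 := χ.map_nonunit (by simp)
      rw [h0]; simp
    rw [Finset.sum_congr rfl (fun χ _ => this χ)]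
    simp
  · have hu : IsUnit b := IsUnit.mk0 b hb
    have h := DirichletCharacter.sum_char_inv_mul_char_eq ℂ hu a
    have h2 : ∑ χ : DirichletCharacter ℂ q, χ a * conj (χ b) =
        ∑ χ : DirichletCharacter ℂ q, χ b⁻¹ * χ a := by
      refine Finset.sum_congr rfl (fun χ _ => ?_)
      rw [conj_char hq, mul_comm]
    rw [h2, h]
    have hphi : ((q.totient : ℕ) : ℂ) = (q : ℂ) - 1 := by
      rw [Nat.totient_prime hq, Nat.cast_sub hq.one_le]; simp
    rw [hphi]
    by_cases hab : b = a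
    · subst hab; simp [hb]
    · have hab' : ¬ (a = b) := fun h => hab h.symm
      simp [hab, hab']

lemma sum_sq {q : ℕ} [NeZero q] (hq : q.Prime) (f : ZMod q → ℂ) :
    ∑ χ : DirichletCharacter ℂ q, ‖∑ r : ZMod q, χ r * f r‖ ^ 2 =
      ((q : ℝ) - 1) * ∑ r : ZMod q, (if r ≠ 0 then ‖f r‖ ^ 2 else 0) := by
  have key : ((∑ χ : DirichletCharacter ℂ q, ‖∑ r : ZMod q, χ r * f r‖ ^ 2 : ℝ) : ℂ) =
      ((((q : ℝ) - 1) * ∑ r : ZMod q, (if r ≠ 0 then ‖f r‖ ^ 2 else 0) : ℝ) : ℂ) := by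
    have e1 : ∀ χ : DirichletCharacter ℂ q,
        (((‖∑ r : ZMod q, χ r * f r‖ ^ 2 : ℝ)) : ℂ) =
          ∑ a : ZMod q, ∑ b : ZMod q, (f a * conj (f b)) * (χ a * conj (χ b)) := by
      intro χ
      have h1 := Complex.mul_conj' (∑ r : ZMod q, χ r * f r)
      push_cast
      rw [← h1, map_sum, Finset.sum_mul_sum]
      refine Finset.sum_congr rfl (fun a _ => Finset.sum_congr rfl (fun b _ => ?_))
      rw [map_mul]; ring
    rw [Complex.ofReal_sum, Finset.sum_congr rfl (fun χ _ => e1 χ), Finset.sum_comm]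
    have e2 : ∀ a : ZMod q,
        ∑ χ : DirichletCharacter ℂ q, ∑ b : ZMod q, (f a * conj (f b)) * (χ a * conj (χ b)) =
          ((q : ℂ) - 1) * (if a ≠ 0 then ((‖f a‖ ^ 2 : ℝ) : ℂ) else 0) := by
      intro a
      rw [Finset.sum_comm]
      have e3 : ∀ b : ZMod q,
          ∑ χ : DirichletCharacter ℂ q, (f a * conj (f b)) * (χ a * conj (χ b)) =
            if a = b then (if b ≠ 0 then (f a * conj (f b)) * ((q : ℂ) - 1) else 0) else 0 := by
        intro b
        rw [← Finset.mul_sum, sum_char_conj hq]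
        by_cases h1 : b = 0 <;> by_cases h2 : a = b <;> simp [h1, h2]
      rw [Finset.sum_congr rfl (fun b _ => e3 b)]
      rw [Finset.sum_ite_eq]
      simp only [Finset.mem_univ, if_true]
      by_cases h1 : a = 0
      · simp [h1]
      · have := Complex.mul_conj' (f a)
        simp only [ne_eq, h1, not_false_eq_true, if_true]
        rw [this]; push_cast; ring
    rw [Finset.sum_congr rfl (fun a _ => e2 a), ← Finset.mul_sum]
    push_cast
    congr 1
    refine Finset.sum_congr rfl (fun a _ => ?_)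
    by_cases h1 : a = 0 <;> simp [h1]
  exact_mod_cast key

lemma fold {q : ℕ} [NeZero q] (χ : DirichletCharacter ℂ q) (c : ℕ → ℝ) (hc : ∀ n, 0 ≤ c n)
    (hs : Summable c) :
    ∑' n : ℕ, χ (n : ZMod q) * (c n : ℂ) =
      ∑ r : ZMod q, χ r * ((∑' n : ℕ, (if (n : ZMod q) = r then c n else 0) : ℝ) : ℂ) := by
  have hsr : ∀ r : ZMod q, Summable (fun n : ℕ => if (n : ZMod q) = r then c n else 0) := by
    intro r
    refine Summable.of_nonneg_of_le (fun n => ?_) (fun n => ?_) hs
    · split_ifs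
      · exact hc n
      · exact le_rfl
    · split_ifs
      · exact le_rfl
      · exact hc n
  have hsc : ∀ r : ZMod q, Summable
      (fun n : ℕ => χ r * (((if (n : ZMod q) = r then c n else 0) : ℝ) : ℂ)) := by
    intro r
    exact Summable.mul_left _ (Complex.summable_ofReal.mpr (hsr r))
  have e1 : ∀ n : ℕ, χ (n : ZMod q) * (c n : ℂ) =
      ∑ r : ZMod q, χ r * (((if (n : ZMod q) = r then c n else 0) : ℝ) : ℂ) := by
    intro n
    have : ∀ r : ZMod q, χ r * (((if (n : ZMod q) = r then c n else 0) : ℝ) : ℂ) =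
        if (n : ZMod q) = r then χ r * (c n : ℂ) else 0 := by
      intro r
      split_ifs <;> simp
    rw [Finset.sum_congr rfl (fun r _ => this r), Finset.sum_ite_eq]
    simp
  rw [tsum_congr e1, Summable.tsum_finsetSum (fun r _ => hsc r)]
  refine Finset.sum_congr rfl (fun r _ => ?_)
  rw [tsum_mul_left, Complex.ofReal_tsum]

end OSaux

open OSaux in
theorem os : StOS := by
  intro q _ hq c hc hs
  set s : ZMod q → ℝ := fun r => ∑' n : ℕ, (if (n : ZMod q) = r then c n else 0) with hsdef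
  have h1 : ∀ χ : DirichletCharacter ℂ q, ∑' n : ℕ, χ (n : ZMod q) * (c n : ℂ) =
      ∑ r : ZMod q, χ r * ((s r : ℝ) : ℂ) := fun χ => fold χ c hc hs
  have h2 : ∑ χ ∈ oddChars q, ‖∑' n : ℕ, χ (n : ZMod q) * (c n : ℂ)‖ ^ 2 ≤
      ∑ χ : DirichletCharacter ℂ q, ‖∑ r : ZMod q, χ r * ((s r : ℝ) : ℂ)‖ ^ 2 := by
    rw [Finset.sum_congr rfl (fun χ _ => by rw [h1 χ])]
    exact Finset.sum_le_sum_of_subset_of_nonneg (Finset.subset_univ _)
      (fun χ _ _ => by positivity)
  refine h2.trans ?_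
  rw [sum_sq hq]
  have hq1 : (0 : ℝ) ≤ (q : ℝ) - 1 := by
    have : (1 : ℝ) ≤ (q : ℝ) := by exact_mod_cast hq.one_le
    linarith
  refine mul_le_mul_of_nonneg_left (Finset.sum_le_sum (fun r _ => ?_)) hq1
  split_ifs
  · rw [Complex.norm_real, Real.norm_eq_abs, sq_abs]
  · positivity

end Pool.Agent.Lib.MP_50d0fc_nt.LB
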