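import Mathlib

/-!
# A lower bound for `Im L'/L(1/2, χ)` over the odd characters mod a prime `q`

Definitions and the statements of the modules.
-/

set_option autoImplicit false

open Complex DirichletCharacter MeasureTheory ComplexConjugate

namespace Pool.Agent.Lib.MP_50d0fc_nt.LB

/-- `g(w) = exp(3w/4 - π e^w)`. -/
noncomputable def g (w : ℝ) : ℝ := Real.exp (3 * w / 4 - Real.pi * Real.exp w)

/-- `Φ_χ(v) = ∑ χ(n) n^{-1/2} g(v + 2 log n - log q)`. -/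
noncomputable def Phi {q : ℕ} (χ : DirichletCharacter ℂ q) (v : ℝ) : ℂ :=
  ∑' n : ℕ, χ (n : ZMod q) *
    (((n : ℝ) ^ (-(1 / 2) : ℝ) * g (v + 2 * Real.log n - Real.log q) : ℝ) : ℂ)

/-- `P(y) = ∫∫_{v + u ≥ y} g(v) g(u) dv du`. -/
noncomputable def P (y : ℝ) : ℝ := ∫ p : ℝ × ℝ in {p : ℝ × ℝ | y ≤ p.1 + p.2}, g p.1 * g p.2

/-- `W(y) = ∫_{w > y} g(w) dw`. -/
noncomputable def W (y : ℝ) : ℝ := ∫ w in Set.Ioi y, g w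

/-- `X(χ) = ∫ Φ_χ(v) dv`. -/
noncomputable def X {q : ℕ} (χ : DirichletCharacter ℂ q) : ℂ := ∫ v : ℝ, Phi χ v

/-- `X₁(χ) = (1/2) ∫ v Φ_χ(v) dv`. -/
noncomputable def X1 {q : ℕ} (χ : DirichletCharacter ℂ q) : ℂ :=
  (1 / 2) * ∫ v : ℝ, (v : ℂ) * Phi χ v

/-- `K(m, n) = (mn)^{-1/2} log(n/m) P(2 log(mn/q))` (zero if `m = 0` or `n = 0`). -/
noncomputable def K (q m n : ℕ) : ℝ :=
  (m : ℝ) ^ (-(1 / 2) : ℝ) * (n : ℝ) ^ (-(1 / 2) : ℝ) * (Real.log n - Real.log m) *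
    P (2 * Real.log m + 2 * Real.log n - 2 * Real.log q)

/-- `[a ≡ b] - [a ≡ -b]` modulo `q`. -/
noncomputable def sg (q a b : ℕ) : ℝ :=
  (if (a : ZMod q) = (b : ZMod q) then 1 else 0) - (if (a : ZMod q) = -(b : ZMod q) then 1 else 0)

/-- `R(h) = ∑_{m, n} sg(hm, n) K(m, n)`. -/
noncomputable def R (q h : ℕ) : ℝ := ∑' p : ℕ × ℕ, sg q (h * p.1) p.2 * K q p.1 p.2

/-- The odd characters mod `q`. -/
noncomputable def oddChars (q : ℕ) [NeZero q] : Finset (DirichletCharacter ℂ q) := by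
  classical exact Finset.univ.filter (fun χ => χ.Odd)

lemma mem_oddChars {q : ℕ} [NeZero q] (χ : DirichletCharacter ℂ q) :
    χ ∈ oddChars q ↔ χ.Odd := by
  classical
  unfold oddChars
  simp

/-- `S(χ) = ∑ χ(n) n^{-1/2} W(2 log n - log q)`. -/
noncomputable def S {q : ℕ} (χ : DirichletCharacter ℂ q) : ℂ :=
  ∑' n : ℕ, χ (n : ZMod q) *
    (((n : ℝ) ^ (-(1 / 2) : ℝ) * W (2 * Real.log n - Real.log q) : ℝ) : ℂ)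

/-- `T_a(χ) = ∑_{h ≤ y} a(h) h^{-1/2} χ(h)`. -/
noncomputable def T {q : ℕ} (y : ℕ) (a : ℕ → ℝ) (χ : DirichletCharacter ℂ q) : ℂ :=
  ∑ h ∈ Finset.Icc 1 y, ((a h * (h : ℝ) ^ (-(1 / 2) : ℝ) : ℝ) : ℂ) * χ (h : ZMod q)

/-- The value `L'/L(1/2, χ)`. -/
noncomputable def LD {q : ℕ} [NeZero q] (χ : DirichletCharacter ℂ q) : ℂ :=
  deriv (LFunction χ) (1 / 2) / LFunction χ (1 / 2)

/-! ### The statements of the modules -/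

/-- Module GA: integrability of `g` with weights. -/
def StGA : Prop :=
  (∀ k : ℝ, 0 ≤ k → Integrable (fun v : ℝ => g v * Real.exp (k * v))) ∧
  (∀ k : ℝ, 0 ≤ k → Integrable (fun v : ℝ => |v| * (g v * Real.exp (k * v))))

/-- Module GP: bounds for `P` and `W`. -/
def StGP : Prop :=
  Antitone P ∧ Antitone W ∧ (∀ y, 0 ≤ P y) ∧ (∀ y, 0 ≤ W y) ∧ 0 < P 0 ∧
  (∀ k : ℝ, 0 ≤ k → ∃ C : ℝ, 0 < C ∧ ∀ y, P y ≤ C * Real.exp (-(k * y))) ∧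
  (∀ k : ℝ, 0 ≤ k → ∃ C : ℝ, 0 < C ∧ ∀ y, W y ≤ C * Real.exp (-(k * y)))

/-- Module FE: the functional equation of `Φ`. -/
def StFE : Prop :=
  ∀ (q : ℕ) [NeZero q], q.Prime → ∀ χ : DirichletCharacter ℂ q, χ.Odd →
    ∃ ε : ℂ, ‖ε‖ = 1 ∧ ∀ v : ℝ, Phi χ (-v) = ε * conj (Phi χ v)

/-- Module ML: the Mellin transform of `Φ` is the completed `L`-function. -/
def StML : Prop :=
  ∀ (q : ℕ) [NeZero q], q.Prime → ∀ χ : DirichletCharacter ℂ q, χ.Odd →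
    Integrable (fun v : ℝ => Phi χ v) ∧ Integrable (fun v : ℝ => (v : ℂ) * Phi χ v) ∧
    X χ = completedLFunction χ (1 / 2) ∧
    X1 χ = deriv (completedLFunction χ) (1 / 2) +
      ((Real.log q / 2 : ℝ) : ℂ) * completedLFunction χ (1 / 2)

/-- Module IM: `|X₁| |X| ≤ (B + C) |X|²` if `|Im L'/L(1/2, χ)| ≤ B`. -/
def StIM : Prop :=
  ∃ C : ℝ, 0 ≤ C ∧ ∀ (q : ℕ) [NeZero q], q.Prime → ∀ χ : DirichletCharacter ℂ q, χ.Odd →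
    ∀ B : ℝ, 0 ≤ B → (LFunction χ (1 / 2) ≠ 0 → |(LD χ).im| ≤ B) →
      ‖X1 χ‖ * ‖X χ‖ ≤ (B + C) * ‖X χ‖ ^ 2

/-- Module PF: the product formula, for a function `F` with `F(-v) = ε conj F(v)`. -/
def StPF : Prop :=
  ∀ (F : ℝ → ℂ) (ε : ℂ), Integrable F → Integrable (fun v : ℝ => (v : ℂ) * F v) → ‖ε‖ = 1 →
    (∀ v, F (-v) = ε * conj (F v)) →
    ((1 / 2) * ∫ v : ℝ, (v : ℂ) * F v) * conj (∫ v : ℝ, F v) =
      (1 / 2) * ∫ p : ℝ × ℝ in {p : ℝ × ℝ | 0 ≤ p.1 + p.2},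
        ((p.1 - p.2 : ℝ) : ℂ) * (F p.1 * conj (F p.2)) ∧
    ‖∫ v : ℝ, F v‖ ≤ 2 * ‖∫ v in Set.Ioi (0 : ℝ), F v‖

/-- Module KS: `K` is summable. -/
def StKS : Prop := ∀ q : ℕ, 0 < q → Summable (fun p : ℕ × ℕ => |K q p.1 p.2|)

/-- Module EX: the expansion of the double integral. -/
def StEX : Prop :=
  ∀ (q : ℕ) [NeZero q], q.Prime → ∀ χ : DirichletCharacter ℂ q, χ.Odd →
    ∫ p : ℝ × ℝ in {p : ℝ × ℝ | 0 ≤ p.1 + p.2},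
        ((p.1 - p.2 : ℝ) : ℂ) * (Phi χ p.1 * conj (Phi χ p.2)) =
      ∑' p : ℕ × ℕ, χ (p.1 : ZMod q) * conj (χ (p.2 : ZMod q)) * ((2 * K q p.1 p.2 : ℝ) : ℂ)

/-- Module ES: `∫_0^∞ Φ = S`, and the coefficients of `S` are summable. -/
def StES : Prop :=
  ∀ (q : ℕ) [NeZero q], q.Prime →
    Summable (fun n : ℕ => (n : ℝ) ^ (-(1 / 2) : ℝ) * W (2 * Real.log n - Real.log q)) ∧
    ∀ χ : DirichletCharacter ℂ q, χ.Odd → ∫ v in Set.Ioi (0 : ℝ), Phi χ v = S χ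

/-- Module OR: orthogonality of odd characters. -/
def StOR : Prop :=
  ∀ (q : ℕ) [NeZero q], q.Prime → q ≠ 2 → ∀ a b : ℕ,
    ∑ χ ∈ oddChars q, χ (a : ZMod q) * conj (χ (b : ZMod q)) =
      ((((q : ℝ) - 1) / 2 * sg q a b : ℝ) : ℂ)

/-- Module OS: the mean square of a character sum with absolutely summable coefficients. -/
def StOS : Prop :=
  ∀ (q : ℕ) [NeZero q], q.Prime → ∀ c : ℕ → ℝ, (∀ n, 0 ≤ c n) → Summable c →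
    ∑ χ ∈ oddChars q, ‖∑' n : ℕ, χ (n : ZMod q) * (c n : ℂ)‖ ^ 2 ≤
      ((q : ℝ) - 1) * ∑ r : ZMod q, (∑' n : ℕ, if (n : ZMod q) = r then c n else 0) ^ 2

/-- Module AH: the twisted sums. -/
def StAH : Prop :=
  ∀ (q : ℕ) [NeZero q], q.Prime → q ≠ 2 → ∀ h : ℕ,
    ∑ χ ∈ oddChars q, χ (h : ZMod q) * (X1 χ * conj (X χ)) =
      ((((q : ℝ) - 1) / 2 * R q h : ℝ) : ℂ)

/-- Module MT: the main term of `R(h)`. -/
def StMT : Prop :=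
  ∃ c C : ℝ, 0 < c ∧ 0 < C ∧ ∀ q : ℕ, q.Prime → q ≠ 2 → ∀ h : ℕ, 1 ≤ h → h ^ 2 ≤ q →
    c * (h : ℝ) ^ (-(1 / 2) : ℝ) * Real.log h * Real.log q -
      C * (h : ℝ) ^ 3 * (q : ℝ) ^ (-(1 / 4) : ℝ) ≤ R q h

/-- Module VM: a lower bound of Mertens type. -/
def StVM : Prop :=
  ∃ c : ℝ, 0 < c ∧ ∃ y₀ : ℕ, ∀ y : ℕ, y₀ ≤ y →
    c * Real.log y ^ 2 ≤
      ∑ h ∈ Finset.Icc 1 y, ArithmeticFunction.vonMangoldt h * Real.log h / h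

/-- Module DN: the upper bound for the mean square of `S T_a`. -/
def StDN : Prop :=
  ∃ C : ℝ, 0 < C ∧ ∀ (q : ℕ) [NeZero q], q.Prime → ∀ y : ℕ, 2 ≤ y → y ^ 20 ≤ q →
    Real.log q ≤ 40 * Real.log y → ∀ a : ℕ → ℝ, (∀ h, 0 ≤ a h) → (∀ h, y < h → a h = 0) →
    (∀ n : ℕ, 1 ≤ n → ∑ h ∈ n.divisors, a h ≤ 1 + Real.log n / Real.log y) →
      ∑ χ ∈ oddChars q, ‖S χ‖ ^ 2 * ‖T y a χ‖ ^ 2 ≤ C * ((q : ℝ) - 1) * Real.log q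

/-- Module FN: the lower bound. -/
def StFN : Prop :=
  ∃ c : ℝ, 0 < c ∧ ∃ Q : ℕ, ∀ (q : ℕ) [NeZero q], q.Prime → Q ≤ q →
    ∃ χ : DirichletCharacter ℂ q, χ.Odd ∧ LFunction χ (1 / 2) ≠ 0 ∧
      c * Real.log q ≤ |(LD χ).im|

end Pool.Agent.Lib.MP_50d0fc_nt.LB
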