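import Pool.Agent.Lib.MP_50d0fc_nt.LB.Spec

/-!
# The theta series of an odd character

`theta χ t = ∑ n χ(n) exp(-π n² t / q)`; `Phi χ v = q^{-3/4} e^{3v/4} theta χ (e^v)` and
`∑_j χ(j) oddKernel(j/q, x) = (2/q) theta χ (x/q)`.
-/

set_option autoImplicit false

open Complex DirichletCharacter MeasureTheory ComplexConjugate

namespace Pool.Agent.Lib.MP_50d0fc_nt.LB

/-- `θ_χ(t) = ∑ n χ(n) exp(-π n² t / q)`. -/
noncomputable def theta {q : ℕ} (χ : DirichletCharacter ℂ q) (t : ℝ) : ℂ :=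
  ∑' n : ℕ, χ (n : ZMod q) * (((n : ℝ) * Real.exp (-Real.pi * (n : ℝ) ^ 2 * (t / q)) : ℝ) : ℂ)

lemma term_eq {q : ℕ} (hq : 0 < q) (v : ℝ) (n : ℕ) :
    (n : ℝ) ^ (-(1 / 2) : ℝ) * g (v + 2 * Real.log n - Real.log q) =
      ((q : ℝ) ^ (-(3 / 4) : ℝ) * Real.exp (3 * v / 4)) *
        ((n : ℝ) * Real.exp (-Real.pi * (n : ℝ) ^ 2 * (Real.exp v / q))) := by
  rcases Nat.eq_zero_or_pos n with rfl | hn
  · have : ((0 : ℕ) : ℝ) ^ (-(1 / 2) : ℝ) = 0 := by
      rw [Nat.cast_zero, Real.zero_rpow (by norm_num)]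
    rw [this]
    simp
  have hn' : (0 : ℝ) < n := by exact_mod_cast hn
  have hq' : (0 : ℝ) < q := by exact_mod_cast hq
  have e1 : Real.exp (v + 2 * Real.log n - Real.log q) = (n : ℝ) ^ 2 * (Real.exp v / q) := by
    rw [Real.exp_sub, Real.exp_add, Real.exp_log hq', two_mul, Real.exp_add, Real.exp_log hn']
    ring
  unfold g
  rw [e1, Real.rpow_def_of_pos hn', Real.rpow_def_of_pos hq', ← Real.exp_add, ← Real.exp_add]
  have e2 : (n : ℝ) * Real.exp (-Real.pi * (n : ℝ) ^ 2 * (Real.exp v / q)) =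
      Real.exp (Real.log n + -Real.pi * (n : ℝ) ^ 2 * (Real.exp v / q)) := by
    rw [Real.exp_add, Real.exp_log hn']
  rw [e2, ← Real.exp_add]
  congr 1
  ring

/-- `Φ_χ(v) = q^{-3/4} e^{3v/4} θ_χ(e^v)`. -/
theorem Phi_eq {q : ℕ} (hq : 0 < q) (χ : DirichletCharacter ℂ q) (v : ℝ) :
    Phi χ v = (((q : ℝ) ^ (-(3 / 4) : ℝ) * Real.exp (3 * v / 4) : ℝ) : ℂ) *
      theta χ (Real.exp v) := by
  unfold Phi theta
  rw [← tsum_mul_left]
  congr 1
  ext n
  rw [term_eq hq]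
  push_cast
  ring

/-- If the sums over the residue classes converge, so does the sum over `ℤ`. -/
lemma hasSum_of_classes {q : ℕ} [NeZero q] (F : ℤ → ℂ) (a : ZMod q → ℂ)
    (h : ∀ j : ZMod q, HasSum (fun n : ℤ => F (q * n + j.val)) (a j)) :
    HasSum F (∑ j, a j) := by
  have hq : (q : ℤ) ≠ 0 := by exact_mod_cast NeZero.ne q
  have h1 : ∀ j : ZMod q, HasSum (fun m : ℤ => if (m : ZMod q) = j then F m else 0) (a j) := by
    intro j
    have hinj : Function.Injective (fun n : ℤ => (q : ℤ) * n + j.val) := by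
      intro x y hxy
      have h0 : (q : ℤ) * x + j.val = (q : ℤ) * y + j.val := hxy
      exact mul_left_cancel₀ hq (by linarith)
    rw [← hinj.hasSum_iff]
    · refine (h j).congr_fun fun n => ?_
      have : (((q : ℤ) * n + j.val : ℤ) : ZMod q) = j := by
        push_cast
        simp
      simp only [Function.comp]
      rw [if_pos this]
    · intro m hm
      rw [if_neg]
      intro hj
      apply hm
      have h2 : (q : ℤ) ∣ m - j.val := by
        rw [← ZMod.intCast_zmod_eq_zero_iff_dvd]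
        push_cast
        simp [hj]
      obtain ⟨k, hk⟩ := h2
      exact ⟨k, by simp only; rw [← hk]; ring⟩
  have h2 := hasSum_sum (s := (Finset.univ : Finset (ZMod q))) fun j _ => h1 j
  refine h2.congr_fun fun m => ?_
  simp

/-- The sum over `ℤ`. -/
lemma hasSum_int_theta {q : ℕ} [NeZero q] (χ : DirichletCharacter ℂ q) {x : ℝ} (hx : 0 < x) :
    HasSum (fun m : ℤ => χ (m : ZMod q) *
      (((m : ℝ) * Real.exp (-Real.pi * (m : ℝ) ^ 2 * (x / q ^ 2)) : ℝ) : ℂ))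
      (q * ∑ j : ZMod q, χ j * (HurwitzZeta.oddKernel (ZMod.toAddCircle j) x : ℂ)) := by
  have hq : (q : ℝ) ≠ 0 := by exact_mod_cast NeZero.ne q
  rw [Finset.mul_sum]
  apply hasSum_of_classes
  intro j
  have h1 := HurwitzZeta.hasSum_int_oddKernel ((j.val : ℝ) / q) hx
  rw [← ZMod.toAddCircle_apply] at h1
  have h2 := (Complex.hasSum_ofReal.mpr h1).mul_left ((q : ℂ) * χ j)
  have h3 : (q : ℂ) * (χ j * (HurwitzZeta.oddKernel (ZMod.toAddCircle j) x : ℂ)) =
      (q : ℂ) * χ j * ((HurwitzZeta.oddKernel (ZMod.toAddCircle j) x : ℝ) : ℂ) := by ring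
  rw [h3]
  refine h2.congr_fun fun n => ?_
  have h4 : (((q : ℤ) * n + j.val : ℤ) : ZMod q) = j := by
    push_cast
    simp
  rw [h4]
  have h5 : (((q : ℤ) * n + j.val : ℤ) : ℝ) = q * (n + (j.val : ℝ) / q) := by
    push_cast
    field_simp
  rw [h5]
  have h6 : -Real.pi * ((q : ℝ) * (n + (j.val : ℝ) / q)) ^ 2 * (x / q ^ 2) =
      -Real.pi * (n + (j.val : ℝ) / q) ^ 2 * x := by
    field_simp
  rw [h6]
  push_cast
  ring

/-- `∑ χ(j) oddKernel(j/q, x) = (2/q) θ_χ(x/q)`. -/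
theorem sum_oddKernel {q : ℕ} [NeZero q] {χ : DirichletCharacter ℂ q} (hχ : χ.Odd) {x : ℝ}
    (hx : 0 < x) :
    ∑ j : ZMod q, χ j * (HurwitzZeta.oddKernel (ZMod.toAddCircle j) x : ℂ) =
      2 / q * theta χ (x / q) := by
  have hq : (q : ℂ) ≠ 0 := by exact_mod_cast NeZero.ne q
  have h1 := hasSum_int_theta χ hx
  have h2 : Summable (fun n : ℕ => χ (n : ZMod q) *
      (((n : ℝ) * Real.exp (-Real.pi * (n : ℝ) ^ 2 * (x / q / q)) : ℝ) : ℂ)) := by
    refine (h1.summable.comp_injective Nat.cast_injective).congr fun n => ?_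
    simp only [Function.comp, Int.cast_natCast]
    rw [show x / (q : ℝ) ^ 2 = x / q / q by rw [pow_two, div_div]]
  have h3 : HasSum (fun n : ℕ => χ (n : ZMod q) *
      (((n : ℝ) * Real.exp (-Real.pi * (n : ℝ) ^ 2 * (x / q / q)) : ℝ) : ℂ))
      (theta χ (x / q)) := h2.hasSum
  have h4 : HasSum (fun m : ℤ => χ (m : ZMod q) *
      (((m : ℝ) * Real.exp (-Real.pi * (m : ℝ) ^ 2 * (x / q ^ 2)) : ℝ) : ℂ))
      (theta χ (x / q) + theta χ (x / q) - 0) := by
    have h5 := HasSum.of_nat_of_neg (f := fun m : ℤ => χ (m : ZMod q) *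
      (((m : ℝ) * Real.exp (-Real.pi * (m : ℝ) ^ 2 * (x / q ^ 2)) : ℝ) : ℂ))
      (g := theta χ (x / q)) (g' := theta χ (x / q)) ?_ ?_
    · simpa using h5
    · refine h3.congr_fun fun n => ?_
      simp only [Int.cast_natCast]
      rw [show x / (q : ℝ) ^ 2 = x / q / q by rw [pow_two, div_div]]
    · refine h3.congr_fun fun n => ?_
      have h6 : χ ((-(n : ℤ) : ℤ) : ZMod q) = - χ (n : ZMod q) := by
        push_cast
        exact DirichletCharacter.Odd.eval_neg χ _ hχ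
      rw [h6]
      simp only [Int.cast_neg, Int.cast_natCast, neg_sq]
      rw [show x / (q : ℝ) ^ 2 = x / q / q by rw [pow_two, div_div]]
      push_cast
      ring
  have h5 := h1.unique h4
  field_simp
  linear_combination h5

end Pool.Agent.Lib.MP_50d0fc_nt.LB
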